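import Pool.Agent.Run7.h376.HT.SEC

/-!
# The piece EDGE
-/

set_option autoImplicit false

namespace Run7.h376.HT

open Run7.h397 Run7.h397.HT

theorem face_cyc {V : Type} {P : V → Pt} {T : SimpleGraph V} {a b c : V} (h : Face P T a b c) :
    Face P T b c a :=
  ⟨h.2.2.1, h.1.symm, h.2.1.symm, fun x hx => h.2.2.2 x (inTri_cyc (inTri_cyc hx))⟩

theorem face_swap' {V : Type} {P : V → Pt} {T : SimpleGraph V} {a b c : V} (h : Face P T a b c) :
    Face P T a c b := face_cyc (face_swap h)

/-- the point `m` is below `l r` and `m l'` is steeper than `m l` -/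
theorem left_unique {V : Type} {P : V → Pt} (hP : GP P) {T : SimpleGraph V} (hT : Plane P T)
    {l m r l' : V} (hF : Face P T l m r) (h1 : (P l).1 < (P m).1) (h2 : (P m).1 < (P r).1)
    (h3 : 0 < orient (P l) (P m) (P r)) (hl' : T.Adj m l') (h4 : (P l').1 < (P m).1) :
    ¬ 0 < orient (P m) (P l') (P l) := by
  intro h5
  have hid : ((P l).1 - (P m).1) * orient (P m) (P r) (P l') =
      ((P r).1 - (P m).1) * (- orient (P m) (P l') (P l)) +
      ((P l').1 - (P m).1) * orient (P l) (P m) (P r) := by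
    unfold orient; ring
  have h6 : 0 < orient (P m) (P r) (P l') := by
    by_contra hc
    push Not at hc
    have e1 : 0 ≤ ((P m).1 - (P l).1) * (- orient (P m) (P r) (P l')) :=
      mul_nonneg (by linarith) (by linarith)
    have e2 := mul_pos (sub_pos.2 h2) h5
    have e3 := mul_pos (sub_pos.2 h4) h3
    nlinarith
  have hne1 : l' ≠ l := by rintro rfl; simp at h5
  have hne2 : l' ≠ r := by rintro rfl; simp at h6
  have hlr := hF.2.1
  have h7 : orient (P r) (P l) (P l') < 0 := by
    rcases lt_or_gt_of_ne (hP.col r l l' hlr.ne.symm hne2.symm hne1.symm) with h | h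
    · exact h
    · exfalso
      apply hF.2.2.2 l'
      rw [inTri_pos h3]
      exact ⟨by rw [← orient_cyc]; exact h5, h6, h⟩
  apply hT m l' l r hl' hlr
  refine ⟨mul_neg_of_pos_of_neg h5 (by rw [orient_swap']; linarith), ?_⟩
  rw [orient_swap (P r) (P l) (P m), orient_swap (P r) (P l) (P l'), neg_mul_neg, orient_cyc']
  exact mul_neg_of_pos_of_neg h3 h7

/-- the left vertex is determined -/
theorem left_eq {V : Type} {P : V → Pt} (hP : GP P) {T : SimpleGraph V} (hT : Plane P T)
    {l m r l' r' : V} (hF : Face P T l m r) (h1 : (P l).1 < (P m).1) (h2 : (P m).1 < (P r).1)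
    (h3 : 0 < orient (P l) (P m) (P r)) (hF' : Face P T l' m r') (h1' : (P l').1 < (P m).1)
    (h2' : (P m).1 < (P r').1) (h3' : 0 < orient (P l') (P m) (P r')) : l = l' := by
  by_contra hne
  rcases lt_or_gt_of_ne (hP.col m l l' hF.1.ne.symm hF'.1.ne.symm hne) with h | h
  · exact left_unique hP hT hF h1 h2 h3 hF'.1.symm h1' (by rw [orient_swap']; linarith)
  · exact left_unique hP hT hF' h1' h2' h3' hF.1.symm h1 h

theorem emp_refl {V : Type} {P : V → Pt} {a b c : V} (h : Emp P a b c) : Emp (refl P) a b c := by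
  intro x hx
  apply h x
  unfold InTri at hx ⊢
  simpa only [orient_refl, neg_mul_neg] using hx

theorem face_refl {V : Type} {P : V → Pt} {T : SimpleGraph V} {a b c : V} (h : Face P T a b c) :
    Face (refl P) T a b c := ⟨h.1, h.2.1, h.2.2.1, emp_refl h.2.2.2⟩

/-- The vertical reflection. -/
def refv {V : Type} (P : V → Pt) (v : V) : Pt := ((P v).1, -(P v).2)

theorem orient_refv {V : Type} (P : V → Pt) (a b c : V) :
    orient (refv P a) (refv P b) (refv P c) = - orient (P a) (P b) (P c) := by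
  unfold orient refv; ring

theorem plane_refl {V : Type} {P : V → Pt} {T : SimpleGraph V} (h : Plane P T) : Plane (refl P) T :=
  fun i j k l h1 h2 h3 => h i j k l h1 h2 ((X_refl P i j k l).1 h3)

theorem plane_refv {V : Type} {P : V → Pt} {T : SimpleGraph V} (h : Plane P T) : Plane (refv P) T := by
  intro i j k l h1 h2 h3
  apply h i j k l h1 h2
  unfold X Cr at h3 ⊢
  simpa only [orient_refv, neg_mul_neg] using h3

theorem gp_refv {V : Type} {P : V → Pt} (hP : GP P) : GP (refv P) := by
  constructor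
  · intro i j h
    apply hP.inj
    simp only [refv, Prod.mk.injEq, neg_inj] at h
    exact Prod.ext h.1 h.2
  · intro i j k h1 h2 h3
    rw [orient_refv]
    exact neg_ne_zero.2 (hP.col i j k h1 h2 h3)

theorem face_refv {V : Type} {P : V → Pt} {T : SimpleGraph V} {a b c : V} (h : Face P T a b c) :
    Face (refv P) T a b c := by
  refine ⟨h.1, h.2.1, h.2.2.1, fun x hx => ?_⟩
  apply h.2.2.2 x
  unfold InTri at hx ⊢
  simpa only [orient_refv, neg_mul_neg] using hx

/-- both vertices are determined, positive case -/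
theorem both_eq {V : Type} {P : V → Pt} (hP : GP P) {T : SimpleGraph V} (hT : Plane P T)
    {l m r l' r' : V} (hF : Face P T l m r) (h1 : (P l).1 < (P m).1) (h2 : (P m).1 < (P r).1)
    (h3 : 0 < orient (P l) (P m) (P r)) (hF' : Face P T l' m r') (h1' : (P l').1 < (P m).1)
    (h2' : (P m).1 < (P r').1) (h3' : 0 < orient (P l') (P m) (P r')) : l = l' ∧ r = r' := by
  refine ⟨left_eq hP hT hF h1 h2 h3 hF' h1' h2' h3', ?_⟩
  have e : ∀ x y z : V, orient (refl P z) (refl P y) (refl P x) = orient (P x) (P y) (P z) := by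
    intro x y z
    rw [orient_refl, orient_swap'']
    ring
  refine left_eq (gp_refl hP) (plane_refl hT) (l := r) (m := m) (r := l) (l' := r') (r' := l')
    (face_refl (face_swap' (face_cyc (face_cyc hF)))) ?_ ?_ ?_
    (face_refl (face_swap' (face_cyc (face_cyc hF')))) ?_ ?_ ?_
  · simp only [refl]; linarith
  · simp only [refl]; linarith
  · rw [e]; exact h3
  · simp only [refl]; linarith
  · simp only [refl]; linarith
  · rw [e]; exact h3'

/-- both vertices are determined -/
theorem all_eq {V : Type} {P : V → Pt} (hP : GP P) {T : SimpleGraph V} (hT : Plane P T)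
    {l m r l' r' : V} (hF : Face P T l m r) (h1 : (P l).1 < (P m).1) (h2 : (P m).1 < (P r).1)
    (hF' : Face P T l' m r') (h1' : (P l').1 < (P m).1) (h2' : (P m).1 < (P r').1)
    (hs : 0 < orient (P l) (P m) (P r) ↔ 0 < orient (P l') (P m) (P r')) : l = l' ∧ r = r' := by
  by_cases h3 : 0 < orient (P l) (P m) (P r)
  · exact both_eq hP hT hF h1 h2 h3 hF' h1' h2' (hs.1 h3)
  · have h3' : ¬ 0 < orient (P l') (P m) (P r') := fun h => h3 (hs.2 h)
    have g : ∀ {x y z : V}, Face P T x y z → ¬ 0 < orient (P x) (P y) (P z) →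
        0 < orient (refv P x) (refv P y) (refv P z) := by
      intro x y z hf hn
      rw [orient_refv]
      push Not at hn
      have := lt_of_le_of_ne hn (hP.col x y z hf.1.ne hf.2.1.ne hf.2.2.1.ne)
      linarith
    exact both_eq (gp_refv hP) (plane_refv hT) (face_refv hF) h1 h2 (g hF h3) (face_refv hF') h1' h2'
      (g hF' h3')

/-- `f` lists the vertices of a face from left to right. -/
def SF {V : Type} (P : V → Pt) (T : SimpleGraph V) (f : Fin 3 → V) : Prop :=
  Face P T (f 0) (f 1) (f 2) ∧ (P (f 0)).1 < (P (f 1)).1 ∧ (P (f 1)).1 < (P (f 2)).1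

/-- the labels of the ordered edges -/
def Lab {V : Type} (P : V → Pt) (T : SimpleGraph V) (e : V × V) (t : V × Bool × (Fin 3 × Fin 3)) : Prop :=
  ∃ f : Fin 3 → V, SF P T f ∧ f 1 = t.1 ∧ (t.2.1 = true ↔ 0 < orient (P (f 0)) (P (f 1)) (P (f 2))) ∧
    e.1 = f t.2.2.1 ∧ e.2 = f t.2.2.2

theorem lab_inj {V : Type} {P : V → Pt} (hP : GP P) {T : SimpleGraph V} (hT : Plane P T)
    {e e' : V × V} {t : V × Bool × (Fin 3 × Fin 3)} (h : Lab P T e t) (h' : Lab P T e' t) : e = e' := by
  obtain ⟨f, ⟨hF, h1, h2⟩, h3, h4, h5, h6⟩ := h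
  obtain ⟨f', ⟨hF', h1', h2'⟩, h3', h4', h5', h6'⟩ := h'
  have hm : f 1 = f' 1 := h3.trans h3'.symm
  have hs := h4.symm.trans h4'
  rw [← hm] at hF' h1' h2' hs
  obtain ⟨e1, e2⟩ := all_eq hP hT hF h1 h2 hF' h1' h2' hs
  have hff : f = f' := by
    funext i
    fin_cases i
    · exact e1
    · exact hm
    · exact e2
  subst hff
  exact Prod.ext (h5.trans h5'.symm) (h6.trans h6'.symm)

theorem sf_lab {V : Type} {P : V → Pt} {T : SimpleGraph V} {x y z : V} (hF : Face P T x y z)
    (h1 : (P x).1 < (P y).1) (h2 : (P y).1 < (P z).1) (i j : Fin 3) (hij : i ≠ j) :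
    ∃ t : V × Bool × (Fin 3 × Fin 3), Lab P T ((![x, y, z] : Fin 3 → V) i, (![x, y, z] : Fin 3 → V) j) t ∧
      t.2.2.1 ≠ t.2.2.2 := by
  classical
  refine ⟨(y, decide (0 < orient (P x) (P y) (P z)), (i, j)), ⟨![x, y, z], ⟨hF, h1, h2⟩, rfl, ?_, rfl, rfl⟩, hij⟩
  simp

theorem ex_lab {V : Type} {P : V → Pt} (hD : DX P) {T : SimpleGraph V} {a b c : V}
    (hF : Face P T a b c) :
    ∃ t : V × Bool × (Fin 3 × Fin 3), Lab P T (a, b) t ∧ t.2.2.1 ≠ t.2.2.2 := by
  have hab := hF.1.ne
  have hac := hF.2.1.ne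
  have hbc := hF.2.2.1.ne
  rcases lt_or_gt_of_ne (hD a b hab) with h1 | h1
  · rcases lt_or_gt_of_ne (hD b c hbc) with h2 | h2
    · exact sf_lab hF h1 h2 0 1 (by decide)
    · rcases lt_or_gt_of_ne (hD a c hac) with h3 | h3
      · exact sf_lab (face_swap' hF) h3 h2 0 2 (by decide)
      · exact sf_lab (face_cyc (face_cyc hF)) h3 h1 1 2 (by decide)
  · rcases lt_or_gt_of_ne (hD b c hbc) with h2 | h2
    · rcases lt_or_gt_of_ne (hD a c hac) with h3 | h3
      · exact sf_lab (face_swap hF) h1 h3 1 0 (by decide)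
      · exact sf_lab (face_cyc hF) h2 h3 2 0 (by decide)
    · exact sf_lab (face_cyc (face_cyc (face_swap hF))) h2 h1 2 1 (by decide)

/-- **EDGE**. -/
theorem edge : S_EDGE := by
  classical
  intro V _ P hP hD T hT
  by_cases hn : Fintype.card V ≤ 2
  · have h1 : (es T).card ≤ (Finset.univ : Finset (V × V)).card := Finset.card_le_card (Finset.subset_univ _)
    rw [Finset.card_univ, Fintype.card_prod] at h1
    refine h1.trans ?_
    exact Nat.mul_le_mul_right _ (by omega)
  push Not at hn
  have hface : ∀ a b, T.Adj a b → ∃ c, Face P T a b c := by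
    intro a b hab
    have : ∃ p, p ≠ a ∧ p ≠ b := by
      by_contra hcon
      push Not at hcon
      have hsub : (Finset.univ : Finset V) ⊆ {a, b} := by
        intro x _
        rw [Finset.mem_insert, Finset.mem_singleton]
        by_cases hx : x = a
        · exact Or.inl hx
        · exact Or.inr (hcon x hx)
      have := Finset.card_le_card hsub
      rw [Finset.card_univ] at this
      have h2 : ({a, b} : Finset V).card ≤ 2 := Finset.card_le_two
      omega
    obtain ⟨p, hpa, hpb⟩ := this
    rcases lt_or_gt_of_ne (hP.col a b p hab.ne hpa.symm hpb.symm) with h | h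
    · obtain ⟨c, -, hc⟩ := face V P hP T hT b a p hab.symm (by rw [orient_swap]; linarith)
      exact ⟨c, face_swap hc⟩
    · obtain ⟨c, -, hc⟩ := face V P hP T hT a b p hab h
      exact ⟨c, hc⟩
  have hlab : ∀ e : V × V, e ∈ es T → ∃ t : V × Bool × (Fin 3 × Fin 3), Lab P T e t ∧ t.2.2.1 ≠ t.2.2.2 := by
    rintro ⟨a, b⟩ he
    simp only [es, Finset.mem_filter, Finset.mem_univ, true_and] at he
    obtain ⟨c, hc⟩ := hface a b he
    exact ex_lab hD hc
  have : Nonempty V := Fintype.card_pos_iff.1 (by omega)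
  choose! g hg1 hg2 using hlab
  have hcard : (es T).card ≤ ((Finset.univ : Finset V) ×ˢ (Finset.univ : Finset Bool) ×ˢ
      (Finset.univ : Finset (Fin 3)).offDiag).card := by
    apply Finset.card_le_card_of_injOn g
    · intro e he
      have := hg2 e he
      simp only [Finset.coe_product, Set.mem_prod, Finset.mem_coe, Finset.mem_univ, Finset.mem_offDiag,
        true_and]
      exact this
    · intro e he e' he' hee
      have h1 := hg1 e he
      have h2 := hg1 e' he'
      rw [← hee] at h2
      exact lab_inj hP hT.1 h1 h2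
  rw [Finset.card_product, Finset.card_product, Finset.card_univ, Finset.card_univ] at hcard
  have e1 : Fintype.card Bool = 2 := Fintype.card_bool
  have e2 : ((Finset.univ : Finset (Fin 3)).offDiag).card = 6 := by decide
  rw [e1, e2] at hcard
  omega

end Run7.h376.HT
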