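import Pool.Agent.Run7.h376.HT.SEC

/-!
# The pieces EXT and CONN
-/

set_option autoImplicit false

namespace Run7.h376.HT

open Run7.h397 Run7.h397.HT

/-- **EXT**. -/
theorem ext : S_EXT := by
  classical
  intro V _ P hP E hE
  have hfin : {T : SimpleGraph V | Plane P T}.Finite := Set.toFinite _
  obtain ⟨T, hET, hmax⟩ := hfin.exists_le_maximal (a := E) hE
  refine ⟨T, hET, hmax.prop, fun i j hij hno => ?_⟩
  set T₁ : SimpleGraph V := T ⊔ SimpleGraph.fromEdgeSet {s(i, j)} with hT₁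
  have hadj : ∀ k l, T₁.Adj k l ↔ T.Adj k l ∨ (s(k, l) = s(i, j) ∧ k ≠ l) := by
    intro k l
    rw [hT₁, SimpleGraph.sup_adj, SimpleGraph.fromEdgeSet_adj, Set.mem_singleton_iff]
  have hX : ∀ k l, T.Adj k l → ∀ k' l', s(k', l') = s(i, j) → ¬ X P k' l' k l := by
    intro k l hkl k' l' h
    rcases Sym2.eq_iff.1 h with ⟨rfl, rfl⟩ | ⟨rfl, rfl⟩
    · exact hno k l hkl
    · intro h2
      exact hno k l hkl ((cr_swap1 _ _ _ _).1 h2)
  have hplane : Plane P T₁ := by
    intro k l k' l' h1 h2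
    rw [hadj] at h1 h2
    rcases h1 with h1 | ⟨h1, -⟩
    · rcases h2 with h2 | ⟨h2, -⟩
      · exact hmax.prop k l k' l' h1 h2
      · intro h
        exact hX k l h1 k' l' h2 ((cr_comm _ _ _ _).1 h)
    · rcases h2 with h2 | ⟨h2, -⟩
      · exact hX k' l' h2 k l h1
      · rw [← h1] at h2
        rcases Sym2.eq_iff.1 h2 with ⟨rfl, rfl⟩ | ⟨rfl, rfl⟩
        · exact not_cr_left _ _ _
        · exact not_cr_right _ _ _
  have hle : T₁ ≤ T := hmax.le_of_ge hplane (by rw [hT₁]; exact le_sup_left)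
  exact hle ((hadj i j).2 (Or.inr ⟨rfl, hij⟩))

/-- **CONN**. -/
theorem conn : S_CONN := by
  classical
  intro V _ P hP hD E hE ρ lam hρ hlam
  set Q : Finset V := (es E).image Prod.fst ∪ {lam, ρ} with hQ
  have hQcard : Q.card ≤ (es E).card + 2 := by
    refine (Finset.card_union_le _ _).trans (Nat.add_le_add Finset.card_image_le ?_)
    exact Finset.card_le_two
  have hρQ : ρ ∈ Q := by simp [hQ]
  have hlQ : lam ∈ Q := by simp [hQ]
  have hEQ : ∀ u v, E.Adj u v → u ∈ Q := by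
    intro u v h
    rw [hQ]
    apply Finset.mem_union_left
    rw [Finset.mem_image]
    exact ⟨(u, v), by simp [es, h], rfl⟩
  let W : Type := {x // x ∈ Q}
  let PQ : W → Pt := fun x => P x.1
  have hPQ : GP PQ := by
    constructor
    · intro i j h
      exact Subtype.ext (hP.inj h)
    · intro i j k h1 h2 h3
      exact hP.col i.1 j.1 k.1 (fun h => h1 (Subtype.ext h)) (fun h => h2 (Subtype.ext h))
        (fun h => h3 (Subtype.ext h))
  obtain ⟨T₀, hET₀, hT₀⟩ := ext W PQ hPQ (E.comap (Subtype.val : W → V)) (by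
    intro i j k l h1 h2
    exact hE i.1 j.1 k.1 l.1 h1 h2)
  let emb : W ↪ V := Function.Embedding.subtype _
  set E₁ : SimpleGraph V := T₀.map emb with hE₁
  have hadj : ∀ u v, E₁.Adj u v ↔ ∃ u' v' : W, T₀.Adj u' v' ∧ (u' : V) = u ∧ (v' : V) = v := by
    intro u v
    rw [hE₁, SimpleGraph.map_adj]
    rfl
  have hwalk0 : ∀ (m : ℕ) (a : W), ((Finset.univ : Finset W).filter fun x => (PQ a).1 < (PQ x).1).card ≤ m →
      ∃ w : T₀.Walk a ⟨ρ, hρQ⟩, w.length ≤ m := by
    intro m
    induction m with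
    | zero =>
      intro a ha
      have : a = ⟨ρ, hρQ⟩ := by
        by_contra hne
        have h1 : (⟨ρ, hρQ⟩ : W) ∈ (Finset.univ : Finset W).filter fun x => (PQ a).1 < (PQ x).1 := by
          simp only [Finset.mem_filter, Finset.mem_univ, true_and]
          exact hρ a.1 (fun h => hne (Subtype.ext h))
        have := Finset.card_pos.2 ⟨_, h1⟩
        omega
      subst this
      exact ⟨SimpleGraph.Walk.nil, by simp⟩
    | succ m ih =>
      intro a ha
      by_cases hne : a = ⟨ρ, hρQ⟩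
      · subst hne
        exact ⟨SimpleGraph.Walk.nil, by simp⟩
      · have h1 : 0 < (1 : ℝ) * ((PQ ⟨ρ, hρQ⟩).1 - (PQ a).1) + 0 * ((PQ ⟨ρ, hρQ⟩).2 - (PQ a).2) := by
          have := hρ a.1 (fun h => hne (Subtype.ext h))
          have e : (PQ ⟨ρ, hρQ⟩).1 = (P ρ).1 := rfl
          have e' : (PQ a).1 = (P a.1).1 := rfl
          rw [e, e']
          linarith
        obtain ⟨r, har, hr⟩ := gap W PQ hPQ T₀ hT₀ a ⟨ρ, hρQ⟩ 1 0 h1
        have hr' : (PQ a).1 < (PQ r).1 := by linarith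
        have hlt : ((Finset.univ : Finset W).filter fun x => (PQ r).1 < (PQ x).1).card <
            ((Finset.univ : Finset W).filter fun x => (PQ a).1 < (PQ x).1).card := by
          apply Finset.card_lt_card
          rw [Finset.ssubset_iff_of_subset]
          · exact ⟨r, by simp [hr'], by simp⟩
          · intro x hx
            simp only [Finset.mem_filter, Finset.mem_univ, true_and] at hx ⊢
            linarith
        obtain ⟨w, hw⟩ := ih r (by omega)
        exact ⟨SimpleGraph.Walk.cons har w, by simp only [SimpleGraph.Walk.length_cons]; omega⟩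
  have hwalk : ∀ a ∈ Q, ∃ w : E₁.Walk ρ a, w.length ≤ (es E).card + 2 := by
    intro a ha
    obtain ⟨w, hw⟩ := hwalk0 ((es E).card + 2) ⟨a, ha⟩ (by
      refine (Finset.card_filter_le _ _).trans ?_
      rw [Finset.card_univ]
      have : Fintype.card W = Q.card := Fintype.card_coe Q
      omega)
    let f : T₀ →g E₁ := ⟨fun x => (x : V), fun {x y} h => (hadj _ _).2 ⟨x, y, h, rfl, rfl⟩⟩
    exact ⟨(w.map f).reverse, by rw [SimpleGraph.Walk.length_reverse, SimpleGraph.Walk.length_map]; exact hw⟩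
  refine ⟨E₁, ?_, ?_, ?_, hwalk lam hlQ, ?_⟩
  · intro u v h
    rw [hadj]
    exact ⟨⟨u, hEQ u v h⟩, ⟨v, hEQ v u h.symm⟩, hET₀ h, rfl, rfl⟩
  · intro i j k l h1 h2
    obtain ⟨i', j', h1', rfl, rfl⟩ := (hadj _ _).1 h1
    obtain ⟨k', l', h2', rfl, rfl⟩ := (hadj _ _).1 h2
    exact hT₀.1 i' j' k' l' h1' h2'
  · have hsub : es E₁ ⊆ Q ×ˢ Q := by
      intro e he
      simp only [es, Finset.mem_filter, Finset.mem_univ, true_and] at he
      obtain ⟨u', v', -, h1, h2⟩ := (hadj _ _).1 he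
      rw [Finset.mem_product]
      exact ⟨h1 ▸ u'.2, h2 ▸ v'.2⟩
    refine (Finset.card_le_card hsub).trans ?_
    rw [Finset.card_product, ← sq]
    exact Nat.pow_le_pow_left hQcard 2
  · intro u v h
    obtain ⟨u', v', -, h1, h2⟩ := (hadj _ _).1 h
    exact hwalk u (h1 ▸ u'.2)

end Run7.h376.HT
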