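import Pool.Agent.Run7.h376.HT.GAP

/-!
# The pieces FACE and SEC
-/

set_option autoImplicit false

namespace Run7.h376.HT

open Run7.h397 Run7.h397.HT

/-- The first and the last point by angle of a finite set in an open half plane. -/
theorem first_last {V : Type} (P : V → Pt) (a : V) (α β : ℝ) (N : Finset V) (hN : N.Nonempty)
    (h : ∀ x ∈ N, 0 < α * ((P x).1 - (P a).1) + β * ((P x).2 - (P a).2)) :
    (∃ c ∈ N, ∀ r ∈ N, 0 ≤ orient (P a) (P c) (P r)) ∧
    (∃ c ∈ N, ∀ r ∈ N, orient (P a) (P c) (P r) ≤ 0) := by
  have hid : ∀ c r : V, (α ^ 2 + β ^ 2) * orient (P a) (P c) (P r) =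
      (β * ((P c).1 - (P a).1) - α * ((P c).2 - (P a).2)) *
        (α * ((P r).1 - (P a).1) + β * ((P r).2 - (P a).2)) -
      (β * ((P r).1 - (P a).1) - α * ((P r).2 - (P a).2)) *
        (α * ((P c).1 - (P a).1) + β * ((P c).2 - (P a).2)) := by
    intro c r
    unfold orient; ring
  have hpos : 0 < α ^ 2 + β ^ 2 := by
    obtain ⟨x, hx⟩ := hN
    have hx' := h x hx
    by_contra hc
    push Not at hc
    have h1 : α = 0 := by nlinarith [sq_nonneg α, sq_nonneg β]
    have h2 : β = 0 := by nlinarith [sq_nonneg α, sq_nonneg β]
    rw [h1, h2] at hx'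
    simp at hx'
  constructor
  · obtain ⟨c, hc, hmax⟩ := N.exists_max_image
      (fun x => (β * ((P x).1 - (P a).1) - α * ((P x).2 - (P a).2)) /
        (α * ((P x).1 - (P a).1) + β * ((P x).2 - (P a).2))) hN
    refine ⟨c, hc, fun r hr => ?_⟩
    have h1 := hmax r hr
    rw [div_le_div_iff₀ (h r hr) (h c hc)] at h1
    have h2 : 0 ≤ (α ^ 2 + β ^ 2) * orient (P a) (P c) (P r) := by
      rw [hid]; linarith
    exact nonneg_of_mul_nonneg_right h2 hpos
  · obtain ⟨c, hc, hmax⟩ := N.exists_min_image
      (fun x => (β * ((P x).1 - (P a).1) - α * ((P x).2 - (P a).2)) /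
        (α * ((P x).1 - (P a).1) + β * ((P x).2 - (P a).2))) hN
    refine ⟨c, hc, fun r hr => ?_⟩
    have h1 := hmax r hr
    rw [div_le_div_iff₀ (h c hc) (h r hr)] at h1
    have h2 : 0 ≤ (α ^ 2 + β ^ 2) * (- orient (P a) (P c) (P r)) := by
      have := hid c r
      linarith
    have := nonneg_of_mul_nonneg_right h2 hpos
    linarith

/-- `orient a b` as a functional. -/
theorem orient_fun (a b x : Pt) : orient a b x =
    (-(b.2 - a.2)) * (x.1 - a.1) + (b.1 - a.1) * (x.2 - a.2) := by
  unfold orient; ring

theorem orient_fun' (a b x : Pt) : - orient a b x =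
    (b.2 - a.2) * (x.1 - a.1) + (-(b.1 - a.1)) * (x.2 - a.2) := by
  unfold orient; ring

/-- GAP for a side of a line. -/
theorem gap_left {V : Type} [Fintype V] {P : V → Pt} (hP : GP P) {T : SimpleGraph V} (hT : IsTri P T)
    {a b p : V} (h : 0 < orient (P a) (P b) (P p)) : ∃ r, T.Adj a r ∧ 0 < orient (P a) (P b) (P r) := by
  rw [orient_fun] at h
  obtain ⟨r, h1, h2⟩ := gap V P hP T hT a p _ _ h
  exact ⟨r, h1, by rw [orient_fun]; exact h2⟩

theorem gap_right {V : Type} [Fintype V] {P : V → Pt} (hP : GP P) {T : SimpleGraph V} (hT : IsTri P T)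
    {a b p : V} (h : orient (P a) (P b) (P p) < 0) : ∃ r, T.Adj a r ∧ orient (P a) (P b) (P r) < 0 := by
  have h' : 0 < - orient (P a) (P b) (P p) := by linarith
  rw [orient_fun'] at h'
  obtain ⟨r, h1, h2⟩ := gap V P hP T hT a p _ _ h'
  rw [← orient_fun'] at h2
  exact ⟨r, h1, by linarith⟩

/-- A segment which crosses the side `x y` of a positive empty triangle `x y z`, crosses one of the other sides
or ends at `z`. -/
theorem exit' {V : Type} {P : V → Pt} (hP : GP P) {x y z u v : V} (hD : orient (P x) (P y) (P z) ≠ 0)
    (h : X P x y u v) (hu : ¬ InTri (P x) (P y) (P z) (P u)) (hv : ¬ InTri (P x) (P y) (P z) (P v)) :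
    u = z ∨ v = z ∨ X P y z u v ∨ X P z x u v := by
  by_cases huz : u = z
  · exact Or.inl huz
  by_cases hvz : v = z
  · exact Or.inr (Or.inl hvz)
  right; right
  have hyz : y ≠ z := by rintro rfl; simp at hD
  have hxz : x ≠ z := by rintro rfl; simp at hD
  have hux : u ≠ x := by rintro rfl; exact not_cr_left _ _ _ h
  have huy : u ≠ y := by rintro rfl; exact not_cr_right _ _ _ h
  have hvx : v ≠ x := by rintro rfl; exact not_cr_left' _ _ _ h
  have hvy : v ≠ y := by rintro rfl; exact not_cr_right' _ _ _ h
  have huv : u ≠ v := by
    rintro rfl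
    have := h.2
    simp at this
  have := tri_exit hD h hu hv (hP.col y z u hyz huy.symm (Ne.symm huz)) (hP.col z x u hxz.symm (Ne.symm huz) hux.symm)
    (hP.col y z v hyz hvy.symm (Ne.symm hvz)) (hP.col z x v hxz.symm (Ne.symm hvz) hvx.symm) (hP.col u v z huv huz hvz)
  rcases this with h1 | h1
  · exact Or.inl h1.1
  · exact Or.inr h1.1

/-- The first neighbour of `a` to the left of the edge `a b` forms an empty triangle. -/
theorem face_emp {V : Type} [Fintype V] {P : V → Pt} (hP : GP P) {T : SimpleGraph V} (hT : IsTri P T)
    {a b c : V} (hab : T.Adj a b) (hac : T.Adj a c) (hc : 0 < orient (P a) (P b) (P c))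
    (hfst : ∀ r, T.Adj a r → 0 < orient (P a) (P b) (P r) → 0 ≤ orient (P a) (P c) (P r)) :
    Emp P a b c := by
  classical
  intro x₀ hx₀
  set S : Finset V := Finset.univ.filter fun x => x = c ∨ InTri (P a) (P b) (P c) (P x) with hS
  have hSneg : ∀ x ∈ S, 0 < - orient (P b) (P a) (P x) := by
    intro x hx
    simp only [hS, Finset.mem_filter, Finset.mem_univ, true_and] at hx
    rw [orient_swap]
    rcases hx with rfl | hx
    · linarith
    · have := ((inTri_pos hc).1 hx).1
      linarith
  have hcS : c ∈ S := by simp [hS]
  obtain ⟨-, h, hhS, hh⟩ := first_last P b _ _ S ⟨c, hcS⟩ (fun x hx => by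
    rw [← orient_fun']
    exact hSneg x hx)
  have hx₀S : x₀ ∈ S := by simp [hS, hx₀]
  obtain ⟨i1, i2, i3⟩ := (inTri_pos hc).1 hx₀
  have hhc : h ≠ c := by
    rintro rfl
    have := hh x₀ hx₀S
    linarith
  have hhin : InTri (P a) (P b) (P c) (P h) := by
    simp only [hS, Finset.mem_filter, Finset.mem_univ, true_and] at hhS
    exact hhS.resolve_left hhc
  obtain ⟨j1, j2, j3⟩ := (inTri_pos hc).1 hhin
  have hach : orient (P a) (P c) (P h) < 0 := by rw [orient_swap]; linarith
  have hnadj : ¬ T.Adj a h := by
    intro hadj
    have := hfst h hadj j1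
    linarith
  have hah : a ≠ h := by rintro rfl; simp at j1
  have hbh : b ≠ h := by rintro rfl; simp at j1
  have hbc : b ≠ c := by rintro rfl; simp at hc
  have hac' : a ≠ c := by rintro rfl; simp at hc
  -- an edge crossing `a h`
  have hex : ∃ u v, T.Adj u v ∧ X P a h u v := by
    by_contra hcon
    push Not at hcon
    exact hnadj (hT.2 a h hah fun k l hkl hX => hcon k l hkl hX)
  have key : ∀ u v, T.Adj u v → orient (P a) (P h) (P u) < 0 → 0 < orient (P a) (P h) (P v) →
      X P a h u v → False := by
    intro u v huv hu hv hX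
    obtain ⟨hGa, hGh⟩ := cr_pos hu hv hX.2
    have hDpos : 0 < orient (P a) (P b) (P h) := j1
    -- the triangle `a b h` is empty
    have hemp : ∀ x, ¬ InTri (P a) (P b) (P h) (P x) := by
      intro x hx
      obtain ⟨e1, e2, e3⟩ := (inTri_pos hDpos).1 hx
      have hxS : x ∈ S := by
        simp only [hS, Finset.mem_filter, Finset.mem_univ, true_and]
        right
        rw [inTri_pos hc]
        refine ⟨e1, ?_, ?_⟩
        · -- orient b c x > 0
          have id1 : orient (P a) (P b) (P h) * orient (P b) (P c) (P x) =
            orient (P a) (P b) (P x) * orient (P b) (P c) (P h) +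
            orient (P b) (P h) (P x) * orient (P b) (P c) (P a) := by
            unfold orient; ring
          have : 0 < orient (P a) (P b) (P h) * orient (P b) (P c) (P x) := by
            rw [id1, orient_cyc (P a) (P b) (P c)]
            exact add_pos (mul_pos e1 j2) (mul_pos e2 hc)
          exact (pos_iff_pos_of_mul_pos this).1 hDpos
        · have id1 : orient (P a) (P b) (P h) * orient (P c) (P a) (P x) =
            orient (P a) (P b) (P x) * orient (P c) (P a) (P h) +
            orient (P h) (P a) (P x) * orient (P a) (P b) (P c) := by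
            unfold orient; ring
          have : 0 < orient (P a) (P b) (P h) * orient (P c) (P a) (P x) := by
            rw [id1]
            exact add_pos (mul_pos e1 j3) (mul_pos e3 hc)
          exact (pos_iff_pos_of_mul_pos this).1 hDpos
      have := hh x hxS
      linarith
    -- exit of the edge through `b h`
    have hex := exit' hP (x := h) (y := a) (z := b) (u := u) (v := v)
      (by rw [orient_cyc']; exact hDpos.ne') ((cr_swap1 _ _ _ _).1 hX)
      (by rw [inTri_cyc_iff]; exact hemp u) (by rw [inTri_cyc_iff]; exact hemp v)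
    have hbneg : orient (P a) (P h) (P b) < 0 := by rw [orient_swap']; linarith
    have hvb : v ≠ b := by rintro rfl; linarith
    have hfa : 0 < orient (P b) (P h) (P a) := by rw [orient_cyc]; exact hDpos
    have hfc : orient (P b) (P h) (P c) < 0 := by
      rw [orient_swap']; linarith
    -- `f v > 0` and `G b ≥ 0`
    have hfG : 0 < orient (P b) (P h) (P v) ∧ 0 ≤ orient (P u) (P v) (P b) := by
      have k := kid (P a) (P h) (P u) (P v) (P b) (P h)
      simp only [orient_self3, mul_zero, zero_sub] at k
      rcases hex with e | e | e | e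
      · -- `u = b`
        subst e
        constructor
        · have : 0 < (- orient (P a) (P h) (P u)) * orient (P u) (P h) (P v) := by
            have e1 := mul_pos (neg_pos.2 hGh) hfa
            simp only [orient_self2, mul_zero, zero_sub] at k
            linarith
          exact (pos_iff_pos_of_mul_pos this).1 (by linarith)
        · simp
      · exact absurd e hvb
      · exact absurd e (hT.1 a b u v hab huv)
      · -- crosses `b h`
        obtain ⟨e1, e2⟩ := e
        have hGb : 0 < orient (P u) (P v) (P b) := by
          by_contra hcon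
          push Not at hcon
          have := mul_nonneg_of_nonpos_of_nonpos hcon hGh.le
          linarith
        refine ⟨?_, hGb.le⟩
        by_contra hcon
        push Not at hcon
        have hfu : 0 < orient (P b) (P h) (P u) := by
          by_contra hcon2
          push Not at hcon2
          have := mul_nonneg_of_nonpos_of_nonpos hcon2 hcon
          linarith
        -- then `f u > 0 ≥ f v`: the order on the line is wrong
        have k2 := kid (P b) (P h) (P v) (P u) (P a) (P h)
        have hG1 : orient (P v) (P u) (P b) = - orient (P u) (P v) (P b) := orient_swap _ _ _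
        have hG2 : orient (P v) (P u) (P h) = - orient (P u) (P v) (P h) := orient_swap _ _ _
        have hd := dif (P b) (P h) (P v) (P u)
        rw [hG1, hG2] at hd
        linarith
    obtain ⟨hfv, hGb⟩ := hfG
    -- `G c < 0`
    have hGc : orient (P u) (P v) (P c) < 0 := by
      have id1 : orient (P a) (P b) (P c) * orient (P u) (P v) (P h) =
        orient (P b) (P c) (P h) * orient (P u) (P v) (P a) +
        orient (P c) (P a) (P h) * orient (P u) (P v) (P b) +
        orient (P a) (P b) (P h) * orient (P u) (P v) (P c) := by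
        unfold orient; ring
      by_contra hcon
      push Not at hcon
      have e1 := mul_pos j2 hGa
      have e2 := mul_nonneg j3.le hGb
      have e3 := mul_nonneg j1.le hcon
      have e4 := mul_pos hc (neg_pos.2 hGh)
      linarith
    -- `v` is beyond `a c`
    have hacv : 0 < orient (P a) (P c) (P v) := by
      by_contra hcon
      push Not at hcon
      rcases hcon.lt_or_eq with hneg | hz
      · -- `v` is inside
        have id1 : orient (P a) (P h) (P c) * orient (P b) (P h) (P v) =
            orient (P h) (P c) (P v) * orient (P b) (P h) (P a) +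
            orient (P a) (P h) (P v) * orient (P b) (P h) (P c) := by
          unfold orient; ring
        have hahc : 0 < orient (P a) (P h) (P c) := by rw [orient_swap']; linarith
        have e1 : 0 < orient (P h) (P c) (P v) * orient (P b) (P h) (P a) := by
          have f1 := mul_pos hahc hfv
          have f2 := mul_pos hv (neg_pos.2 hfc)
          linarith
        have e2 : 0 < orient (P h) (P c) (P v) := (pos_iff_pos_of_mul_pos e1).2 hfa
        have e3 : 0 < orient (P c) (P a) (P v) := by rw [orient_swap]; linarith
        have hvS : v ∈ S := by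
          simp only [hS, Finset.mem_filter, Finset.mem_univ, true_and]
          right
          rw [inTri_pos hc]
          refine ⟨?_, ?_, e3⟩
          · have id2 : orient (P a) (P h) (P c) * orient (P a) (P b) (P v) =
              orient (P c) (P a) (P v) * orient (P a) (P b) (P h) +
              orient (P a) (P h) (P v) * orient (P a) (P b) (P c) := by
              unfold orient; ring
            have : 0 < orient (P a) (P h) (P c) * orient (P a) (P b) (P v) := by
              rw [id2]
              exact add_pos (mul_pos e3 j1) (mul_pos hv hc)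
            exact (pos_iff_pos_of_mul_pos this).1 hahc
          · have id2 : orient (P a) (P h) (P c) * orient (P b) (P c) (P v) =
              orient (P h) (P c) (P v) * orient (P a) (P b) (P c) +
              orient (P c) (P a) (P v) * orient (P b) (P c) (P h) := by
              unfold orient; ring
            have : 0 < orient (P a) (P h) (P c) * orient (P b) (P c) (P v) := by
              rw [id2]
              exact add_pos (mul_pos e2 hc) (mul_pos e3 j2)
            exact (pos_iff_pos_of_mul_pos this).1 hahc
        have := hh v hvS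
        linarith
      · have hva : v ≠ a := by rintro rfl; simp at hv
        have hvc : v ≠ c := by rintro rfl; simp at hGc
        exact hP.col a c v hac' hva.symm hvc.symm hz
    -- the edge crosses `a c`
    have hacu : orient (P a) (P c) (P u) < 0 := by
      have k := kid (P a) (P h) (P u) (P v) (P a) (P c)
      simp only [orient_self2, mul_zero, sub_zero] at k
      by_contra hcon
      push Not at hcon
      have e1 := mul_nonneg hv.le hcon
      have e2 := mul_pos (neg_pos.2 hu) hacv
      have e3 := mul_pos hGa (neg_pos.2 hach)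
      linarith
    exact hT.1 a c u v hac huv ⟨mul_neg_of_neg_of_pos hacu hacv, mul_neg_of_pos_of_neg hGa hGc⟩
  obtain ⟨u, v, huv, hX⟩ := hex
  rcases lt_trichotomy (orient (P a) (P h) (P u)) 0 with hu | hu | hu
  · have hv : 0 < orient (P a) (P h) (P v) := by
      by_contra hcon
      push Not at hcon
      have := mul_nonneg_of_nonpos_of_nonpos hu.le hcon
      linarith [hX.1]
    exact key u v huv hu hv hX
  · have := hX.1
    rw [hu, zero_mul] at this
    exact absurd this (lt_irrefl _)
  · have hv : orient (P a) (P h) (P v) < 0 := by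
      by_contra hcon
      push Not at hcon
      have := mul_nonneg hu.le hcon
      linarith [hX.1]
    exact key v u huv.symm hv hu ((cr_swap2 _ _ _ _).1 hX)

/-- **FACE**. -/
theorem face : S_FACE := by
  classical
  intro V _ P hP T hT a b p hab hp
  obtain ⟨r₀, hr₀, hr₀'⟩ := gap_left hP hT hp
  set N : Finset V := Finset.univ.filter fun x => T.Adj a x ∧ 0 < orient (P a) (P b) (P x) with hN
  obtain ⟨⟨c, hcN, hc⟩, -⟩ := first_last P a _ _ N ⟨r₀, by simp [hN, hr₀, hr₀']⟩ (fun x hx => by
    rw [← orient_fun]
    exact (Finset.mem_filter.1 hx).2.2)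
  simp only [hN, Finset.mem_filter, Finset.mem_univ, true_and] at hcN hc
  obtain ⟨hac, hpos⟩ := hcN
  have hemp := face_emp hP hT hab hac hpos (fun r h1 h2 => hc r ⟨h1, h2⟩)
  refine ⟨c, hpos, hab, hac, ?_, hemp⟩
  have hbc : b ≠ c := by rintro rfl; simp at hpos
  apply hT.2 b c hbc
  intro u v huv hX
  have hD : orient (P b) (P c) (P a) ≠ 0 := by rw [orient_cyc]; exact hpos.ne'
  have hbeyond : ∀ r, T.Adj a r → X P b c a r → False := by
    intro r hr hXr
    have h1 : 0 < orient (P b) (P c) (P a) := by rw [orient_cyc]; exact hpos
    have h2 : orient (P b) (P c) (P r) < 0 := by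
      by_contra hcon
      push Not at hcon
      have := mul_nonneg h1.le hcon
      linarith [hXr.1]
    obtain ⟨e1, e2⟩ := cr_pos h2 h1 ((cr_swap2 _ _ _ _).1 hXr).2
    rw [orient_cyc'] at e1 e2
    have := hc r ⟨hr, e1⟩
    linarith
  rcases exit' hP hD hX (by rw [inTri_cyc_iff, inTri_cyc_iff]; exact hemp u)
    (by rw [inTri_cyc_iff, inTri_cyc_iff]; exact hemp v) with e | e | e | e
  · subst e
    exact hbeyond v huv hX
  · subst e
    exact hbeyond u huv.symm ((cr_swap2 _ _ _ _).1 hX)
  · exact hT.1 c a u v hac.symm huv e
  · exact hT.1 a b u v hab huv e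

end Run7.h376.HT
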