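import Pool.Agent.Run7.h397.HT.Iface

/-!
# The piece GAP: a vertex of a triangulation has a neighbour in every half plane which contains points
-/

set_option autoImplicit false

namespace Run7.h376.HT

open Run7.h397 Run7.h397.HT

/-- The affine dependence of four points, evaluated at an affine functional. -/
theorem kid (a v x y k l : Pt) : orient a v y * orient k l x - orient a v x * orient k l y =
    orient x y a * orient k l v - orient x y v * orient k l a := by
  unfold orient; ring

theorem kid' (a v x y z l : Pt) : orient a v y * orient z x l - orient a v x * orient z y l =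
    orient x y a * orient z v l - orient x y v * orient z a l := by
  unfold orient; ring

theorem dif (a v x y : Pt) : orient x y a - orient x y v = orient a v y - orient a v x := by
  unfold orient; ring

/-- The sign of the second functional. -/
theorem cr_pos {a v x y : Pt} (hx : orient a v x < 0) (hy : 0 < orient a v y)
    (h : orient x y a * orient x y v < 0) : 0 < orient x y a ∧ orient x y v < 0 := by
  have hd := dif a v x y
  constructor
  · by_contra hc
    push Not at hc
    have : 0 ≤ orient x y a * orient x y v := mul_nonneg_of_nonpos_of_nonpos hc (by linarith)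
    linarith
  · by_contra hc
    push Not at hc
    have : 0 ≤ orient x y a * orient x y v := mul_nonneg (by linarith) hc
    linarith

/-- The case `x` above the line `a p`. -/
theorem gap_core1 {a p u w v x y : Pt}
    (h1 : 0 < orient a p w) (h2 : orient a p u < 0) (h3 : 0 < orient u w a)
    (hv1 : 0 < orient a p v) (hv2 : 0 ≤ orient a v w) (hv3 : 0 ≤ orient u w v)
    (hx : orient a v x < 0) (hy : 0 < orient a v y) (hEa : 0 < orient x y a) (hEv : orient x y v < 0)
    (hpx : 0 ≤ orient a p x) (hDx : orient u w x < 0) : Cr u w x y := by
  -- the functionals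
  have k1 := kid a v x y u w
  have k2 := kid a v x y a p
  have k3 := kid' a v x y a w
  have k4 := kid' u w x y a w
  have k5 := kid u w x y a p
  have k6 : orient a p v * orient a x w = orient a x v * orient a p w + orient a p x * orient a v w := by
    unfold orient; ring
  have k7 : orient a x v = - orient a v x := by unfold orient; ring
  have k8 : orient a u w = orient u w a := by unfold orient; ring
  have z1 : orient a w w = 0 := by unfold orient; ring
  have z2 : orient a a w = 0 := by unfold orient; ring
  have z3 : orient a p a = 0 := by unfold orient; ring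
  rw [z1] at k4
  rw [z2] at k3
  rw [z3] at k2
  rw [k8] at k4
  rw [k7] at k6
  -- `W x w > 0`
  have hxw : 0 < orient a x w := by
    have : 0 < orient a p v * orient a x w := by
      rw [k6]
      have e1 := mul_pos (neg_pos.2 hx) h1
      have e2 := mul_nonneg hpx hv2
      linarith
    exact (pos_iff_pos_of_mul_pos this).1 hv1
  have hB : 0 < orient a v y * orient u w x - orient a v x * orient u w y := by
    rw [k1]
    have e1 := mul_nonneg hEa.le hv3
    have e2 := mul_pos (neg_pos.2 hEv) h3
    linarith
  have hDy : 0 < orient u w y := by
    by_contra hc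
    push Not at hc
    have e1 := mul_neg_of_pos_of_neg hy hDx
    have e2 := mul_nonneg (neg_nonneg.2 hx.le) (neg_nonneg.2 hc)
    linarith
  -- (i)
  have hi : 0 < orient u w y * orient a x w - orient u w x * orient a y w := by
    have e1 : 0 ≤ orient a v y * orient a x w - orient a v x * orient a y w := by
      rw [k3]
      have := mul_nonneg hEa.le hv2
      linarith
    have e2 := mul_pos hxw hB
    have e3 := mul_nonneg (neg_nonneg.2 hDx.le) e1
    have e4 : 0 < (- orient a v x) * (orient u w y * orient a x w - orient u w x * orient a y w) := by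
      have : (- orient a v x) * (orient u w y * orient a x w - orient u w x * orient a y w) =
        orient a x w * (orient a v y * orient u w x - orient a v x * orient u w y) +
        (- orient u w x) * (orient a v y * orient a x w - orient a v x * orient a y w) := by ring
      rw [this]
      linarith
    exact (pos_iff_pos_of_mul_pos e4).1 (by linarith)
  have hEw : orient x y w < 0 := by
    rw [k4] at hi
    have : 0 < (- orient x y w) * orient u w a := by linarith
    have := (pos_iff_pos_of_mul_pos this).2 h3
    linarith
  -- (ii)
  have hii : 0 ≤ orient u w y * orient a p x - orient u w x * orient a p y := by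
    have e1 : 0 < orient a v y * orient a p x - orient a v x * orient a p y := by
      rw [k2]
      have := mul_pos hEa hv1
      linarith
    have e2 := mul_nonneg hpx hB.le
    have e3 := mul_pos (neg_pos.2 hDx) e1
    have e4 : 0 < (- orient a v x) * (orient u w y * orient a p x - orient u w x * orient a p y) := by
      have : (- orient a v x) * (orient u w y * orient a p x - orient u w x * orient a p y) =
        orient a p x * (orient a v y * orient u w x - orient a v x * orient u w y) +
        (- orient u w x) * (orient a v y * orient a p x - orient a v x * orient a p y) := by ring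
      rw [this]
      linarith
    exact ((pos_iff_pos_of_mul_pos e4).1 (by linarith)).le
  have hEu : 0 < orient x y u := by
    rw [k5] at hii
    have e1 := mul_pos_of_neg_of_neg hEw h2
    have : 0 < orient x y u * orient a p w := by linarith
    exact (pos_iff_pos_of_mul_pos this).2 h1
  exact ⟨by rw [mul_comm]; exact mul_neg_of_pos_of_neg hDy hDx, mul_neg_of_pos_of_neg hEu hEw⟩

/-- The case `x` below the line `a p`. -/
theorem gap_core2 {a p u w v x y : Pt}
    (h1 : 0 < orient a p w) (h2 : orient a p u < 0) (h3 : 0 < orient u w a) (h4 : orient u w p < 0)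
    (hv1 : 0 < orient a p v) (hv2 : 0 ≤ orient a v w) (hv3 : 0 ≤ orient u w v)
    (hx : orient a v x < 0) (hy : 0 < orient a v y) (hEa : 0 < orient x y a) (hEv : orient x y v < 0)
    (hpx : orient a p x < 0)
    (hmin : Cr a p x y → 0 ≤ orient u w a * orient x y p - orient u w p * orient x y a) :
    Cr u w x y := by
  have k1 := kid a v x y u w
  have k2 := kid a v x y a p
  have k3 := kid' a v x y a w
  have k4 := kid' u w x y a w
  have k5 := kid a p u w x y
  have k6 := kid a p x y u w
  have k7 := kid' a p x y a w
  have k8 : orient a u w = orient u w a := by unfold orient; ring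
  have z1 : orient a w w = 0 := by unfold orient; ring
  have z2 : orient a a w = 0 := by unfold orient; ring
  have z3 : orient a p a = 0 := by unfold orient; ring
  rw [z1] at k4
  rw [z2] at k3 k7
  rw [z3] at k2
  rw [k8] at k4
  have hB : 0 < orient a v y * orient u w x - orient a v x * orient u w y := by
    rw [k1]
    have e1 := mul_nonneg hEa.le hv3
    have e2 := mul_pos (neg_pos.2 hEv) h3
    linarith
  have hΔ : 0 < orient a v y * orient a p x - orient a v x * orient a p y := by
    rw [k2]
    have := mul_pos hEa hv1
    linarith
  have hpy : 0 < orient a p y := by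
    by_contra hc
    push Not at hc
    have e1 := mul_neg_of_pos_of_neg hy hpx
    have e2 := mul_nonneg (neg_nonneg.2 hx.le) (neg_nonneg.2 hc)
    linarith
  have hG : 0 ≤ orient u w a * orient x y p - orient u w p * orient x y a := by
    rcases lt_or_ge (orient x y p) 0 with h | h
    · exact hmin ⟨mul_neg_of_neg_of_pos hpx hpy, mul_neg_of_pos_of_neg hEa h⟩
    · have e1 := mul_nonneg h3.le h
      have e2 := mul_pos (neg_pos.2 h4) hEa
      linarith
  have hDy : 0 < orient u w y := by
    by_contra hc
    push Not at hc
    have e0 : 0 < orient u w x := by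
      by_contra hc'
      push Not at hc'
      have e1 := mul_nonneg hy.le (neg_nonneg.2 hc')
      have e2 := mul_nonneg (neg_nonneg.2 hx.le) (neg_nonneg.2 hc)
      linarith
    have e1 : orient a p y * orient u w x - orient a p x * orient u w y ≤ 0 := by
      rw [k6]; linarith
    have e2 := mul_pos e0 hΔ
    have e3 := mul_nonneg (neg_nonneg.2 hx.le) (sub_nonneg.2 e1)
    have e4 := mul_pos (neg_pos.2 hpx) hB
    nlinarith
  have hDx : orient u w x < 0 := by
    by_contra hc
    push Not at hc
    have e1 : orient a p y * orient u w x - orient a p x * orient u w y ≤ 0 := by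
      rw [k6]; linarith
    have e2 := mul_nonneg hpy.le hc
    have e3 := mul_pos (neg_pos.2 hpx) hDy
    linarith
  have hEw : orient x y w < 0 := by
    have e1 : 0 ≤ orient a v y * orient a x w - orient a v x * orient a y w := by
      rw [k3]
      have := mul_nonneg hEa.le hv2
      linarith
    have e2 : 0 < orient a p y * orient a x w - orient a p x * orient a y w := by
      rw [k7]
      have := mul_pos hEa h1
      linarith
    have e3 : orient u w a * orient x y p - orient u w p * orient x y a =
      -(orient a p y * orient u w x - orient a p x * orient u w y) := by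
      rw [k6]; ring
    have e4 : 0 < (orient a v y * orient a p x - orient a v x * orient a p y) *
      (orient u w y * orient a x w - orient u w x * orient a y w) := by
      have : (orient a v y * orient a p x - orient a v x * orient a p y) *
        (orient u w y * orient a x w - orient u w x * orient a y w) =
        (-(orient a p y * orient u w x - orient a p x * orient u w y)) *
          (orient a v y * orient a x w - orient a v x * orient a y w) +
        (orient a v y * orient u w x - orient a v x * orient u w y) *
          (orient a p y * orient a x w - orient a p x * orient a y w) := by ring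
      rw [this, ← e3]
      have f1 := mul_nonneg hG e1
      have f2 := mul_pos hB e2
      linarith
    have e5 := (pos_iff_pos_of_mul_pos e4).1 hΔ
    rw [k4] at e5
    have : 0 < (- orient x y w) * orient u w a := by linarith
    have := (pos_iff_pos_of_mul_pos this).2 h3
    linarith
  have hEu : 0 < orient x y u := by
    have e1 : 0 ≤ orient a p w * orient x y u - orient a p u * orient x y w := by
      rw [k5]; exact hG
    have e2 := mul_pos_of_neg_of_neg h2 hEw
    have : 0 < orient a p w * orient x y u := by linarith
    exact (pos_iff_pos_of_mul_pos this).1 h1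
  exact ⟨by rw [mul_comm]; exact mul_neg_of_pos_of_neg hDy hDx, mul_neg_of_pos_of_neg hEu hEw⟩


/-- The main case: the closest crossing edge `u w` ends at `w`, on the left of `a p` and in the half plane. -/
theorem gap_main {V : Type} [Fintype V] {P : V → Pt} (hP : GP P) {T : SimpleGraph V} (hT : IsTri P T)
    {a p u w : V} {α β : ℝ} (hlp : 0 < α * ((P p).1 - (P a).1) + β * ((P p).2 - (P a).2))
    (hlw : 0 < α * ((P w).1 - (P a).1) + β * ((P w).2 - (P a).2)) (hadj : T.Adj u w)
    (hX : X P a p u w) (hs : 0 < orient (P a) (P p) (P w))
    (hmin : ∀ x y, T.Adj x y → X P a p x y →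
      0 < orient (P u) (P w) (P a) * orient (P x) (P y) (P a) →
      0 ≤ orient (P u) (P w) (P a) * orient (P x) (P y) (P p) -
        orient (P u) (P w) (P p) * orient (P x) (P y) (P a)) :
    ∃ r, T.Adj a r ∧ 0 < α * ((P r).1 - (P a).1) + β * ((P r).2 - (P a).2) := by
  classical
  have h2 : orient (P a) (P p) (P u) < 0 := by
    by_contra hc
    push Not at hc
    have := mul_nonneg hc hs.le
    linarith [hX.1]
  obtain ⟨h3, h4⟩ := cr_pos h2 hs hX.2
  set S : Finset V := Finset.univ.filter fun x => x = w ∨ (0 < orient (P a) (P p) (P x) ∧
    0 < orient (P a) (P x) (P w) ∧ 0 < orient (P u) (P w) (P x)) with hSdef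
  have hwS : w ∈ S := by simp [hSdef]
  obtain ⟨v, hvS, hvmax⟩ := S.exists_max_image
    (fun x => orient (P a) (P x) (P w) / orient (P a) (P p) (P x)) ⟨w, hwS⟩
  have hSp : ∀ x ∈ S, 0 < orient (P a) (P p) (P x) ∧ 0 ≤ orient (P a) (P x) (P w) ∧
      0 ≤ orient (P u) (P w) (P x) := by
    intro x hx
    simp only [hSdef, Finset.mem_filter, Finset.mem_univ, true_and] at hx
    rcases hx with rfl | ⟨e1, e2, e3⟩
    · exact ⟨hs, by simp [orient_self3], by simp [orient_self3]⟩
    · exact ⟨e1, e2.le, e3.le⟩
  obtain ⟨hv1, hv2, hv3⟩ := hSp v hvS
  have hvx : ∀ x ∈ S, 0 ≤ orient (P a) (P v) (P x) := by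
    intro x hx
    have e1 := hvmax x hx
    obtain ⟨f1, f2, f3⟩ := hSp x hx
    rw [div_le_div_iff₀ f1 hv1] at e1
    have e2 : orient (P a) (P p) (P w) * orient (P a) (P v) (P x) =
      orient (P a) (P p) (P x) * orient (P a) (P v) (P w) -
        orient (P a) (P p) (P v) * orient (P a) (P x) (P w) := by
      unfold orient; ring
    have e3 : 0 ≤ orient (P a) (P p) (P w) * orient (P a) (P v) (P x) := by
      rw [e2]; nlinarith
    exact nonneg_of_mul_nonneg_right e3 hs
  have hav : a ≠ v := by
    rintro rfl
    simp at hv1
  refine ⟨v, ?_, ?_⟩
  · apply hT.2 a v hav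
    have key : ∀ x y, T.Adj x y → orient (P a) (P v) (P x) < 0 → 0 < orient (P a) (P v) (P y) →
        orient (P x) (P y) (P a) * orient (P x) (P y) (P v) < 0 → False := by
      intro x y hxy hx hy hE
      obtain ⟨hEa, hEv⟩ := cr_pos hx hy hE
      rcases lt_or_ge (orient (P a) (P p) (P x)) 0 with hpx | hpx
      · have := gap_core2 hs h2 h3 h4 hv1 hv2 hv3 hx hy hEa hEv hpx
          (fun hc => hmin x y hxy hc (mul_pos h3 hEa))
        exact hT.1 u w x y hadj hxy this
      · have hDx : orient (P u) (P w) (P x) < 0 := by
          by_contra hc
          push Not at hc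
          have hxw : x ≠ w := by
            rintro rfl
            linarith [hvx x hwS]
          have hxu : x ≠ u := by
            rintro rfl
            linarith
          have hD0 := hP.col u w x hadj.ne hxu.symm hxw.symm
          have hD : 0 < orient (P u) (P w) (P x) := lt_of_le_of_ne hc hD0.symm
          have hxa : x ≠ a := by
            rintro rfl
            simp at hx
          have hxp : x ≠ p := by
            rintro rfl
            linarith
          have hap : a ≠ p := by
            rintro rfl
            simp at hv1
          have hp0 := hP.col a p x hap hxa.symm hxp.symm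
          have hp1 : 0 < orient (P a) (P p) (P x) := lt_of_le_of_ne hpx hp0.symm
          have k6 : orient (P a) (P p) (P v) * orient (P a) (P x) (P w) =
            - orient (P a) (P v) (P x) * orient (P a) (P p) (P w) +
              orient (P a) (P p) (P x) * orient (P a) (P v) (P w) := by
            unfold orient; ring
          have k7 : 0 < orient (P a) (P p) (P v) * orient (P a) (P x) (P w) := by
            rw [k6]
            have e1 := mul_pos (neg_pos.2 hx) hs
            have e2 := mul_nonneg hp1.le hv2
            linarith
          have k8 := (pos_iff_pos_of_mul_pos k7).1 hv1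
          have : x ∈ S := by
            simp only [hSdef, Finset.mem_filter, Finset.mem_univ, true_and]
            exact Or.inr ⟨hp1, k8, hD⟩
          linarith [hvx x this]
        exact hT.1 u w x y hadj hxy
          (gap_core1 hs h2 h3 hv1 hv2 hv3 hx hy hEa hEv hpx hDx)
    intro x y hxy hXv
    obtain ⟨g1, g2⟩ := hXv
    rcases lt_trichotomy (orient (P a) (P v) (P x)) 0 with h | h | h
    · have hy : 0 < orient (P a) (P v) (P y) := by
        by_contra hc
        push Not at hc
        have := mul_nonneg_of_nonpos_of_nonpos h.le hc
        linarith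
      exact key x y hxy h hy g2
    · rw [h, zero_mul] at g1
      exact absurd g1 (lt_irrefl _)
    · have hy : orient (P a) (P v) (P y) < 0 := by
        by_contra hc
        push Not at hc
        have := mul_nonneg h.le hc
        linarith
      refine key y x hxy.symm hy h ?_
      rw [orient_swap (P x) (P y), orient_swap (P x) (P y)]
      linarith [neg_mul_neg (orient (P x) (P y) (P a)) (orient (P x) (P y) (P v))]
  · have e1 : orient (P a) (P p) (P w) * (α * ((P v).1 - (P a).1) + β * ((P v).2 - (P a).2)) =
      orient (P a) (P v) (P w) * (α * ((P p).1 - (P a).1) + β * ((P p).2 - (P a).2)) +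
      orient (P a) (P p) (P v) * (α * ((P w).1 - (P a).1) + β * ((P w).2 - (P a).2)) := by
      unfold orient; ring
    have e2 : 0 < orient (P a) (P p) (P w) *
        (α * ((P v).1 - (P a).1) + β * ((P v).2 - (P a).2)) := by
      rw [e1]
      have f1 := mul_nonneg hv2 hlp.le
      have f2 := mul_pos hv1 hlw
      linarith
    exact (pos_iff_pos_of_mul_pos e2).1 hs

/-- The reflected configuration. -/
def refl {V : Type} (P : V → Pt) (v : V) : Pt := (-(P v).1, (P v).2)

theorem orient_refl {V : Type} (P : V → Pt) (a b c : V) :
    orient (refl P a) (refl P b) (refl P c) = - orient (P a) (P b) (P c) := by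
  unfold orient refl; ring

theorem X_refl {V : Type} (P : V → Pt) (a b c d : V) : X (refl P) a b c d ↔ X P a b c d := by
  unfold X Cr
  simp only [orient_refl, neg_mul_neg]

theorem gp_refl {V : Type} {P : V → Pt} (hP : GP P) : GP (refl P) := by
  constructor
  · intro i j h
    apply hP.inj
    simp only [refl, Prod.mk.injEq, neg_inj] at h
    exact Prod.ext h.1 h.2
  · intro i j k h1 h2 h3
    rw [orient_refl]
    exact neg_ne_zero.2 (hP.col i j k h1 h2 h3)

theorem tri_refl {V : Type} {P : V → Pt} {T : SimpleGraph V} (hT : IsTri P T) : IsTri (refl P) T := by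
  constructor
  · intro i j k l h1 h2 h3
    exact hT.1 i j k l h1 h2 ((X_refl P i j k l).1 h3)
  · intro i j h1 h2
    exact hT.2 i j h1 fun k l hk hX => h2 k l hk ((X_refl P i j k l).2 hX)

/-- Both sides. -/
theorem gap_both {V : Type} [Fintype V] {P : V → Pt} (hP : GP P) {T : SimpleGraph V} (hT : IsTri P T)
    {a p u w : V} {α β : ℝ} (hlp : 0 < α * ((P p).1 - (P a).1) + β * ((P p).2 - (P a).2))
    (hlw : 0 < α * ((P w).1 - (P a).1) + β * ((P w).2 - (P a).2)) (hadj : T.Adj u w)
    (hX : X P a p u w)
    (hmin : ∀ x y, T.Adj x y → X P a p x y →
      orient (P u) (P w) (P a) / (orient (P u) (P w) (P a) - orient (P u) (P w) (P p)) ≤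
      orient (P x) (P y) (P a) / (orient (P x) (P y) (P a) - orient (P x) (P y) (P p))) :
    ∃ r, T.Adj a r ∧ 0 < α * ((P r).1 - (P a).1) + β * ((P r).2 - (P a).2) := by
  have hmin2 : ∀ x y, T.Adj x y → X P a p x y →
      0 < orient (P u) (P w) (P a) * orient (P x) (P y) (P a) →
      0 ≤ orient (P u) (P w) (P a) * orient (P x) (P y) (P p) -
        orient (P u) (P w) (P p) * orient (P x) (P y) (P a) := by
    intro x y hxy hXy hpos
    have hm := hmin x y hxy hXy
    have g1 := hX.2
    have g2 := hXy.2
    rcases lt_trichotomy (orient (P u) (P w) (P a)) 0 with h | h | h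
    · have h' : 0 < orient (P u) (P w) (P p) := by
        by_contra hc
        push Not at hc
        have := mul_nonneg_of_nonpos_of_nonpos h.le hc
        linarith
      have h1 : orient (P x) (P y) (P a) < 0 := by
        by_contra hc
        push Not at hc
        have := mul_nonneg (neg_nonneg.2 h.le) hc
        linarith
      have h1' : 0 < orient (P x) (P y) (P p) := by
        by_contra hc
        push Not at hc
        have := mul_nonneg_of_nonpos_of_nonpos h1.le hc
        linarith
      rw [← neg_div_neg_eq, ← neg_div_neg_eq (orient (P x) (P y) (P a)),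
        div_le_div_iff₀ (by linarith) (by linarith)] at hm
      nlinarith
    · rw [h, zero_mul] at g1
      exact absurd g1 (lt_irrefl _)
    · have h' : orient (P u) (P w) (P p) < 0 := by
        by_contra hc
        push Not at hc
        have := mul_nonneg h.le hc
        linarith
      have h1 : 0 < orient (P x) (P y) (P a) := (pos_iff_pos_of_mul_pos hpos).1 h
      have h1' : orient (P x) (P y) (P p) < 0 := by
        by_contra hc
        push Not at hc
        have := mul_nonneg h1.le hc
        linarith
      rw [div_le_div_iff₀ (by linarith) (by linarith)] at hm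
      nlinarith
  rcases lt_trichotomy (orient (P a) (P p) (P w)) 0 with h | h | h
  · have h1 : 0 < orient (refl P a) (refl P p) (refl P w) := by rw [orient_refl]; linarith
    obtain ⟨r, hr1, hr2⟩ := gap_main (gp_refl hP) (tri_refl hT) (a := a) (p := p) (u := u) (w := w)
      (α := -α) (β := β) (by simp only [refl]; linarith) (by simp only [refl]; linarith) hadj
      ((X_refl P a p u w).2 hX) h1 (by
        intro x y hxy hXy hpos
        simp only [orient_refl, neg_mul_neg] at hpos ⊢
        exact hmin2 x y hxy ((X_refl P a p x y).1 hXy) hpos)
    refine ⟨r, hr1, ?_⟩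
    simp only [refl] at hr2
    linarith
  · have := hX.1
    rw [h, mul_zero] at this
    exact absurd this (lt_irrefl _)
  · exact gap_main hP hT hlp hlw hadj hX h hmin2

/-- **GAP**. -/
theorem gap : S_GAP := by
  classical
  intro V _ P hP T hT a p α β hlp
  by_cases hap : T.Adj a p
  · exact ⟨p, hap, hlp⟩
  have hne : a ≠ p := by
    rintro rfl
    simp at hlp
  set Z : Finset (V × V) := Finset.univ.filter fun e => T.Adj e.1 e.2 ∧ X P a p e.1 e.2 with hZ
  have hZne : Z.Nonempty := by
    by_contra hc
    rw [Finset.not_nonempty_iff_eq_empty] at hc
    apply hap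
    apply hT.2 a p hne
    intro k l hkl hX
    have : (k, l) ∈ Z := by simp [hZ, hkl, hX]
    rw [hc] at this
    simp at this
  obtain ⟨⟨u, w⟩, huw, hmin⟩ := Z.exists_min_image
    (fun e => orient (P e.1) (P e.2) (P a) / (orient (P e.1) (P e.2) (P a) - orient (P e.1) (P e.2) (P p))) hZne
  simp only [hZ, Finset.mem_filter, Finset.mem_univ, true_and, Prod.forall] at huw hmin
  obtain ⟨hadj, hX⟩ := huw
  have hid : orient (P a) (P p) (P w) * (α * ((P u).1 - (P a).1) + β * ((P u).2 - (P a).2)) -
      orient (P a) (P p) (P u) * (α * ((P w).1 - (P a).1) + β * ((P w).2 - (P a).2)) =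
      orient (P u) (P w) (P a) * (α * ((P p).1 - (P a).1) + β * ((P p).2 - (P a).2)) := by
    unfold orient; ring
  have hor : 0 < α * ((P u).1 - (P a).1) + β * ((P u).2 - (P a).2) ∨
      0 < α * ((P w).1 - (P a).1) + β * ((P w).2 - (P a).2) := by
    by_contra hc
    push Not at hc
    obtain ⟨c1, c2⟩ := hc
    rcases lt_trichotomy (orient (P a) (P p) (P w)) 0 with h | h | h
    · have h' : 0 < orient (P a) (P p) (P u) := by
        by_contra hc
        push Not at hc
        have := mul_nonneg_of_nonpos_of_nonpos hc h.le
        linarith [hX.1]
      have hX' := ((cr_swap2 _ _ _ _).1 hX)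
      obtain ⟨e1, e2⟩ := cr_pos h h' hX'.2
      have e3 : orient (P u) (P w) (P a) < 0 := by
        rw [orient_swap (P w) (P u)]; linarith
      have f1 := mul_nonneg (neg_nonneg.2 h.le) (neg_nonneg.2 c1)
      have f2 := mul_nonneg h'.le (neg_nonneg.2 c2)
      have f3 := mul_pos (neg_pos.2 e3) hlp
      linarith
    · have := hX.1
      rw [h, mul_zero] at this
      exact absurd this (lt_irrefl _)
    · have h' : orient (P a) (P p) (P u) < 0 := by
        by_contra hc
        push Not at hc
        have := mul_nonneg hc h.le
        linarith [hX.1]
      obtain ⟨e1, e2⟩ := cr_pos h' h hX.2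
      have f1 := mul_nonneg h.le (neg_nonneg.2 c1)
      have f2 := mul_nonneg (neg_nonneg.2 h'.le) (neg_nonneg.2 c2)
      have f3 := mul_pos e1 hlp
      linarith
  rcases hor with h | h
  · refine gap_both hP hT hlp h hadj.symm ((cr_swap2 _ _ _ _).1 hX) fun x y hxy hXy => ?_
    have := hmin x y ⟨hxy, hXy⟩
    rw [orient_swap (P u) (P w), orient_swap (P u) (P w)]
    have e : -orient (P u) (P w) (P a) / (-orient (P u) (P w) (P a) - -orient (P u) (P w) (P p)) =
        orient (P u) (P w) (P a) / (orient (P u) (P w) (P a) - orient (P u) (P w) (P p)) := by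
      rw [← neg_div_neg_eq]
      congr 1 <;> ring
    rw [e]
    exact this
  · exact gap_both hP hT hlp h hadj hX fun x y hxy hXy => hmin x y ⟨hxy, hXy⟩

end Run7.h376.HT
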