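import Pool.Agent.Run7.h376.HT.LOC2

/-!
# The piece HOS
-/

set_option autoImplicit false

namespace Run7.h376.HT

open Run7.h397 Run7.h397.HT

theorem mem_es {V : Type} [Fintype V] {T : SimpleGraph V} {e : V × V} :
    e ∈ es T ↔ T.Adj e.1 e.2 := by simp [es]

/-- The number of crossings after a flip. -/
theorem cr_flip {V : Type} [Fintype V] (P : V → Pt) {T T₁ T' : SimpleGraph V} {a b c d : V}
    (h : FlipAt T T₁ a b c d) :
    cr P T₁ T' + 2 * xn P T' a b = cr P T T' + 2 * xn P T' c d := by
  classical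
  obtain ⟨hab, hcd, hne, hadj⟩ := h
  set R : Finset (V × V) := Finset.univ.filter fun e => T.Adj e.1 e.2 ∧ s(e.1, e.2) ≠ s(a, b) with hR
  have h1 : es T = insert (a, b) (insert (b, a) R) := by
    ext ⟨i, j⟩
    rw [mem_es, Finset.mem_insert, Finset.mem_insert, hR, Finset.mem_filter, Prod.mk.injEq, Prod.mk.injEq]
    simp only [Finset.mem_univ, true_and]
    constructor
    · intro hij
      by_cases hs : s(i, j) = s(a, b)
      · rcases Sym2.eq_iff.1 hs with h | h
        · exact Or.inl h
        · exact Or.inr (Or.inl h)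
      · exact Or.inr (Or.inr ⟨hij, hs⟩)
    · rintro (⟨rfl, rfl⟩ | ⟨rfl, rfl⟩ | h)
      · exact hab
      · exact hab.symm
      · exact h.1
  have h2 : es T₁ = insert (c, d) (insert (d, c) R) := by
    ext ⟨i, j⟩
    rw [mem_es, Finset.mem_insert, Finset.mem_insert, hR, Finset.mem_filter, Prod.mk.injEq, Prod.mk.injEq,
      hadj]
    simp only [Finset.mem_univ, true_and, Sym2.eq_iff]
    tauto
  have n1 : (a, b) ∉ insert (b, a) R := by
    rw [Finset.mem_insert, hR, Finset.mem_filter, Prod.mk.injEq]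
    rintro (⟨h, -⟩ | h)
    · exact hab.ne h
    · exact h.2.2 rfl
  have n2 : (b, a) ∉ R := by
    rw [hR, Finset.mem_filter]
    rintro ⟨-, -, h⟩
    exact h Sym2.eq_swap
  have n3 : (c, d) ∉ insert (d, c) R := by
    rw [Finset.mem_insert, hR, Finset.mem_filter, Prod.mk.injEq]
    rintro (⟨h, -⟩ | h)
    · exact hne h
    · exact hcd h.2.1
  have n4 : (d, c) ∉ R := by
    rw [hR, Finset.mem_filter]
    rintro ⟨-, h, -⟩
    exact hcd h.symm
  unfold cr
  rw [h1, h2, Finset.sum_insert n1, Finset.sum_insert n2, Finset.sum_insert n3, Finset.sum_insert n4]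
  simp only
  rw [xn_swap P T' b a, xn_swap P T' d c]
  ring

/-- no crossings -/
theorem eq_of_cr {V : Type} [Fintype V] {P : V → Pt} {T T' : SimpleGraph V} (hT : IsTri P T)
    (hT' : IsTri P T') (h : cr P T T' = 0) : T = T' := by
  have h0 : ∀ i j, T.Adj i j → ∀ k l, T'.Adj k l → ¬ X P i j k l := by
    intro i j hij k l hkl hX
    unfold cr at h
    rw [Finset.sum_eq_zero_iff] at h
    have h1 := h (i, j) (mem_es.2 hij)
    unfold xn at h1
    rw [Finset.card_eq_zero] at h1
    have h2 : (k, l) ∈ xs P T' i j := mem_xs.2 ⟨hkl, hX⟩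
    rw [h1] at h2
    simp at h2
  apply le_antisymm
  · intro i j hij
    exact hT'.2 i j hij.ne (h0 i j hij)
  · intro i j hij
    exact hT.2 i j hij.ne fun k l hkl hX => h0 k l hkl i j hij ((cr_comm _ _ _ _).1 hX)

/-- **HOS**, the theorem of Hanke, Ottmann and Schuierer. -/
theorem hos (hI : S_ISEC) (hS : S_STRIP) (hFl : S_FLIP) : S_HOS := by
  classical
  intro V _ P hP T T' hT hT'
  induction hn : cr P T T' using Nat.strong_induction_on generalizing T with
  | _ n ih =>
    by_cases h0 : cr P T T' = 0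
    · exact ⟨0, by omega, eq_of_cr hT hT' h0 ▸ FlipSeq.refl T⟩
    -- a maximal edge
    have hmax : ∃ a b, MaxE P T T' a b := by
      have hne : (es T).Nonempty := by
        by_contra hcon
        rw [Finset.not_nonempty_iff_eq_empty] at hcon
        apply h0
        unfold cr
        rw [hcon]
        simp
      obtain ⟨e, he, hmx⟩ := (es T).exists_max_image (fun e => xn P T' e.1 e.2) hne
      refine ⟨e.1, e.2, mem_es.1 he, ?_, fun i j hij => hmx (i, j) (mem_es.2 hij)⟩
      by_contra hcon
      apply h0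
      unfold cr
      apply Finset.sum_eq_zero
      intro x hx
      have := hmx x hx
      omega
    have hex : ∃ a b c, MaxE P T T' a b ∧ Face P T a b c ∧ xn P T' a c ≠ xn P T' a b ∧
        xn P T' b c ≠ xn P T' a b := by
      by_contra hcon
      push Not at hcon
      apply hS V P hP T T' hT hT' hmax
      intro a b c h1 h2
      by_cases h3 : xn P T' a c = xn P T' a b
      · exact Or.inl h3
      · exact Or.inr (hcon a b c h1 h2 h3)
    -- make the orientation positive
    have hex2 : ∃ a b c, MaxE P T T' a b ∧ Face P T a b c ∧ xn P T' a c ≠ xn P T' a b ∧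
        xn P T' b c ≠ xn P T' a b ∧ 0 < orient (P a) (P b) (P c) := by
      obtain ⟨a, b, c, h1, h2, h3, h4⟩ := hex
      rcases lt_or_gt_of_ne (hP.col a b c h2.1.ne h2.2.1.ne h2.2.2.1.ne) with h | h
      · refine ⟨b, a, c, maxE_swap h1, face_swap h2, ?_, ?_, by rw [orient_swap]; linarith⟩
        · rw [xn_swap P T' b a]; exact h4
        · rw [xn_swap P T' b a]; exact h3
      · exact ⟨a, b, c, h1, h2, h3, h4, h⟩
    obtain ⟨a, b, c, hM, hc, hx1, hx2, hpos⟩ := hex2
    -- a point on the other side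
    have hp : ∃ p, 0 < orient (P b) (P a) (P p) := by
      obtain ⟨e, he⟩ := Finset.card_pos.1 hM.2.1
      rw [mem_xs] at he
      rcases neg_cases he.2.1 with ⟨h, -⟩ | ⟨-, h⟩
      · exact ⟨e.1, by rw [orient_swap]; linarith⟩
      · exact ⟨e.2, by rw [orient_swap]; linarith⟩
    obtain ⟨p, hp⟩ := hp
    obtain ⟨d, hd, hFd⟩ := face V P hP T hT b a p hM.1.symm hp
    have hFd' : Face P T a b d := face_swap hFd
    have hd' : orient (P a) (P b) (P d) < 0 := by rw [orient_swap]; linarith
    have hX := conv hI V P hP T T' hT hT' a b c d hM hc hFd' hpos hd'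
    have hlt : xn P T' c d < xn P T' a b := by
      rcases loc hI V P hP T T' hT hT' a b c d hM hc hFd' hpos hd' hX with h | ⟨h | h, -⟩
      · exact h
      · exact absurd h hx1
      · exact absurd h hx2
    obtain ⟨T₁, hflip, hT₁⟩ := hFl V P hP T hT a b c d hc hFd' hX
    have hcr := cr_flip P (T' := T') hflip
    obtain ⟨k, hk, hseq⟩ := ih (cr P T₁ T') (by omega) T₁ hT₁ rfl
    exact ⟨k + 1, by omega, FlipSeq.step ⟨hT, hT₁, a, b, c, d, hflip⟩ hseq⟩

end Run7.h376.HT
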