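import Pool.Agent.Run7.h376.HT.SEC

/-!
# The piece LOC
-/

set_option autoImplicit false

namespace Run7.h376.HT

open Run7.h397 Run7.h397.HT

/-- The crossing point is between the ends of both segments. -/
theorem sep {x y k l p q : Pt} (h : Cr x y k l) (hx : 0 ≤ orient p q x) (hy : 0 < orient p q y)
    (hk : orient p q k ≤ 0) (hl : orient p q l ≤ 0) : False := by
  have main : ∀ k l : Pt, orient x y k < 0 → 0 < orient x y l → orient k l x * orient k l y < 0 →
      orient p q k ≤ 0 → orient p q l ≤ 0 → False := by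
    intro k l h1 h2 h3 hk hl
    obtain ⟨g1, g2⟩ := cr_pos h1 h2 h3
    have k0 := kid x y k l p q
    have e1 := mul_nonneg h2.le (neg_nonneg.2 hk)
    have e2 := mul_nonneg (neg_nonneg.2 h1.le) (neg_nonneg.2 hl)
    have e3 := mul_pos g1 hy
    have e4 := mul_nonneg (neg_nonneg.2 g2.le) hx
    linarith
  rcases lt_trichotomy (orient x y k) 0 with h1 | h1 | h1
  · have h2 : 0 < orient x y l := by
      by_contra hc
      push Not at hc
      have := mul_nonneg_of_nonpos_of_nonpos h1.le hc
      linarith [h.1]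
    exact main k l h1 h2 h.2 hk hl
  · have := h.1
    rw [h1, zero_mul] at this
    exact absurd this (lt_irrefl _)
  · have h2 : orient x y l < 0 := by
      by_contra hc
      push Not at hc
      have := mul_nonneg h1.le hc
      linarith [h.1]
    exact main l k h2 h1 ((cr_swap2 _ _ _ _).1 h).2 hl hk

theorem sep' {x y k l p q : Pt} (h : Cr x y k l) (hx : orient p q x ≤ 0) (hy : orient p q y < 0)
    (hk : 0 ≤ orient p q k) (hl : 0 ≤ orient p q l) : False :=
  sep (p := q) (q := p) h (by rw [orient_swap]; linarith) (by rw [orient_swap]; linarith)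
    (by rw [orient_swap]; linarith) (by rw [orient_swap]; linarith)

theorem opp {x y z w k l p q : Pt} (h1 : Cr x y k l) (h2 : Cr z w k l) (hx : 0 ≤ orient p q x)
    (hy : 0 < orient p q y) (hz : orient p q z ≤ 0) (hw : orient p q w < 0) :
    orient p q k * orient p q l < 0 := by
  by_contra hc
  push Not at hc
  rcases le_total (orient p q k) 0 with hk | hk
  · rcases hk.lt_or_eq with hk' | hk'
    · have hl : orient p q l ≤ 0 := by
        by_contra hcon
        push Not at hcon
        have := mul_neg_of_neg_of_pos hk' hcon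
        linarith
      exact sep h1 hx hy hk hl
    · rcases le_total (orient p q l) 0 with hl | hl
      · exact sep h1 hx hy hk hl
      · exact sep' h2 hz hw hk'.ge hl
  · rcases hk.lt_or_eq with hk' | hk'
    · have hl : 0 ≤ orient p q l := by
        by_contra hcon
        push Not at hcon
        have := mul_neg_of_pos_of_neg hk' hcon
        linarith
      exact sep' h2 hz hw hk hl
    · rcases le_total (orient p q l) 0 with hl | hl
      · exact sep h1 hx hy hk'.ge hl
      · exact sep' h2 hz hw hk hl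

theorem opp' {x y z w k l p q : Pt} (h1 : Cr x y k l) (h2 : Cr z w k l) (hx : orient p q x ≤ 0)
    (hy : orient p q y < 0) (hz : 0 ≤ orient p q z) (hw : 0 < orient p q w) :
    orient p q k * orient p q l < 0 := opp h2 h1 hz hw hx hy

theorem neg_cases {x y : ℝ} (h : x * y < 0) : (x < 0 ∧ 0 < y) ∨ (0 < x ∧ y < 0) := by
  rcases mul_neg_iff.1 h with h | h
  · exact Or.inr h
  · exact Or.inl h

/-- A line separates not both pairs of ends of crossing segments. -/
theorem no_sep {a b c d k l : Pt} (hX : Cr a b c d) (h1 : orient k l a * orient k l c < 0)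
    (h2 : orient k l b * orient k l c < 0) (h3 : orient k l a * orient k l d ≤ 0) : False := by
  rcases neg_cases h1 with ⟨e1, e2⟩ | ⟨e1, e2⟩
  · have e3 : orient k l b < 0 := by
      by_contra hc
      push Not at hc
      have := mul_nonneg hc e2.le
      linarith
    have e4 : 0 ≤ orient k l d := by
      by_contra hc
      push Not at hc
      have := mul_pos_of_neg_of_neg e1 hc
      linarith
    exact sep' hX e1.le e3 e2.le e4
  · have e3 : 0 < orient k l b := by
      by_contra hc
      push Not at hc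
      have := mul_nonneg_of_nonpos_of_nonpos hc e2.le
      linarith
    have e4 : orient k l d ≤ 0 := by
      by_contra hc
      push Not at hc
      have := mul_pos e1 hc
      linarith
    exact sep hX e1.le e3 e2.le e4

/-- Parity. -/
theorem par {a b c k l : Pt} (h1 : Cr a b k l) (h2 : Cr b c k l) (h3 : Cr a c k l) : False := by
  have e1 := h1.2
  have e2 := h2.2
  have e3 := h3.2
  rcases neg_cases e1 with ⟨f1, f2⟩ | ⟨f1, f2⟩
  · rcases neg_cases e2 with ⟨g1, g2⟩ | ⟨g1, g2⟩
    · linarith
    · have := mul_pos_of_neg_of_neg f1 g2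
      linarith
  · rcases neg_cases e2 with ⟨g1, g2⟩ | ⟨g1, g2⟩
    · have := mul_pos f1 g2
      linarith
    · linarith

/-- Segments through opposite sides cross. -/
theorem cross_mm {a b c d k l k' l' : Pt} (h1 : Cr a c k l) (h2 : Cr b d k l) (h3 : Cr a b k l)
    (h1' : Cr b c k' l') (h2' : Cr a d k' l') (h3' : Cr a b k' l') : Cr k l k' l' := by
  constructor
  · have e1 := h1.2
    have e2 := h2.2
    have e3 := h3.2
    rcases neg_cases e3 with ⟨f1, f2⟩ | ⟨f1, f2⟩
    · have g1 : 0 < orient k l c := by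
        rcases neg_cases e1 with ⟨_, g⟩ | ⟨g, _⟩
        · exact g
        · linarith
      have g2 : orient k l d < 0 := by
        rcases neg_cases e2 with ⟨g, _⟩ | ⟨_, g⟩
        · linarith
        · exact g
      exact opp h1' h2' f2.le g1 f1.le g2
    · have g1 : orient k l c < 0 := by
        rcases neg_cases e1 with ⟨g, _⟩ | ⟨_, g⟩
        · linarith
        · exact g
      have g2 : 0 < orient k l d := by
        rcases neg_cases e2 with ⟨_, g⟩ | ⟨g, _⟩
        · exact g
        · linarith
      exact opp h2' h1' f1.le g2 f2.le g1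
  · have e1 := h1'.2
    have e2 := h2'.2
    have e3 := h3'.2
    rcases neg_cases e3 with ⟨f1, f2⟩ | ⟨f1, f2⟩
    · have g1 : orient k' l' c < 0 := by
        rcases neg_cases e1 with ⟨g, _⟩ | ⟨_, g⟩
        · linarith
        · exact g
      have g2 : 0 < orient k' l' d := by
        rcases neg_cases e2 with ⟨_, g⟩ | ⟨g, _⟩
        · exact g
        · linarith
      exact opp h2 h1 f2.le g2 f1.le g1
    · have g1 : 0 < orient k' l' c := by
        rcases neg_cases e1 with ⟨_, g⟩ | ⟨g, _⟩
        · exact g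
        · linarith
      have g2 : orient k' l' d < 0 := by
        rcases neg_cases e2 with ⟨g, _⟩ | ⟨_, g⟩
        · linarith
        · exact g
      exact opp h1 h2 f1.le g1 f2.le g2

/-- A segment which cuts the corner `c` crosses the segments from `c` through the opposite side. -/
theorem cross_cn {a b c q k l : Pt} (h1 : Cr a c k l) (h2 : Cr b c k l) (h : Cr a b c q) :
    Cr k l c q := by
  constructor
  · have e1 := h1.2
    have e2 := h2.2
    rcases neg_cases e1 with ⟨f1, f2⟩ | ⟨f1, f2⟩
    · have g1 : orient k l b < 0 := by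
        rcases neg_cases e2 with ⟨g, _⟩ | ⟨_, g⟩
        · exact g
        · linarith
      have g2 : orient k l q < 0 := by
        by_contra hc
        push Not at hc
        exact sep' h f1.le g1 f2.le hc
      exact mul_neg_of_pos_of_neg f2 g2
    · have g1 : 0 < orient k l b := by
        rcases neg_cases e2 with ⟨_, g⟩ | ⟨g, _⟩
        · linarith
        · exact g
      have g2 : 0 < orient k l q := by
        by_contra hc
        push Not at hc
        exact sep h f1.le g1 f2.le hc
      exact mul_neg_of_neg_of_pos f2 g2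
  · have e := h.2
    have k1 : Cr c a k l := (cr_swap1 _ _ _ _).1 h1
    have k2 : Cr c b k l := (cr_swap1 _ _ _ _).1 h2
    rcases neg_cases e with ⟨f1, f2⟩ | ⟨f1, f2⟩
    · exact opp k2 k1 (by simp) f2 (by simp) f1
    · exact opp k1 k2 (by simp) f1 (by simp) f2

/-- The empty quadrilateral. -/
theorem emp_quad {a b c d x : Pt} (hc : 0 < orient a b c) (hd : orient a b d < 0) (hX : Cr a b c d)
    (hx : InTri a c d x) : orient a b x = 0 ∨ InTri a b c x ∨ InTri a b d x := by
  obtain ⟨g1, g2⟩ := cr_pos hd hc ((cr_swap2 _ _ _ _).1 hX).2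
  -- `g1 : 0 < orient d c a`, `g2 : orient d c b < 0`
  have hadc : 0 < orient a d c := by rw [← orient_cyc]; exact g1
  have hx' : InTri a d c x := inTri_cyc (inTri_swap hx)
  rw [inTri_pos hadc] at hx'
  obtain ⟨x1, x2, x3⟩ := hx'
  have hbcd : 0 < orient b c d := by
    have : orient b c d = - orient d c b := by unfold orient; ring
    linarith
  have comb : ∀ p q : Pt, orient a d c * orient p q x = orient d c x * orient p q a +
      orient c a x * orient p q d + orient a d x * orient p q c := by
    intro p q; unfold orient; ring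
  rcases lt_trichotomy (orient a b x) 0 with h | h | h
  · right; right
    refine ⟨mul_pos_of_neg_of_neg h hd, mul_pos_of_neg_of_neg ?_ hd, mul_pos_of_neg_of_neg ?_ hd⟩
    · have k := comb b d
      have e1 : orient b d a = orient a b d := orient_cyc _ _ _
      have e2 : orient b d c = - orient b c d := orient_swap' _ _ _
      rw [e1, e2, orient_self3, mul_zero, add_zero] at k
      by_contra hcon
      push Not at hcon
      have f1 := mul_nonneg hadc.le hcon
      have f2 := mul_pos x2 (neg_pos.2 hd)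
      have f3 := mul_pos x1 hbcd
      linarith
    · rw [orient_swap]; linarith
  · exact Or.inl h
  · right; left
    rw [inTri_pos hc]
    refine ⟨h, ?_, x3⟩
    have k := comb b c
    rw [orient_self3, mul_zero, add_zero] at k
    have e1 : orient b c a = orient a b c := orient_cyc _ _ _
    rw [e1] at k
    have : 0 < orient a d c * orient b c x := by
      rw [k]
      exact add_pos (mul_pos x2 hc) (mul_pos x3 hbcd)
    exact (pos_iff_pos_of_mul_pos this).1 hadc


/-- ISEC in terms of crossings. -/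
theorem isec' (hI : S_ISEC) {V : Type} [Fintype V] {P : V → Pt} (hP : GP P) {T T' : SimpleGraph V}
    (hT : IsTri P T) (hT' : IsTri P T') {a b c q : V} (hM : MaxE P T T' a b) (hc : Face P T a b c)
    (hq : T'.Adj a q) (hX : X P b c a q) : False := by
  have hd := dif (P b) (P c) (P a) (P q)
  have h1 := hX.1
  have h2 := hX.2
  have e0 : orient (P b) (P c) (P a) = orient (P a) (P b) (P c) := orient_cyc _ _ _
  rw [e0] at h1 hd
  rcases neg_cases h1 with ⟨f1, f2⟩ | ⟨f1, f2⟩
  · have g : 0 < orient (P a) (P q) (P b) ∧ orient (P a) (P q) (P c) < 0 := by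
      rcases neg_cases h2 with ⟨g1, g2⟩ | ⟨g1, g2⟩
      · linarith
      · exact ⟨g1, g2⟩
    refine hI V P hP T T' hT hT' a b c q hM hc hq (mul_pos_of_neg_of_neg ?_ f1)
      (mul_pos_of_neg_of_neg g.2 f1)
    rw [orient_swap']; linarith
  · have g : orient (P a) (P q) (P b) < 0 ∧ 0 < orient (P a) (P q) (P c) := by
      rcases neg_cases h2 with ⟨g1, g2⟩ | ⟨g1, g2⟩
      · exact ⟨g1, g2⟩
      · linarith
    refine hI V P hP T T' hT hT' a b c q hM hc hq (mul_pos ?_ f1) (mul_pos g.2 f1)
    rw [orient_swap']; linarith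

/-- The configuration of LOC. -/
structure Cfg {V : Type} [Fintype V] (P : V → Pt) (T T' : SimpleGraph V) (a b c d : V) : Prop where
  gp : GP P
  tT : IsTri P T
  tT' : IsTri P T'
  mx : MaxE P T T' a b
  fc : Face P T a b c
  fd : Face P T a b d
  hc : 0 < orient (P a) (P b) (P c)
  hd : orient (P a) (P b) (P d) < 0
  hX : X P a b c d
  ncd : ¬ T'.Adj c d

section

variable {V : Type} [Fintype V] {P : V → Pt} {T T' : SimpleGraph V} {a b c d k l : V}

theorem Cfg.sym (C : Cfg P T T' a b c d) : Cfg P T T' b a d c where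
  gp := C.gp
  tT := C.tT
  tT' := C.tT'
  mx := maxE_swap C.mx
  fc := face_swap C.fd
  fd := face_swap C.fc
  hc := by rw [orient_swap]; linarith [C.hd]
  hd := by rw [orient_swap]; linarith [C.hc]
  hX := (cr_swap2 _ _ _ _).1 ((cr_swap1 _ _ _ _).1 C.hX)
  ncd := fun h => C.ncd h.symm

omit [Fintype V] in
/-- An edge which crosses `a b`. -/
theorem f_ab (hP : GP P) (hc : Face P T a b c) (h0 : orient (P a) (P b) (P c) ≠ 0)
    (h : X P a b k l) : (k = c ∨ l = c) ∨ X P b c k l ∨ X P a c k l := by
  rcases exit' hP h0 h (hc.2.2.2 k) (hc.2.2.2 l) with e | e | e | e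
  · exact Or.inl (Or.inl e)
  · exact Or.inl (Or.inr e)
  · exact Or.inr (Or.inl e)
  · exact Or.inr (Or.inr ((cr_swap1 _ _ _ _).1 e))

/-- An edge which crosses `a c`. -/
theorem f_ac (hI : S_ISEC) (hP : GP P) (hT : IsTri P T) (hT' : IsTri P T') (hM : MaxE P T T' a b)
    (hc : Face P T a b c) (h0 : orient (P a) (P b) (P c) ≠ 0) (hkl : T'.Adj k l)
    (h : X P a c k l) : X P a b k l ∨ X P b c k l := by
  have h1 : ∀ x, ¬ InTri (P c) (P a) (P b) (P x) := fun x hx => hc.2.2.2 x (inTri_cyc hx)
  rcases exit' hP (x := c) (y := a) (z := b) (u := k) (v := l) (by rw [orient_cyc']; exact h0)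
    ((cr_swap1 _ _ _ _).1 h) (h1 k) (h1 l) with e | e | e | e
  · subst e
    exact (isec' hI hP hT hT' (maxE_swap hM) (face_swap hc) hkl h).elim
  · subst e
    exact (isec' hI hP hT hT' (maxE_swap hM) (face_swap hc) hkl.symm ((cr_swap2 _ _ _ _).1 h)).elim
  · exact Or.inl e
  · exact Or.inr e

/-- An edge which crosses `b c`. -/
theorem f_bc (hI : S_ISEC) (hP : GP P) (hT : IsTri P T) (hT' : IsTri P T') (hM : MaxE P T T' a b)
    (hc : Face P T a b c) (h0 : orient (P a) (P b) (P c) ≠ 0) (hkl : T'.Adj k l)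
    (h : X P b c k l) : X P a b k l ∨ X P a c k l := by
  have := f_ac hI hP hT hT' (maxE_swap hM) (face_swap hc)
    (by rw [orient_swap]; exact neg_ne_zero.2 h0) hkl h
  rcases this with e | e
  · exact Or.inl ((cr_swap1 _ _ _ _).1 e)
  · exact Or.inr e

theorem Cfg.emp (C : Cfg P T T' a b c d) : Emp P a c d := by
  intro x hx
  rcases emp_quad C.hc C.hd C.hX hx with h | h | h
  · by_cases hxa : x = a
    · subst hxa
      have := hx.1
      simp at this
    by_cases hxb : x = b
    · subst hxb
      have h1 := hx.2.1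
      have h2 := C.hX.2
      rw [← orient_cyc (P a) (P c) (P d)] at h1
      linarith [mul_comm (orient (P c) (P d) (P a)) (orient (P c) (P d) (P x))]
    exact C.gp.col a b x C.mx.1.ne (Ne.symm hxa) (Ne.symm hxb) h
  · exact C.fc.2.2.2 x h
  · exact C.fd.2.2.2 x h

theorem Cfg.ne (C : Cfg P T T' a b c d) : a ≠ c ∧ a ≠ d ∧ b ≠ c ∧ b ≠ d ∧ c ≠ d ∧ a ≠ b := by
  refine ⟨C.fc.2.1.ne, C.fd.2.1.ne, C.fc.2.2.1.ne, C.fd.2.2.1.ne, ?_, C.mx.1.ne⟩
  rintro rfl
  linarith [C.hc, C.hd]

/-- An edge which crosses `a c`, with respect to the triangle `a c d`. -/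
theorem Cfg.g_ac (C : Cfg P T T' a b c d) (h : X P a c k l) :
    (k = d ∨ l = d) ∨ X P c d k l ∨ X P a d k l := by
  obtain ⟨n1, n2, n3, n4, n5, n6⟩ := C.ne
  rcases exit' C.gp (C.gp.col a c d n1 n2 n5) h (C.emp k) (C.emp l) with e | e | e | e
  · exact Or.inl (Or.inl e)
  · exact Or.inl (Or.inr e)
  · exact Or.inr (Or.inl e)
  · exact Or.inr (Or.inr ((cr_swap1 _ _ _ _).1 e))

/-- An edge which crosses `a d`, with respect to the triangle `a c d`. -/
theorem Cfg.g_ad (C : Cfg P T T' a b c d) (h : X P a d k l) :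
    (k = c ∨ l = c) ∨ X P c d k l ∨ X P a c k l := by
  obtain ⟨n1, n2, n3, n4, n5, n6⟩ := C.ne
  have h1 : ∀ x, ¬ InTri (P a) (P d) (P c) (P x) := fun x hx =>
    C.emp x (inTri_cyc (inTri_swap hx))
  rcases exit' C.gp (C.gp.col a d c n2 n1 n5.symm) h (h1 k) (h1 l) with e | e | e | e
  · exact Or.inl (Or.inl e)
  · exact Or.inl (Or.inr e)
  · exact Or.inr (Or.inl ((cr_swap1 _ _ _ _).1 e))
  · exact Or.inr (Or.inr ((cr_swap1 _ _ _ _).1 e))

/-- No edge of `T'` from `a` crosses `c d`. -/
theorem Cfg.no_a (hI : S_ISEC) (C : Cfg P T T' a b c d) (hq : T'.Adj a k) (h : X P c d a k) :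
    False := by
  obtain ⟨n1, n2, n3, n4, n5, n6⟩ := C.ne
  have hca : orient (P c) (P d) (P a) < 0 := by
    obtain ⟨g1, g2⟩ := cr_pos C.hd C.hc ((cr_swap2 _ _ _ _).1 C.hX).2
    rw [orient_swap]; linarith
  have hck : 0 < orient (P c) (P d) (P k) := by
    rcases neg_cases h.1 with ⟨_, g⟩ | ⟨g, _⟩
    · exact g
    · linarith
  obtain ⟨g1, g2⟩ := cr_pos hca hck h.2
  by_cases hkb : k = b
  · subst hkb
    exact not_adj_of_xn C.tT'.1 C.mx.2.1 hq
  rcases lt_or_gt_of_ne (C.gp.col a b k n6 hq.ne (Ne.symm hkb)) with h1 | h1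
  · exact hI V P C.gp T T' C.tT C.tT' a b d k C.mx C.fd hq (mul_pos_of_neg_of_neg h1 C.hd)
      (mul_pos_of_neg_of_neg g2 C.hd)
  · exact hI V P C.gp T T' C.tT C.tT' a b c k C.mx C.fc hq (mul_pos h1 C.hc) (mul_pos g1 C.hc)

/-- An edge which crosses `c d`. -/
theorem Cfg.g_cd (hI : S_ISEC) (C : Cfg P T T' a b c d) (hkl : T'.Adj k l) (h : X P c d k l) :
    X P a c k l ∨ X P a d k l := by
  obtain ⟨n1, n2, n3, n4, n5, n6⟩ := C.ne
  have h1 : ∀ x, ¬ InTri (P c) (P d) (P a) (P x) := fun x hx =>
    C.emp x (inTri_cyc (inTri_cyc hx))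
  rcases exit' C.gp (C.gp.col c d a n5 n1.symm n2.symm) h (h1 k) (h1 l) with e | e | e | e
  · subst e
    exact (C.no_a hI hkl h).elim
  · subst e
    exact (C.no_a hI hkl.symm ((cr_swap2 _ _ _ _).1 h)).elim
  · exact Or.inr ((cr_swap1 _ _ _ _).1 e)
  · exact Or.inl e

/-- No edge crosses `a c`, `b c` and `a d` (or ends at `d`). -/
theorem Cfg.no3 (C : Cfg P T T' a b c d) (h1 : X P a c k l) (h2 : X P b c k l)
    (h3 : X P a d k l ∨ X P b d k l ∨ k = d ∨ l = d) : False := by
  rcases h3 with h3 | h3 | h3 | h3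
  · exact no_sep C.hX h1.2 h2.2 h3.2.le
  · exact no_sep ((cr_swap1 _ _ _ _).1 C.hX) h2.2 h1.2 h3.2.le
  · subst h3
    exact no_sep C.hX h1.2 h2.2 (by simp)
  · subst h3
    exact no_sep C.hX h1.2 h2.2 (by simp)

theorem Cfg.no3' (C : Cfg P T T' a b c d) (h1 : X P a d k l) (h2 : X P b d k l)
    (h3 : X P a c k l ∨ X P b c k l ∨ k = c ∨ l = c) : False := by
  have := C.sym.no3 (k := k) (l := l) h2 h1
  apply this
  rcases h3 with h | h | h | h
  · exact Or.inr (Or.inl h)
  · exact Or.inl h
  · exact Or.inr (Or.inr (Or.inl h))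
  · exact Or.inr (Or.inr (Or.inr h))

/-- The side at `a`. -/
theorem Cfg.side (hI : S_ISEC) (C : Cfg P T T' a b c d) : ∃ u v, T'.Adj u v ∧ X P a b u v ∧
    (X P a c u v ∨ v = c) ∧ (X P a d u v ∨ u = d) := by
  obtain ⟨n1, n2, n3, n4, n5, n6⟩ := C.ne
  obtain ⟨u, v, hF, hXuv, h1, h2, h3⟩ := sec V P C.gp T' C.tT' a b n6 (not_adj_of_xn C.tT'.1 C.mx.2.1)
  refine ⟨u, v, hF.2.2.1, hXuv, ?_, ?_⟩
  · by_cases hvc : v = c
    · exact Or.inr hvc
    left
    have h4 : orient (P a) (P v) (P c) < 0 := by
      rcases lt_or_gt_of_ne (C.gp.col a v c hF.2.1.ne n1 hvc) with h | h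
      · exact h
      · exact (hI V P C.gp T T' C.tT C.tT' a b c v C.mx C.fc hF.2.1 (mul_pos h2 C.hc)
          (mul_pos h C.hc)).elim
    -- `c` is in the angle `u a v`
    have huc : 0 < orient (P a) (P u) (P c) := by
      by_contra hcon
      push Not at hcon
      -- use `c` between `b` and `v`
      have hid3 : orient (P a) (P b) (P v) * orient (P a) (P u) (P c) =
          orient (P a) (P c) (P v) * orient (P a) (P u) (P b) +
          orient (P a) (P b) (P c) * orient (P a) (P u) (P v) := by
        unfold orient; ring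
      have e1 : 0 < orient (P a) (P c) (P v) := by rw [orient_swap']; linarith
      have e2 := mul_pos e1 h1
      have e3 := mul_pos C.hc h3
      have e4 := mul_nonneg h2.le (neg_nonneg.2 hcon)
      linarith
    have hne : u ≠ c := by rintro rfl; simp at huc
    have huv := hF.2.2.1.ne
    have hbeyond : orient (P u) (P v) (P c) < 0 := by
      rcases lt_or_gt_of_ne (C.gp.col u v c huv hne hvc) with h | h
      · exact h
      · exfalso
        apply hF.2.2.2 c
        rw [inTri_pos h3]
        refine ⟨huc, h, ?_⟩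
        rw [orient_swap]; rw [orient_swap'] at h4 ⊢; linarith
    refine ⟨?_, mul_neg_of_pos_of_neg (by rw [orient_cyc]; exact h3) hbeyond⟩
    apply mul_neg_of_neg_of_pos
    · rw [orient_swap']; linarith
    · rw [orient_swap']; linarith
  · by_cases hud : u = d
    · exact Or.inr hud
    left
    have h4 : 0 < orient (P a) (P u) (P d) := by
      rcases lt_or_gt_of_ne (C.gp.col a u d hF.1.ne n2 hud) with h | h
      · refine (hI V P C.gp T T' C.tT C.tT' a b d u C.mx C.fd hF.1 (mul_pos_of_neg_of_neg ?_ C.hd)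
          (mul_pos_of_neg_of_neg h C.hd)).elim
        rw [orient_swap']; linarith
      · exact h
    have hdv : 0 < orient (P a) (P d) (P v) := by
      have hid3 : orient (P a) (P u) (P b) * orient (P a) (P d) (P v) =
          orient (P a) (P u) (P d) * orient (P a) (P b) (P v) +
          (- orient (P a) (P b) (P d)) * orient (P a) (P u) (P v) := by
        unfold orient; ring
      by_contra hcon
      push Not at hcon
      have e2 := mul_pos h4 h2
      have e3 := mul_pos (neg_pos.2 C.hd) h3
      have e4 := mul_nonneg h1.le (neg_nonneg.2 hcon)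
      linarith
    have hne : v ≠ d := by rintro rfl; simp at hdv
    have huv := hF.2.2.1.ne
    have hbeyond : orient (P u) (P v) (P d) < 0 := by
      rcases lt_or_gt_of_ne (C.gp.col u v d huv hud hne) with h | h
      · exact h
      · exfalso
        apply hF.2.2.2 d
        rw [inTri_pos h3]
        refine ⟨h4, h, ?_⟩
        rw [orient_swap, orient_swap']; linarith
    refine ⟨?_, mul_neg_of_pos_of_neg (by rw [orient_cyc]; exact h3) hbeyond⟩
    exact mul_neg_of_neg_of_pos (by rw [orient_swap']; linarith) hdv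

end

end Run7.h376.HT
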