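import Pool.Agent.Run7.h376.HT.LOC

/-!
# The piece LOC: counting
-/

set_option autoImplicit false

namespace Run7.h376.HT

open Run7.h397 Run7.h397.HT

theorem cnt {W : Type} [Fintype W] [DecidableEq W] (ty : W → Fin 11) (s : Finset W)
    (I : Finset (Fin 11)) (h : ∀ e, e ∈ s ↔ ty e ∈ I) :
    s.card = ∑ i ∈ I, (Finset.univ.filter fun e => ty e = i).card := by
  rw [Finset.card_eq_sum_card_fiberwise (f := ty) (t := I) (fun e he => (h e).1 he)]
  apply Finset.sum_congr rfl
  intro i hi
  congr 1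
  ext e
  simp only [Finset.mem_filter, Finset.mem_univ, true_and]
  constructor
  · rintro ⟨-, h2⟩
    exact h2
  · intro h2
    exact ⟨(h e).2 (by rw [h2]; exact hi), h2⟩

section

variable {V : Type} [Fintype V] {P : V → Pt} {T T' : SimpleGraph V} {a b c d : V}

/-- The eleven types of the edges. -/
theorem Cfg.cls (hI : S_ISEC) (C : Cfg P T T' a b c d) (e : V × V) : ∃ i : Fin 11,
    (e ∈ xs P T' a b ↔ i ∈ ({0, 1, 4, 5, 6, 7, 8, 9} : Finset (Fin 11))) ∧
    (e ∈ xs P T' c d ↔ i ∈ ({2, 3, 4, 5} : Finset (Fin 11))) ∧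
    (e ∈ xs P T' a c ↔ i ∈ ({0, 2, 4, 8} : Finset (Fin 11))) ∧
    (e ∈ xs P T' b c ↔ i ∈ ({1, 2, 5, 9} : Finset (Fin 11))) ∧
    (e ∈ xs P T' a d ↔ i ∈ ({0, 3, 5, 6} : Finset (Fin 11))) ∧
    (e ∈ xs P T' b d ↔ i ∈ ({1, 3, 4, 7} : Finset (Fin 11))) ∧
    (i = 6 ∨ i = 7 → e.1 = c ∨ e.2 = c) ∧ (i = 8 ∨ i = 9 → e.1 = d ∨ e.2 = d) := by
  obtain ⟨n1, n2, n3, n4, n5, n6⟩ := C.ne
  obtain ⟨k, l⟩ := e
  simp only [mem_xs]
  by_cases hkl : T'.Adj k l
  swap
  · exact ⟨10, iff_of_false (fun h => hkl h.1) (by decide), iff_of_false (fun h => hkl h.1) (by decide),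
      iff_of_false (fun h => hkl h.1) (by decide), iff_of_false (fun h => hkl h.1) (by decide),
      iff_of_false (fun h => hkl h.1) (by decide), iff_of_false (fun h => hkl h.1) (by decide),
      fun h => absurd h (by decide), fun h => absurd h (by decide)⟩
  simp only [hkl, true_and]
  have nc : (k = c ∨ l = c) → ¬ X P a c k l ∧ ¬ X P b c k l ∧ ¬ X P c d k l := by
    rintro (rfl | rfl)
    · exact ⟨not_cr_right _ _ _, not_cr_right _ _ _, not_cr_left _ _ _⟩
    · exact ⟨not_cr_right' _ _ _, not_cr_right' _ _ _, not_cr_left' _ _ _⟩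
  have nd : (k = d ∨ l = d) → ¬ X P a d k l ∧ ¬ X P b d k l ∧ ¬ X P c d k l := by
    rintro (rfl | rfl)
    · exact ⟨not_cr_right _ _ _, not_cr_right _ _ _, not_cr_right _ _ _⟩
    · exact ⟨not_cr_right' _ _ _, not_cr_right' _ _ _, not_cr_right' _ _ _⟩
  have p1 : X P a b k l → X P b c k l → X P a c k l → False := fun h1 h2 h3 => par h1 h2 h3
  have p2 : X P a b k l → X P b d k l → X P a d k l → False := fun h1 h2 h3 => par h1 h2 h3
  have p3 : X P a c k l → X P c d k l → X P a d k l → False := fun h1 h2 h3 => par h1 h2 h3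
  have p4 : X P b c k l → X P c d k l → X P b d k l → False := fun h1 h2 h3 => par h1 h2 h3
  by_cases hE : X P a b k l
  · rcases f_ab C.gp C.fc C.hc.ne' hE with hc | hBC | hAC
    · rcases f_ab C.gp C.fd C.hd.ne hE with hd | hBD | hAD
      · exfalso
        rcases hc with rfl | rfl
        · rcases hd with h | h
          · exact n5 h
          · rw [h] at hkl
            exact C.ncd hkl
        · rcases hd with h | h
          · rw [h] at hkl
            exact C.ncd hkl.symm
          · exact n5 h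
      · obtain ⟨m1, m2, m3⟩ := nc hc
        exact ⟨7, iff_of_true hE (by decide), iff_of_false m3 (by decide), iff_of_false m1 (by decide),
          iff_of_false m2 (by decide), iff_of_false (fun h => p2 hE hBD h) (by decide),
          iff_of_true hBD (by decide), fun _ => hc, fun h => absurd h (by decide)⟩
      · obtain ⟨m1, m2, m3⟩ := nc hc
        exact ⟨6, iff_of_true hE (by decide), iff_of_false m3 (by decide), iff_of_false m1 (by decide),
          iff_of_false m2 (by decide), iff_of_true hAD (by decide),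
          iff_of_false (fun h => p2 hE h hAD) (by decide), fun _ => hc, fun h => absurd h (by decide)⟩
    · have hAC : ¬ X P a c k l := fun h => p1 hE hBC h
      rcases f_ab C.gp C.fd C.hd.ne hE with hd | hBD | hAD
      · obtain ⟨m1, m2, m3⟩ := nd hd
        exact ⟨9, iff_of_true hE (by decide), iff_of_false m3 (by decide), iff_of_false hAC (by decide),
          iff_of_true hBC (by decide), iff_of_false m1 (by decide), iff_of_false m2 (by decide),
          fun h => absurd h (by decide), fun _ => hd⟩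
      · exact ⟨1, iff_of_true hE (by decide), iff_of_false (fun h => p4 hBC h hBD) (by decide),
          iff_of_false hAC (by decide), iff_of_true hBC (by decide),
          iff_of_false (fun h => p2 hE hBD h) (by decide), iff_of_true hBD (by decide),
          fun h => absurd h (by decide), fun h => absurd h (by decide)⟩
      · have hF : X P c d k l := by
          rcases C.g_ad hAD with h | h | h
          · exact absurd hBC (nc h).2.1
          · exact h
          · exact absurd h hAC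
        exact ⟨5, iff_of_true hE (by decide), iff_of_true hF (by decide),
          iff_of_false hAC (by decide), iff_of_true hBC (by decide), iff_of_true hAD (by decide),
          iff_of_false (fun h => p2 hE h hAD) (by decide),
          fun h => absurd h (by decide), fun h => absurd h (by decide)⟩
    · have hBC : ¬ X P b c k l := fun h => p1 hE h hAC
      rcases f_ab C.gp C.fd C.hd.ne hE with hd | hBD | hAD
      · obtain ⟨m1, m2, m3⟩ := nd hd
        exact ⟨8, iff_of_true hE (by decide), iff_of_false m3 (by decide), iff_of_true hAC (by decide),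
          iff_of_false hBC (by decide), iff_of_false m1 (by decide), iff_of_false m2 (by decide),
          fun h => absurd h (by decide), fun _ => hd⟩
      · have hAD : ¬ X P a d k l := fun h => p2 hE hBD h
        have hF : X P c d k l := by
          rcases C.g_ac hAC with h | h | h
          · exact absurd hBD (nd h).2.1
          · exact h
          · exact absurd h hAD
        exact ⟨4, iff_of_true hE (by decide), iff_of_true hF (by decide),
          iff_of_true hAC (by decide), iff_of_false hBC (by decide), iff_of_false hAD (by decide),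
          iff_of_true hBD (by decide),
          fun h => absurd h (by decide), fun h => absurd h (by decide)⟩
      · exact ⟨0, iff_of_true hE (by decide), iff_of_false (fun h => p3 hAC h hAD) (by decide),
          iff_of_true hAC (by decide), iff_of_false hBC (by decide), iff_of_true hAD (by decide),
          iff_of_false (fun h => p2 hE h hAD) (by decide),
          fun h => absurd h (by decide), fun h => absurd h (by decide)⟩
  · by_cases hAC : X P a c k l
    · have hBC : X P b c k l :=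
        (f_ac hI C.gp C.tT C.tT' C.mx C.fc C.hc.ne' hkl hAC).resolve_left hE
      have hAD : ¬ X P a d k l := fun h => C.no3 hAC hBC (Or.inl h)
      have hBD : ¬ X P b d k l := fun h => C.no3 hAC hBC (Or.inr (Or.inl h))
      have hF : X P c d k l := by
        rcases C.g_ac hAC with h | h | h
        · exact (C.no3 hAC hBC (Or.inr (Or.inr h))).elim
        · exact h
        · exact absurd h hAD
      exact ⟨2, iff_of_false hE (by decide), iff_of_true hF (by decide),
        iff_of_true hAC (by decide), iff_of_true hBC (by decide), iff_of_false hAD (by decide),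
        iff_of_false hBD (by decide),
        fun h => absurd h (by decide), fun h => absurd h (by decide)⟩
    have hBC : ¬ X P b c k l := by
      intro h
      rcases f_bc hI C.gp C.tT C.tT' C.mx C.fc C.hc.ne' hkl h with h' | h'
      · exact hE h'
      · exact hAC h'
    by_cases hAD : X P a d k l
    · have hBD : X P b d k l :=
        (f_ac hI C.gp C.tT C.tT' C.mx C.fd C.hd.ne hkl hAD).resolve_left hE
      have hF : X P c d k l := by
        rcases C.g_ad hAD with h | h | h
        · exact (C.no3' hAD hBD (Or.inr (Or.inr h))).elim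
        · exact h
        · exact absurd h hAC
      exact ⟨3, iff_of_false hE (by decide), iff_of_true hF (by decide),
        iff_of_false hAC (by decide), iff_of_false hBC (by decide), iff_of_true hAD (by decide),
        iff_of_true hBD (by decide),
        fun h => absurd h (by decide), fun h => absurd h (by decide)⟩
    have hBD : ¬ X P b d k l := by
      intro h
      rcases f_bc hI C.gp C.tT C.tT' C.mx C.fd C.hd.ne hkl h with h' | h'
      · exact hE h'
      · exact hAD h'
    have hF : ¬ X P c d k l := by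
      intro h
      rcases C.g_cd hI hkl h with h' | h'
      · exact hAC h'
      · exact hAD h'
    exact ⟨10, iff_of_false hE (by decide), iff_of_false hF (by decide),
      iff_of_false hAC (by decide), iff_of_false hBC (by decide), iff_of_false hAD (by decide),
      iff_of_false hBD (by decide),
      fun h => absurd h (by decide), fun h => absurd h (by decide)⟩

end

/-- **LOC**. -/
theorem loc (hI : S_ISEC) : S_LOC := by
  classical
  intro V _ P hP T T' hT hT' a b c d hM hc hd hc' hd' hX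
  by_cases hcd : T'.Adj c d
  · left
    have : xn P T' c d = 0 := by
      unfold xn
      rw [Finset.card_eq_zero, Finset.eq_empty_iff_forall_notMem]
      intro e he
      rw [mem_xs] at he
      exact hT'.1 c d e.1 e.2 hcd he.1 he.2
    rw [this]
    exact hM.2.1
  have C : Cfg P T T' a b c d := ⟨hP, hT, hT', hM, hc, hd, hc', hd', hX, hcd⟩
  choose ty hE hF hAC hBC hAD hBD hce hde using C.cls hI
  set n : Fin 11 → ℕ := fun i => (Finset.univ.filter fun e => ty e = i).card with hn
  have cE := cnt ty _ _ hE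
  have cF := cnt ty _ _ hF
  have cAC := cnt ty _ _ hAC
  have cBC := cnt ty _ _ hBC
  have cAD := cnt ty _ _ hAD
  have cBD := cnt ty _ _ hBD
  have s4 : ∀ (i j k l : Fin 11), i ∉ ({j, k, l} : Finset (Fin 11)) → j ∉ ({k, l} : Finset (Fin 11)) →
      k ≠ l → ∑ m ∈ ({i, j, k, l} : Finset (Fin 11)), n m = n i + n j + n k + n l := by
    intro i j k l h1 h2 h3
    rw [Finset.sum_insert h1, Finset.sum_insert h2, Finset.sum_pair h3]
    ring
  have s8 : ∑ m ∈ ({0, 1, 4, 5, 6, 7, 8, 9} : Finset (Fin 11)), n m =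
      n 0 + n 1 + n 4 + n 5 + n 6 + n 7 + n 8 + n 9 := by
    rw [Finset.sum_insert (by decide), Finset.sum_insert (by decide), Finset.sum_insert (by decide),
      Finset.sum_insert (by decide), s4 6 7 8 9 (by decide) (by decide) (by decide)]
    ring
  change (xs P T' a b).card = ∑ m ∈ ({0, 1, 4, 5, 6, 7, 8, 9} : Finset (Fin 11)), n m at cE
  change (xs P T' c d).card = ∑ m ∈ ({2, 3, 4, 5} : Finset (Fin 11)), n m at cF
  change (xs P T' a c).card = ∑ m ∈ ({0, 2, 4, 8} : Finset (Fin 11)), n m at cAC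
  change (xs P T' b c).card = ∑ m ∈ ({1, 2, 5, 9} : Finset (Fin 11)), n m at cBC
  change (xs P T' a d).card = ∑ m ∈ ({0, 3, 5, 6} : Finset (Fin 11)), n m at cAD
  change (xs P T' b d).card = ∑ m ∈ ({1, 3, 4, 7} : Finset (Fin 11)), n m at cBD
  rw [s8] at cE
  rw [s4 _ _ _ _ (by decide) (by decide) (by decide)] at cF cAC cBC cAD cBD
  have m1 := hM.2.2 a c hc.2.1
  have m2 := hM.2.2 b c hc.2.2.1
  have m3 := hM.2.2 a d hd.2.1
  have m4 := hM.2.2 b d hd.2.2.1
  unfold xn at m1 m2 m3 m4
  have hpos : ∀ i : Fin 11, 0 < n i → ∃ e, ty e = i := by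
    intro i hi
    obtain ⟨e, he⟩ := Finset.card_pos.1 hi
    exact ⟨e, (Finset.mem_filter.1 he).2⟩
  -- `M1 = 0` or `M2 = 0`
  have q1 : n 4 = 0 ∨ n 5 = 0 := by
    by_contra hcon
    push Not at hcon
    obtain ⟨e, he⟩ := hpos 4 (Nat.pos_of_ne_zero hcon.1)
    obtain ⟨e', he'⟩ := hpos 5 (Nat.pos_of_ne_zero hcon.2)
    have g1 := mem_xs.1 ((hAC e).2 (by rw [he]; decide))
    have g2 := mem_xs.1 ((hBD e).2 (by rw [he]; decide))
    have g3 := mem_xs.1 ((hE e).2 (by rw [he]; decide))
    have g1' := mem_xs.1 ((hBC e').2 (by rw [he']; decide))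
    have g2' := mem_xs.1 ((hAD e').2 (by rw [he']; decide))
    have g3' := mem_xs.1 ((hE e').2 (by rw [he']; decide))
    exact hT'.1 e.1 e.2 e'.1 e'.2 g1.1 g1'.1 (cross_mm g1.2 g2.2 g3.2 g1'.2 g2'.2 g3'.2)
  have q2 : n 2 = 0 ∨ (n 6 = 0 ∧ n 7 = 0) := by
    by_contra hcon
    push Not at hcon
    obtain ⟨e, he⟩ := hpos 2 (Nat.pos_of_ne_zero hcon.1)
    have h67 : ∃ e', ty e' = 6 ∨ ty e' = 7 := by
      by_cases h6 : n 6 = 0
      · obtain ⟨e', he'⟩ := hpos 7 (Nat.pos_of_ne_zero (hcon.2 h6))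
        exact ⟨e', Or.inr he'⟩
      · obtain ⟨e', he'⟩ := hpos 6 (Nat.pos_of_ne_zero h6)
        exact ⟨e', Or.inl he'⟩
    obtain ⟨e', he'⟩ := h67
    have g1 := mem_xs.1 ((hAC e).2 (by rw [he]; decide))
    have g2 := mem_xs.1 ((hBC e).2 (by rw [he]; decide))
    have g3 := mem_xs.1 ((hE e').2 (by rcases he' with h | h <;> (rw [h]; decide)))
    rcases hce e' he' with h | h
    · have g4 := g3.2
      rw [h] at g4
      have := cross_cn g1.2 g2.2 g4
      refine hT'.1 e.1 e.2 e'.1 e'.2 g1.1 g3.1 ?_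
      rw [X, h]
      exact this
    · have g4 := g3.2
      rw [h] at g4
      have := cross_cn g1.2 g2.2 ((cr_swap2 _ _ _ _).1 g4)
      refine hT'.1 e.1 e.2 e'.1 e'.2 g1.1 g3.1 ?_
      rw [X, h]
      exact (cr_swap2 _ _ _ _).1 this
  have q3 : n 3 = 0 ∨ (n 8 = 0 ∧ n 9 = 0) := by
    by_contra hcon
    push Not at hcon
    obtain ⟨e, he⟩ := hpos 3 (Nat.pos_of_ne_zero hcon.1)
    have h67 : ∃ e', ty e' = 8 ∨ ty e' = 9 := by
      by_cases h6 : n 8 = 0
      · obtain ⟨e', he'⟩ := hpos 9 (Nat.pos_of_ne_zero (hcon.2 h6))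
        exact ⟨e', Or.inr he'⟩
      · obtain ⟨e', he'⟩ := hpos 8 (Nat.pos_of_ne_zero h6)
        exact ⟨e', Or.inl he'⟩
    obtain ⟨e', he'⟩ := h67
    have g1 := mem_xs.1 ((hAD e).2 (by rw [he]; decide))
    have g2 := mem_xs.1 ((hBD e).2 (by rw [he]; decide))
    have g3 := mem_xs.1 ((hE e').2 (by rcases he' with h | h <;> (rw [h]; decide)))
    rcases hde e' he' with h | h
    · have g4 := g3.2
      rw [h] at g4
      have := cross_cn g1.2 g2.2 g4
      refine hT'.1 e.1 e.2 e'.1 e'.2 g1.1 g3.1 ?_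
      rw [X, h]
      exact this
    · have g4 := g3.2
      rw [h] at g4
      have := cross_cn g1.2 g2.2 ((cr_swap2 _ _ _ _).1 g4)
      refine hT'.1 e.1 e.2 e'.1 e'.2 g1.1 g3.1 ?_
      rw [X, h]
      exact (cr_swap2 _ _ _ _).1 this
  -- ends
  have endc : ∀ e : V × V, (e.1 = c ∨ e.2 = c) → e ∉ xs P T' a c ∧ e ∉ xs P T' b c := by
    rintro ⟨k, l⟩ h
    simp only [mem_xs]
    rcases h with rfl | rfl
    · exact ⟨fun h => not_cr_right _ _ _ h.2, fun h => not_cr_right _ _ _ h.2⟩
    · exact ⟨fun h => not_cr_right' _ _ _ h.2, fun h => not_cr_right' _ _ _ h.2⟩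
  have endd : ∀ e : V × V, (e.1 = d ∨ e.2 = d) → e ∉ xs P T' a d ∧ e ∉ xs P T' b d := by
    rintro ⟨k, l⟩ h
    simp only [mem_xs]
    rcases h with rfl | rfl
    · exact ⟨fun h => not_cr_right _ _ _ h.2, fun h => not_cr_right _ _ _ h.2⟩
    · exact ⟨fun h => not_cr_right' _ _ _ h.2, fun h => not_cr_right' _ _ _ h.2⟩
  have npos : ∀ (e : V × V) (i : Fin 11), ty e = i → 0 < n i := fun e i h =>
    Finset.card_pos.2 ⟨e, by simp [h]⟩
  have tab1 : ∀ i : Fin 11, i ∈ ({0, 1, 4, 5, 6, 7, 8, 9} : Finset (Fin 11)) →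
      (i ∈ ({0, 2, 4, 8} : Finset (Fin 11)) ∨ (i ∉ ({0, 2, 4, 8} : Finset (Fin 11)) ∧ i ∉ ({1, 2, 5, 9} : Finset (Fin 11)))) →
      (i ∈ ({0, 3, 5, 6} : Finset (Fin 11)) ∨ (i ∉ ({0, 3, 5, 6} : Finset (Fin 11)) ∧ i ∉ ({1, 3, 4, 7} : Finset (Fin 11)))) →
      i = 0 ∨ i = 6 ∨ i = 8 := by decide
  have tab2 : ∀ i : Fin 11, i ∈ ({0, 1, 4, 5, 6, 7, 8, 9} : Finset (Fin 11)) →
      (i ∈ ({1, 2, 5, 9} : Finset (Fin 11)) ∨ (i ∉ ({0, 2, 4, 8} : Finset (Fin 11)) ∧ i ∉ ({1, 2, 5, 9} : Finset (Fin 11)))) →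
      (i ∈ ({1, 3, 4, 7} : Finset (Fin 11)) ∨ (i ∉ ({0, 3, 5, 6} : Finset (Fin 11)) ∧ i ∉ ({1, 3, 4, 7} : Finset (Fin 11)))) →
      i = 1 ∨ i = 7 ∨ i = 9 := by decide
  have q4 : 1 ≤ n 0 + n 6 + n 8 := by
    obtain ⟨u, v, huv, h1, h2, h3⟩ := C.side hI
    have t1 := (hE (u, v)).1 (mem_xs.2 ⟨huv, h1⟩)
    have t2 : ty (u, v) ∈ ({0, 2, 4, 8} : Finset (Fin 11)) ∨ (ty (u, v) ∉ ({0, 2, 4, 8} : Finset (Fin 11)) ∧
        ty (u, v) ∉ ({1, 2, 5, 9} : Finset (Fin 11))) := by
      rcases h2 with h | h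
      · exact Or.inl ((hAC (u, v)).1 (mem_xs.2 ⟨huv, h⟩))
      · obtain ⟨w1, w2⟩ := endc (u, v) (Or.inr h)
        exact Or.inr ⟨fun g => w1 ((hAC (u, v)).2 g), fun g => w2 ((hBC (u, v)).2 g)⟩
    have t3 : ty (u, v) ∈ ({0, 3, 5, 6} : Finset (Fin 11)) ∨ (ty (u, v) ∉ ({0, 3, 5, 6} : Finset (Fin 11)) ∧
        ty (u, v) ∉ ({1, 3, 4, 7} : Finset (Fin 11))) := by
      rcases h3 with h | h
      · exact Or.inl ((hAD (u, v)).1 (mem_xs.2 ⟨huv, h⟩))
      · obtain ⟨w1, w2⟩ := endd (u, v) (Or.inl h)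
        exact Or.inr ⟨fun g => w1 ((hAD (u, v)).2 g), fun g => w2 ((hBD (u, v)).2 g)⟩
    rcases tab1 _ t1 t2 t3 with h | h | h
    · have := npos _ _ h
      omega
    · have := npos _ _ h
      omega
    · have := npos _ _ h
      omega
  have q5 : 1 ≤ n 1 + n 7 + n 9 := by
    obtain ⟨u, v, huv, h1, h2, h3⟩ := C.sym.side hI
    have h1' : X P a b u v := (cr_swap1 _ _ _ _).1 h1
    have t1 := (hE (u, v)).1 (mem_xs.2 ⟨huv, h1'⟩)
    have t2 : ty (u, v) ∈ ({1, 2, 5, 9} : Finset (Fin 11)) ∨ (ty (u, v) ∉ ({0, 2, 4, 8} : Finset (Fin 11)) ∧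
        ty (u, v) ∉ ({1, 2, 5, 9} : Finset (Fin 11))) := by
      rcases h3 with h | h
      · exact Or.inl ((hBC (u, v)).1 (mem_xs.2 ⟨huv, h⟩))
      · obtain ⟨w1, w2⟩ := endc (u, v) (Or.inl h)
        exact Or.inr ⟨fun g => w1 ((hAC (u, v)).2 g), fun g => w2 ((hBC (u, v)).2 g)⟩
    have t3 : ty (u, v) ∈ ({1, 3, 4, 7} : Finset (Fin 11)) ∨ (ty (u, v) ∉ ({0, 3, 5, 6} : Finset (Fin 11)) ∧
        ty (u, v) ∉ ({1, 3, 4, 7} : Finset (Fin 11))) := by
      rcases h2 with h | h
      · exact Or.inl ((hBD (u, v)).1 (mem_xs.2 ⟨huv, h⟩))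
      · obtain ⟨w1, w2⟩ := endd (u, v) (Or.inr h)
        exact Or.inr ⟨fun g => w1 ((hAD (u, v)).2 g), fun g => w2 ((hBD (u, v)).2 g)⟩
    rcases tab2 _ t1 t2 t3 with h | h | h
    · have := npos _ _ h
      omega
    · have := npos _ _ h
      omega
    · have := npos _ _ h
      omega
  unfold xn
  omega

end Run7.h376.HT
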