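import Pool.Agent.Run7.h397.HT.Iface
import Pool.Agent.NH83.VN.HW
import Pool.Agent.R35.SignPatterns

/-!
# The piece NET
-/

set_option autoImplicit false

namespace Run7.h376.HT

open Run7.h397 Run7.h397.HT Filter Topology

open Classical in
/-- The patterns of the linear forms `F t`. -/
noncomputable def pats {ι : Type} [Fintype ι] (F : ι → Fin 3 → ℝ) : Finset (Finset ι) :=
  Finset.univ.filter fun A => ∃ y : Fin 3 → ℝ, ∀ i, i ∈ A ↔ 0 < ∑ z, F i z * y z

theorem pats_card {ι : Type} [Fintype ι] (F : ι → Fin 3 → ℝ) :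
    (pats F).card ≤ 4 * (Fintype.card ι + 1) ^ 3 := by
  classical
  have h := Pool.Agent.R35.SignPatterns.card_patterns F (pats F) (fun A hA => by
    unfold pats at hA
    exact (Finset.mem_filter.1 hA).2)
  refine h.trans ?_
  rw [Fintype.card_fin]
  have e : (Finset.Iic 3 : Finset ℕ).card = 4 := by decide
  calc ∑ k ∈ Finset.Iic 3, (Fintype.card ι).choose k ≤ ∑ k ∈ (Finset.Iic 3 : Finset ℕ), (Fintype.card ι + 1) ^ 3 := by
        apply Finset.sum_le_sum
        intro k hk
        rw [Finset.mem_Iic] at hk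
        calc (Fintype.card ι).choose k ≤ (Fintype.card ι) ^ k := Nat.choose_le_pow _ _
          _ ≤ (Fintype.card ι + 1) ^ k := Nat.pow_le_pow_left (Nat.le_succ _) _
          _ ≤ (Fintype.card ι + 1) ^ 3 := Nat.pow_le_pow_right (Nat.succ_pos _) hk
    _ = 4 * (Fintype.card ι + 1) ^ 3 := by
        rw [Finset.sum_const, e, smul_eq_mul]

theorem mem_pats {ι : Type} [Fintype ι] {F : ι → Fin 3 → ℝ} {A : Finset ι} (y : Fin 3 → ℝ)
    (h : ∀ i, i ∈ A ↔ 0 < ∑ z, F i z * y z) : A ∈ pats F := by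
  classical
  unfold pats
  rw [Finset.mem_filter]
  exact ⟨Finset.mem_univ _, y, h⟩

/-- The forms for the position of the points with respect to a line. -/
noncomputable def Fpt (p : Pt) : Fin 3 → ℝ := ![p.1, p.2, 1]

/-- The forms of a line. -/
noncomputable def Fln (k l : Pt) : Fin 3 → ℝ :=
  ![-(l.2 - k.2), l.1 - k.1, -(l.1 - k.1) * k.2 + k.1 * (l.2 - k.2)]

theorem orient_form (i j p : Pt) : orient i j p = ∑ z, Fpt p z * Fln i j z := by
  simp only [Fin.sum_univ_three, Fpt, Fln, Matrix.cons_val_zero, Matrix.cons_val_one, Matrix.cons_val]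
  unfold orient
  ring

theorem orient_form' (k l p : Pt) : orient k l p = ∑ z, Fln k l z * Fpt p z := by
  rw [orient_form]
  apply Finset.sum_congr rfl
  intro z _
  ring

theorem neg_form (F y : Fin 3 → ℝ) : - ∑ z, F z * y z = ∑ z, F z * (fun z => - y z) z := by
  rw [← Finset.sum_neg_distrib]
  apply Finset.sum_congr rfl
  intro z _
  ring

open Classical in
/-- The combination of eight sets. -/
noncomputable def comb8 {ι : Type} [Fintype ι]
    (t : Finset ι × Finset ι × Finset ι × Finset ι × Finset ι × Finset ι × Finset ι × Finset ι) : Finset ι :=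
  ((t.1 ∩ t.2.2.2.1) ∪ (t.2.1 ∩ t.2.2.1)) ∩
    ((t.2.2.2.2.1 ∩ t.2.2.2.2.2.2.2) ∪ (t.2.2.2.2.2.1 ∩ t.2.2.2.2.2.2.1))

theorem mul_neg_iff' (x y : ℝ) : x * y < 0 ↔ (0 < x ∧ 0 < -y) ∨ (0 < -x ∧ 0 < y) := by
  rw [mul_neg_iff, neg_pos, neg_pos]

/-- The number of traces. -/
theorem traces_card {V : Type} (P : V → Pt) {Y : Type} [Fintype Y]
    [DecidableEq Y] (ev : Y → V × V) (R : V → V → Finset Y)
    (hR : ∀ i j y, y ∈ R i j ↔ X P i j (ev y).1 (ev y).2) {ι : Type} [Fintype ι] [DecidableEq ι]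
    (u : ι → Y) :
    ((Pool.Agent.NH83.VN.traces {S | ∃ i j, S = R i j} u).ncard : ℝ) ≤
      ((4 * ((Fintype.card ι : ℝ) + 1) ^ 3) ^ 8) := by
  classical
  let Fk : ι → Fin 3 → ℝ := fun t => Fpt (P (ev (u t)).1)
  let Fl : ι → Fin 3 → ℝ := fun t => Fpt (P (ev (u t)).2)
  let G : ι → Fin 3 → ℝ := fun t => Fln (P (ev (u t)).1) (P (ev (u t)).2)
  let S : Finset (Finset ι × Finset ι × Finset ι × Finset ι × Finset ι × Finset ι × Finset ι × Finset ι) :=
    pats Fk ×ˢ pats Fk ×ˢ pats Fl ×ˢ pats Fl ×ˢ pats G ×ˢ pats G ×ˢ pats G ×ˢ pats G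
  have hsub : Pool.Agent.NH83.VN.traces {S | ∃ i j, S = R i j} u ⊆ (S.image comb8 : Finset (Finset ι)) := by
    rintro τ ⟨Q, ⟨i, j, rfl⟩, rfl⟩
    rw [Finset.mem_coe, Finset.mem_image]
    refine ⟨(Finset.univ.filter fun t => 0 < orient (P i) (P j) (P (ev (u t)).1),
      Finset.univ.filter fun t => 0 < - orient (P i) (P j) (P (ev (u t)).1),
      Finset.univ.filter fun t => 0 < orient (P i) (P j) (P (ev (u t)).2),
      Finset.univ.filter fun t => 0 < - orient (P i) (P j) (P (ev (u t)).2),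
      Finset.univ.filter fun t => 0 < orient (P (ev (u t)).1) (P (ev (u t)).2) (P i),
      Finset.univ.filter fun t => 0 < - orient (P (ev (u t)).1) (P (ev (u t)).2) (P i),
      Finset.univ.filter fun t => 0 < orient (P (ev (u t)).1) (P (ev (u t)).2) (P j),
      Finset.univ.filter fun t => 0 < - orient (P (ev (u t)).1) (P (ev (u t)).2) (P j)), ?_, ?_⟩
    · simp only [S, Finset.mem_product]
      refine ⟨mem_pats (Fln (P i) (P j)) ?_, mem_pats (fun z => - Fln (P i) (P j) z) ?_,
        mem_pats (Fln (P i) (P j)) ?_, mem_pats (fun z => - Fln (P i) (P j) z) ?_,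
        mem_pats (Fpt (P i)) ?_, mem_pats (fun z => - Fpt (P i) z) ?_,
        mem_pats (Fpt (P j)) ?_, mem_pats (fun z => - Fpt (P j) z) ?_⟩
      · intro t
        simp only [Finset.mem_filter, Finset.mem_univ, true_and]
        rw [orient_form]
      · intro t
        simp only [Finset.mem_filter, Finset.mem_univ, true_and]
        rw [orient_form, neg_form]
      · intro t
        simp only [Finset.mem_filter, Finset.mem_univ, true_and]
        rw [orient_form]
      · intro t
        simp only [Finset.mem_filter, Finset.mem_univ, true_and]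
        rw [orient_form, neg_form]
      · intro t
        simp only [Finset.mem_filter, Finset.mem_univ, true_and]
        rw [orient_form']
      · intro t
        simp only [Finset.mem_filter, Finset.mem_univ, true_and]
        rw [orient_form', neg_form]
      · intro t
        simp only [Finset.mem_filter, Finset.mem_univ, true_and]
        rw [orient_form']
      · intro t
        simp only [Finset.mem_filter, Finset.mem_univ, true_and]
        rw [orient_form', neg_form]
    · ext t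
      simp only [comb8, Finset.mem_inter, Finset.mem_union, Finset.mem_filter, Finset.mem_univ, true_and]
      rw [hR, X, Cr, mul_neg_iff', mul_neg_iff']
  have h1 : (Pool.Agent.NH83.VN.traces {S | ∃ i j, S = R i j} u).ncard ≤ (S.image comb8).card := by
    rw [← Set.ncard_coe_finset]
    exact Set.ncard_le_ncard hsub (Finset.finite_toSet _)
  have h2 : (S.image comb8).card ≤ (4 * (Fintype.card ι + 1) ^ 3) ^ 8 := by
    refine Finset.card_image_le.trans ?_
    simp only [S, Finset.card_product]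
    have a1 := pats_card Fk
    have a2 := pats_card Fl
    have a3 := pats_card G
    calc _ ≤ (4 * (Fintype.card ι + 1) ^ 3) * ((4 * (Fintype.card ι + 1) ^ 3) * ((4 * (Fintype.card ι + 1) ^ 3) *
        ((4 * (Fintype.card ι + 1) ^ 3) * ((4 * (Fintype.card ι + 1) ^ 3) * ((4 * (Fintype.card ι + 1) ^ 3) *
        ((4 * (Fintype.card ι + 1) ^ 3) * (4 * (Fintype.card ι + 1) ^ 3))))))) := by gcongr
      _ = _ := by ring
  have h3 := h1.trans h2
  calc ((Pool.Agent.NH83.VN.traces {S | ∃ i j, S = R i j} u).ncard : ℝ) ≤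
      (((4 * (Fintype.card ι + 1) ^ 3) ^ 8 : ℕ) : ℝ) := by exact_mod_cast h3
    _ = _ := by push_cast; ring

/-- The choice of `m`. -/
theorem ex_m (δ : ℝ) (hδ : 0 < δ) : ∃ m : ℕ,
    ((4 * (((m : ℝ) + m) + 1) ^ 3) ^ 8) * (2 : ℝ) ^ (-(δ * m / 2)) < δ / 2 := by
  have hr : |(2 : ℝ) ^ (-(δ / 2))| < 1 := by
    rw [abs_of_pos (by positivity)]
    exact Real.rpow_lt_one_of_one_lt_of_neg (by norm_num) (by linarith)
  have ht := tendsto_pow_const_mul_const_pow_of_abs_lt_one 24 hr
  have ht2 := ht.const_mul ((4 : ℝ) ^ 8 * 3 ^ 24)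
  rw [mul_zero] at ht2
  have hev := (ht2.eventually (gt_mem_nhds (half_pos hδ))).and (eventually_ge_atTop 1)
  obtain ⟨m, hm, hm1⟩ := hev.exists
  refine ⟨m, lt_of_le_of_lt ?_ hm⟩
  have hm1' : (1 : ℝ) ≤ m := by exact_mod_cast hm1
  have e1 : (2 : ℝ) ^ (-(δ * m / 2)) = ((2 : ℝ) ^ (-(δ / 2))) ^ m := by
    rw [← Real.rpow_natCast, ← Real.rpow_mul (by norm_num)]
    congr 1
    ring
  rw [e1]
  have e2 : (4 * (((m : ℝ) + m) + 1) ^ 3) ^ 8 ≤ (4 : ℝ) ^ 8 * 3 ^ 24 * (m : ℝ) ^ 24 := by
    calc (4 * (((m : ℝ) + m) + 1) ^ 3) ^ 8 ≤ (4 * (3 * (m : ℝ)) ^ 3) ^ 8 := by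
          gcongr
          linarith
      _ = _ := by ring
  calc _ ≤ ((4 : ℝ) ^ 8 * 3 ^ 24 * (m : ℝ) ^ 24) * ((2 : ℝ) ^ (-(δ / 2))) ^ m := by
        gcongr
    _ = _ := by ring

theorem mem_es' {V : Type} [Fintype V] {T : SimpleGraph V} {e : V × V} :
    e ∈ es T ↔ T.Adj e.1 e.2 := by simp [es]

/-- **NET**. -/
theorem net : S_NET := by
  classical
  intro δ hδ
  obtain ⟨m, hm⟩ := ex_m δ hδ
  refine ⟨2 * m, fun V _ P hP T => ?_⟩
  by_cases hne : (es T).Nonempty
  swap
  · rw [Finset.not_nonempty_iff_eq_empty] at hne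
    refine ⟨⊥, bot_le, ?_, ?_⟩
    · have : es (⊥ : SimpleGraph V) = ∅ := by
        rw [Finset.eq_empty_iff_forall_notMem]
        intro e h
        rw [mem_es'] at h
        exact h
      rw [this]
      simp
    · intro i j h
      exfalso
      obtain ⟨e, he⟩ := Finset.card_pos.1 h
      have h1 : e ∈ es T := by
        unfold xs at he
        unfold es
        rw [Finset.mem_filter] at he ⊢
        exact ⟨he.1, he.2.1⟩
      rw [hne] at h1
      simp at h1
  let Y : Type := {e // e ∈ es T}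
  have hYc : Fintype.card Y = (es T).card := Fintype.card_coe _
  let R : V → V → Finset Y := fun i j => Finset.univ.filter fun y => X P i j y.1.1 y.1.2
  have hR : ∀ i j y, y ∈ R i j ↔ X P i j y.1.1 y.1.2 := by
    intro i j y
    simp [R]
  have hRc : ∀ i j, (R i j).card = xn P T i j := by
    intro i j
    unfold xn
    rw [← Finset.card_map (Function.Embedding.subtype _)]
    congr 1
    ext e
    rw [Finset.mem_map]
    constructor
    · rintro ⟨y, hy, rfl⟩
      have h1 := (hR i j y).1 hy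
      have h2 := y.2
      unfold es at h2
      unfold xs
      rw [Finset.mem_filter] at h2 ⊢
      exact ⟨Finset.mem_univ _, h2.2, h1⟩
    · intro he
      unfold xs at he
      rw [Finset.mem_filter] at he
      refine ⟨⟨e, ?_⟩, ?_, rfl⟩
      · unfold es
        rw [Finset.mem_filter]
        exact ⟨Finset.mem_univ _, he.2.1⟩
      · rw [hR]
        exact he.2.2
  obtain ⟨a, ha⟩ := Pool.Agent.NH83.VN.eps_net (Y := Y) {S | ∃ i j, S = R i j} m
    (Φ := (4 * (((m : ℝ) + m) + 1) ^ 3) ^ 8) hδ (by rw [hYc]; exact Finset.card_pos.2 hne)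
    (fun u => by
      have := traces_card P (fun y : Y => y.1) R hR u
      rw [Fintype.card_sum, Fintype.card_fin] at this
      push_cast at this
      exact this) hm
  let E : SimpleGraph V := SimpleGraph.fromRel fun u v => ∃ i, (a i).1 = (u, v)
  have hadj : ∀ u v, E.Adj u v ↔ u ≠ v ∧ ((∃ i, (a i).1 = (u, v)) ∨ ∃ i, (a i).1 = (v, u)) := by
    intro u v
    exact SimpleGraph.fromRel_adj _ _ _
  have hmem : ∀ i, T.Adj (a i).1.1 (a i).1.2 := by
    intro i
    have := (a i).2
    unfold es at this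
    exact (Finset.mem_filter.1 this).2
  refine ⟨E, ?_, ?_, ?_⟩
  · intro u v h
    rw [hadj] at h
    rcases h.2 with ⟨i, hi⟩ | ⟨i, hi⟩
    · have := hmem i
      rw [hi] at this
      exact this
    · have := hmem i
      rw [hi] at this
      exact this.symm
  · have hsub : es E ⊆ (Finset.univ : Finset (Fin m × Bool)).image
        (fun t => if t.2 then (a t.1).1 else ((a t.1).1.2, (a t.1).1.1)) := by
      rintro ⟨u, v⟩ he
      rw [mem_es', hadj] at he
      rw [Finset.mem_image]
      rcases he.2 with ⟨i, hi⟩ | ⟨i, hi⟩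
      · exact ⟨(i, true), Finset.mem_univ _, by simp [hi]⟩
      · exact ⟨(i, false), Finset.mem_univ _, by simp [hi]⟩
    refine (Finset.card_le_card hsub).trans (Finset.card_image_le.trans ?_)
    rw [Finset.card_univ, Fintype.card_prod, Fintype.card_fin, Fintype.card_bool]
    omega
  · intro i j _ hij
    obtain ⟨t, ht⟩ := ha (R i j) ⟨i, j, rfl⟩ (by rw [hYc, hRc]; exact hij)
    refine ⟨(a t).1.1, (a t).1.2, ?_, (hR i j _).1 ht⟩
    rw [hadj]
    exact ⟨(hmem t).ne, Or.inl ⟨t, rfl⟩⟩

end Run7.h376.HT
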