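import Pool.Agent.Run7.h376.HT.LOC

/-!
# The piece ROWS
-/

set_option autoImplicit false

namespace Run7.h376.HT

open Run7.h397 Run7.h397.HT

section

variable {V : Type} {P : V → Pt}

theorem hgt_left (P : V → Pt) (u v : V) : hgt P u v (P u).1 = (P u).2 := by
  unfold hgt; simp

theorem hgt_right {u v : V} (h : (P u).1 < (P v).1) : hgt P u v (P v).1 = (P v).2 := by
  unfold hgt
  have : (P v).1 - (P u).1 ≠ 0 := by linarith
  rw [mul_div_assoc, mul_div_cancel₀ _ this]
  ring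

theorem hgt_aff (P : V → Pt) (u v : V) : ∃ m c : ℝ, ∀ x, hgt P u v x = m * x + c := by
  refine ⟨((P v).2 - (P u).2) / ((P v).1 - (P u).1),
    (P u).2 - (P u).1 * (((P v).2 - (P u).2) / ((P v).1 - (P u).1)), fun x => ?_⟩
  unfold hgt
  ring

theorem orient_hgt {u v : V} (h : (P u).1 < (P v).1) (z : Pt) :
    orient (P u) (P v) z = ((P v).1 - (P u).1) * (z.2 - hgt P u v z.1) := by
  unfold orient hgt
  have : (P v).1 - (P u).1 ≠ 0 := by linarith
  field_simp
  ring

theorem above_iff {u v : V} (h : (P u).1 < (P v).1) (z : Pt) :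
    0 < orient (P u) (P v) z ↔ hgt P u v z.1 < z.2 := by
  rw [orient_hgt h]
  constructor
  · intro h1
    have := (pos_iff_pos_of_mul_pos h1).1 (by linarith)
    linarith
  · intro h1
    exact mul_pos (by linarith) (by linarith)

/-- An affine function with values of both signs has values of opposite signs at the ends. -/
theorem aff_opp {α γ l r x₁ x₂ : ℝ} (h1 : 0 < α * x₁ + γ) (h2 : α * x₂ + γ ≤ 0) (a1 : l ≤ x₁)
    (a2 : x₁ ≤ r) (b1 : l ≤ x₂) (b2 : x₂ ≤ r) (hs : α * x₂ + γ < 0 ∨ (l < x₂ ∧ x₂ < r)) :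
    (α * l + γ) * (α * r + γ) < 0 := by
  rcases lt_trichotomy x₁ x₂ with h | h | h
  · have hα : α < 0 := by
      by_contra hc
      push Not at hc
      have := mul_nonneg hc (sub_nonneg.2 h.le)
      linarith
    have e1 : 0 < α * l + γ := by
      have := mul_nonneg (neg_nonneg.2 hα.le) (sub_nonneg.2 a1)
      linarith
    have e2 : α * r + γ < 0 := by
      rcases hs with hs | hs
      · have := mul_nonneg (neg_nonneg.2 hα.le) (sub_nonneg.2 b2)
        linarith
      · have := mul_pos (neg_pos.2 hα) (sub_pos.2 hs.2)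
        linarith
    exact mul_neg_of_pos_of_neg e1 e2
  · subst h
    linarith
  · have hα : 0 < α := by
      by_contra hc
      push Not at hc
      have := mul_nonneg (neg_nonneg.2 hc) (sub_nonneg.2 h.le)
      linarith
    have e1 : 0 < α * r + γ := by
      have := mul_nonneg hα.le (sub_nonneg.2 a2)
      linarith
    have e2 : α * l + γ < 0 := by
      rcases hs with hs | hs
      · have := mul_nonneg hα.le (sub_nonneg.2 b1)
        linarith
      · have := mul_pos hα (sub_pos.2 hs.1)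
        linarith
    exact mul_neg_of_neg_of_pos e2 e1

/-- Two edges which do not cross do not change their order. -/
theorem nc {E : SimpleGraph V} (hE : Plane P E) {u v s t : V} (huv : E.Adj u v) (hst : E.Adj s t)
    (h1 : (P u).1 < (P v).1) (h2 : (P s).1 < (P t).1) {x₁ x₂ : ℝ} (a1 : (P u).1 ≤ x₁) (a2 : x₁ ≤ (P v).1)
    (a3 : (P s).1 ≤ x₁) (a4 : x₁ ≤ (P t).1) (b1 : (P u).1 ≤ x₂) (b2 : x₂ ≤ (P v).1)
    (b3 : (P s).1 ≤ x₂) (b4 : x₂ ≤ (P t).1) (hp : hgt P u v x₁ < hgt P s t x₁)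
    (hn : hgt P s t x₂ ≤ hgt P u v x₂)
    (hs : hgt P s t x₂ < hgt P u v x₂ ∨ ((P u).1 < x₂ ∧ x₂ < (P v).1 ∧ (P s).1 < x₂ ∧ x₂ < (P t).1)) :
    False := by
  obtain ⟨m₁, c₁, hm₁⟩ := hgt_aff P u v
  obtain ⟨m₂, c₂, hm₂⟩ := hgt_aff P s t
  have ef : ∀ x, hgt P s t x - hgt P u v x = (m₂ - m₁) * x + (c₂ - c₁) := by
    intro x
    rw [hm₁, hm₂]; ring
  have k1 : 0 < (m₂ - m₁) * x₁ + (c₂ - c₁) := by rw [← ef]; linarith
  have k2 : (m₂ - m₁) * x₂ + (c₂ - c₁) ≤ 0 := by rw [← ef]; linarith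
  have w1 := aff_opp k1 k2 a1 a2 b1 b2 (by
    rcases hs with hs | hs
    · left; rw [← ef]; linarith
    · exact Or.inr ⟨hs.1, hs.2.1⟩)
  have w2 := aff_opp k1 k2 a3 a4 b3 b4 (by
    rcases hs with hs | hs
    · left; rw [← ef]; linarith
    · exact Or.inr ⟨hs.2.2.1, hs.2.2.2⟩)
  rw [← ef, ← ef] at w1 w2
  rw [hgt_left, hgt_right h1] at w1
  rw [hgt_left, hgt_right h2] at w2
  apply hE u v s t huv hst
  unfold X Cr
  rw [orient_hgt h1, orient_hgt h1, orient_hgt h2, orient_hgt h2]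
  have d1 : 0 < (P v).1 - (P u).1 := by linarith
  have d2 : 0 < (P t).1 - (P s).1 := by linarith
  constructor
  · have : ((P v).1 - (P u).1) * ((P s).2 - hgt P u v (P s).1) *
        (((P v).1 - (P u).1) * ((P t).2 - hgt P u v (P t).1)) =
        (((P v).1 - (P u).1) * ((P v).1 - (P u).1)) *
          (((P s).2 - hgt P u v (P s).1) * ((P t).2 - hgt P u v (P t).1)) := by ring
    rw [this]
    exact mul_neg_of_pos_of_neg (mul_pos d1 d1) w2
  · have : ((P t).1 - (P s).1) * ((P u).2 - hgt P s t (P u).1) *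
        (((P t).1 - (P s).1) * ((P v).2 - hgt P s t (P v).1)) =
        (((P t).1 - (P s).1) * ((P t).1 - (P s).1)) *
          ((hgt P s t (P u).1 - (P u).2) * (hgt P s t (P v).1 - (P v).2)) := by ring
    rw [this]
    exact mul_neg_of_pos_of_neg (mul_pos d2 d2) w1

/-- `(x, y)` is above the bottom `k`. -/
def abv (P : V → Pt) (k : Option (V × V)) (x y : ℝ) : Prop :=
  ∀ u v, k = some (u, v) → hgt P u v x < y

/-- Facts on the points of a row. -/
theorem inRow_facts (hD : DX P) {E : SimpleGraph V} {u v r : V} (h : InRow P E (some (u, v)) r) :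
    E.Adj u v ∧ (P u).1 < (P v).1 ∧ (P u).1 ≤ (P r).1 ∧ (P r).1 ≤ (P v).1 ∧
      hgt P u v (P r).1 ≤ (P r).2 ∧
      (r = u ∨ r = v ∨ ((P u).1 < (P r).1 ∧ (P r).1 < (P v).1 ∧ hgt P u v (P r).1 < (P r).2 ∧
        ∀ s t, E.Adj s t → Blw P s t r → hgt P s t (P r).1 ≤ hgt P u v (P r).1)) := by
  rcases h with h | ⟨u', v', huv, hadj, hlt, hr⟩
  · obtain ⟨h1, ⟨h2, h3, h4⟩, h5⟩ := h
    have h6 : (P u).1 < (P v).1 := h2.trans h3
    have h7 := (above_iff h6 _).1 h4
    exact ⟨h1, h6, h2.le, h3.le, h7.le, Or.inr (Or.inr ⟨h2, h3, h7, h5⟩)⟩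
  · simp only [Option.some.injEq, Prod.mk.injEq] at huv
    obtain ⟨rfl, rfl⟩ := huv
    rcases hr with rfl | rfl
    · exact ⟨hadj, hlt, le_rfl, hlt.le, (hgt_left P _ _).le, Or.inl rfl⟩
    · exact ⟨hadj, hlt, hlt.le, le_rfl, (hgt_right hlt).le, Or.inr (Or.inl rfl)⟩

/-- An edge above `k` cannot pass below a point of the row `k`. -/
theorem pass (hD : DX P) {E : SimpleGraph V} (hE : Plane P E) {k : Option (V × V)} {r s t : V}
    (hr : InRow P E k r) (hst : E.Adj s t) (h1 : (P s).1 < (P r).1) (h2 : (P r).1 < (P t).1)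
    (h3 : hgt P s t (P r).1 < (P r).2) {x₀ : ℝ} (hx3 : (P s).1 ≤ x₀) (hx4 : x₀ ≤ (P t).1)
    (hx : ∀ u v, k = some (u, v) → (P u).1 ≤ x₀ ∧ x₀ ≤ (P v).1) (habv : abv P k x₀ (hgt P s t x₀)) :
    False := by
  have hst' : (P s).1 < (P t).1 := h1.trans h2
  have hblw : Blw P s t r := ⟨h1, h2, (above_iff hst' _).2 h3⟩
  rcases k with _ | ⟨u, v⟩
  · rcases hr with hr | ⟨u, v, h, -⟩
    · exact hr s t hst hblw
    · exact absurd h (by simp)
  · obtain ⟨huv, h4, h5, h6, h7, h8⟩ := inRow_facts hD hr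
    obtain ⟨hx1, hx2⟩ := hx u v rfl
    have hab := habv u v rfl
    rcases h8 with rfl | rfl | ⟨h9, h10, h11, h12⟩
    · rw [← hgt_left P r v] at h3
      exact nc hE huv hst h4 hst' hx1 hx2 hx3 hx4 h5 h6 h1.le h2.le hab h3.le (Or.inl h3)
    · rw [← hgt_right h4] at h3
      exact nc hE huv hst h4 hst' hx1 hx2 hx3 hx4 h5 h6 h1.le h2.le hab h3.le (Or.inl h3)
    · exact nc hE huv hst h4 hst' hx1 hx2 hx3 hx4 h5 h6 h1.le h2.le hab (h12 s t hst hblw)
        (Or.inr ⟨h9, h10, h1, h2⟩)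

/-- The end `e` of an edge above `k` is above `k`. -/
theorem end_abv (hP : GP P) {E : SimpleGraph V} (hE : Plane P E) {k : Option (V × V)}
    {s t e : V} (hst : E.Adj s t) (hst' : (P s).1 < (P t).1) (he : e = s ∨ e = t) {x₀ : ℝ}
    (hx3 : (P s).1 ≤ x₀) (hx4 : x₀ ≤ (P t).1)
    (hk : ∀ u v, k = some (u, v) → E.Adj u v ∧ (P u).1 < (P v).1 ∧ (P u).1 ≤ x₀ ∧ x₀ ≤ (P v).1 ∧
      (P u).1 < (P e).1 ∧ (P e).1 < (P v).1)
    (habv : abv P k x₀ (hgt P s t x₀)) : abv P k (P e).1 (P e).2 := by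
  intro u v huvk
  obtain ⟨huv, h4, hx1, hx2, g1, g2⟩ := hk u v huvk
  have hab := habv u v huvk
  have hes : hgt P s t (P e).1 = (P e).2 := by
    rcases he with rfl | rfl
    · exact hgt_left P _ _
    · exact hgt_right hst'
  have hb : (P s).1 ≤ (P e).1 ∧ (P e).1 ≤ (P t).1 := by
    rcases he with rfl | rfl
    · exact ⟨le_rfl, hst'.le⟩
    · exact ⟨hst'.le, le_rfl⟩
  rw [← hes]
  by_contra hc
  push Not at hc
  rcases hc.lt_or_eq with h | h
  · exact nc hE huv hst h4 hst' hx1 hx2 hx3 hx4 g1.le g2.le hb.1 hb.2 hab h.le (Or.inl h)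
  · have hne1 : u ≠ e := by rintro rfl; exact lt_irrefl _ g1
    have hne2 : v ≠ e := by rintro rfl; exact lt_irrefl _ g2
    apply hP.col u v e huv.ne hne1 hne2
    rw [orient_hgt h4, ← hes, h]
    ring

/-- The right end of an edge between `k` and a line. -/
theorem el_r (hP : GP P) (hD : DX P) {E : SimpleGraph V} (hE : Plane P E) {k : Option (V × V)}
    {p q s t : V} {x₀ m c : ℝ} (hp : InRow P E k p) (hq : InRow P E k q)
    (hst : E.Adj s t) (hst' : (P s).1 < (P t).1) (hx1 : (P p).1 < x₀) (hx2 : x₀ < (P q).1)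
    (hx3 : (P s).1 ≤ x₀) (hx4 : x₀ ≤ (P t).1) (habv : abv P k x₀ (hgt P s t x₀))
    (hq' : m * (P q).1 + c ≤ (P q).2)
    (hDD : ∀ x, x₀ ≤ x → (x = (P t).1 ∨ x = (P q).1) → hgt P s t x < m * x + c) :
    ∃ e, (P p).1 < (P e).1 ∧ (P e).1 < (P q).1 ∧ abv P k (P e).1 (P e).2 ∧
      (P e).2 < m * (P e).1 + c := by
  rcases lt_trichotomy (P t).1 (P q).1 with h | h | h
  · refine ⟨t, by linarith, h, end_abv hP hE hst hst' (Or.inr rfl) hx3 hx4 ?_ habv, ?_⟩
    · intro u v hk
      subst hk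
      obtain ⟨a1, a2, a3, a4, -⟩ := inRow_facts hD hp
      obtain ⟨-, -, b3, b4, -⟩ := inRow_facts hD hq
      exact ⟨a1, a2, by linarith, by linarith, by linarith, by linarith⟩
    · have := hDD (P t).1 hx4 (Or.inl rfl)
      rw [hgt_right hst'] at this
      exact this
  · exfalso
    have htq : t = q := by
      by_contra hne
      exact hD t q hne h
    subst htq
    have := hDD (P t).1 hx4 (Or.inl rfl)
    rw [hgt_right hst'] at this
    linarith
  · exfalso
    have h3 := hDD (P q).1 hx2.le (Or.inr rfl)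
    refine pass hD hE hq hst (by linarith) h (by linarith) hx3 hx4 ?_ habv
    intro u v hk
    subst hk
    obtain ⟨a1, a2, a3, a4, -⟩ := inRow_facts hD hp
    obtain ⟨-, -, b3, b4, -⟩ := inRow_facts hD hq
    exact ⟨by linarith, by linarith⟩

/-- The left end of an edge between `k` and a line. -/
theorem el_l (hP : GP P) (hD : DX P) {E : SimpleGraph V} (hE : Plane P E) {k : Option (V × V)}
    {p q s t : V} {x₀ m c : ℝ} (hp : InRow P E k p) (hq : InRow P E k q)
    (hst : E.Adj s t) (hst' : (P s).1 < (P t).1) (hx1 : (P p).1 < x₀) (hx2 : x₀ < (P q).1)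
    (hx3 : (P s).1 ≤ x₀) (hx4 : x₀ ≤ (P t).1) (habv : abv P k x₀ (hgt P s t x₀))
    (hp' : m * (P p).1 + c ≤ (P p).2)
    (hDD : ∀ x, x ≤ x₀ → (x = (P s).1 ∨ x = (P p).1) → hgt P s t x < m * x + c) :
    ∃ e, (P p).1 < (P e).1 ∧ (P e).1 < (P q).1 ∧ abv P k (P e).1 (P e).2 ∧
      (P e).2 < m * (P e).1 + c := by
  rcases lt_trichotomy (P s).1 (P p).1 with h | h | h
  · exfalso
    have h3 := hDD (P p).1 hx1.le (Or.inr rfl)
    refine pass hD hE hp hst h (by linarith) (by linarith) hx3 hx4 ?_ habv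
    intro u v hk
    subst hk
    obtain ⟨a1, a2, a3, a4, -⟩ := inRow_facts hD hp
    obtain ⟨-, -, b3, b4, -⟩ := inRow_facts hD hq
    exact ⟨by linarith, by linarith⟩
  · exfalso
    have htq : s = p := by
      by_contra hne
      exact hD s p hne h
    subst htq
    have := hDD (P s).1 hx3 (Or.inl rfl)
    rw [hgt_left] at this
    linarith
  · refine ⟨s, h, by linarith, end_abv hP hE hst hst' (Or.inl rfl) hx3 hx4 ?_ habv, ?_⟩
    · intro u v hk
      subst hk
      obtain ⟨a1, a2, a3, a4, -⟩ := inRow_facts hD hp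
      obtain ⟨-, -, b3, b4, -⟩ := inRow_facts hD hq
      exact ⟨a1, a2, by linarith, by linarith, by linarith, by linarith⟩
    · have := hDD (P s).1 hx3 (Or.inl rfl)
      rw [hgt_left] at this
      exact this

/-- Both cases. -/
theorem el (hP : GP P) (hD : DX P) {E : SimpleGraph V} (hE : Plane P E) {k : Option (V × V)}
    {p q s t : V} {x₀ m c : ℝ} (hp : InRow P E k p) (hq : InRow P E k q)
    (hst : E.Adj s t) (hst' : (P s).1 < (P t).1) (hx1 : (P p).1 < x₀) (hx2 : x₀ < (P q).1)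
    (hx3 : (P s).1 ≤ x₀) (hx4 : x₀ ≤ (P t).1) (habv : abv P k x₀ (hgt P s t x₀))
    (hp' : m * (P p).1 + c ≤ (P p).2) (hq' : m * (P q).1 + c ≤ (P q).2)
    (hlt : hgt P s t x₀ < m * x₀ + c) :
    ∃ e, (P p).1 < (P e).1 ∧ (P e).1 < (P q).1 ∧ abv P k (P e).1 (P e).2 ∧
      (P e).2 < m * (P e).1 + c := by
  obtain ⟨m', c', hm⟩ := hgt_aff P s t
  rcases le_total m' m with h | h
  · refine el_r hP hD hE hp hq hst hst' hx1 hx2 hx3 hx4 habv hq' fun x hx _ => ?_
    rw [hm] at hlt ⊢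
    have := mul_nonneg (sub_nonneg.2 h) (sub_nonneg.2 hx)
    linarith
  · refine el_l hP hD hE hp hq hst hst' hx1 hx2 hx3 hx4 habv hp' fun x hx _ => ?_
    rw [hm] at hlt ⊢
    have := mul_nonneg (sub_nonneg.2 h) (sub_nonneg.2 hx)
    linarith

/-- The data of two consecutive points. -/
def Cons (P : V → Pt) (E : SimpleGraph V) (k : Option (V × V)) (p q : V) : Prop :=
  InRow P E k p ∧ InRow P E k q ∧ (P p).1 < (P q).1 ∧
    ∀ r, InRow P E k r → ¬ ((P p).1 < (P r).1 ∧ (P r).1 < (P q).1)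

/-- There is no vertex between `k` and `p q`. -/
theorem no_w [Fintype V] (hP : GP P) (hD : DX P) {E : SimpleGraph V} (hE : Plane P E)
    {k : Option (V × V)} {p q : V} (hC : Cons P E k p q) {z₀ : V} (h1 : (P p).1 < (P z₀).1)
    (h2 : (P z₀).1 < (P q).1) (h3 : abv P k (P z₀).1 (P z₀).2) :
    ¬ (P z₀).2 < hgt P p q (P z₀).1 := by
  classical
  intro h4
  obtain ⟨hp, hq, hpq, hcons⟩ := hC
  have hd : 0 < (P q).1 - (P p).1 := by linarith
  obtain ⟨σ, hσ⟩ : ∃ σ, σ = ((P q).2 - (P p).2) / ((P q).1 - (P p).1) := ⟨_, rfl⟩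
  have hσ2 : σ * ((P q).1 - (P p).1) = (P q).2 - (P p).2 := by
    rw [hσ, div_mul_cancel₀ _ hd.ne']
  have hh : ∀ x, hgt P p q x = (P p).2 + (x - (P p).1) * σ := by
    intro x
    rw [hσ]
    unfold hgt
    ring
  obtain ⟨z, hz, hmin⟩ := (Finset.univ.filter fun z : V => (P p).1 < (P z).1 ∧ (P z).1 < (P q).1 ∧
    abv P k (P z).1 (P z).2 ∧ (P z).2 < hgt P p q (P z).1).exists_min_image
    (fun z => ((P z).2 - (P p).2) / ((P z).1 - (P p).1)) ⟨z₀, by simp [h1, h2, h3, h4]⟩
  simp only [Finset.mem_filter, Finset.mem_univ, true_and] at hz hmin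
  obtain ⟨z1, z2, z3, z4⟩ := hz
  obtain ⟨m, hm⟩ : ∃ m, m = ((P z).2 - (P p).2) / ((P z).1 - (P p).1) := ⟨_, rfl⟩
  have hzp : 0 < (P z).1 - (P p).1 := by linarith
  have hm2 : m * ((P z).1 - (P p).1) = (P z).2 - (P p).2 := by
    rw [hm, div_mul_cancel₀ _ hzp.ne']
  rw [← hm] at hmin
  have hmσ : m < σ := by
    rw [hh] at z4
    by_contra hc
    push Not at hc
    have := mul_nonneg (sub_nonneg.2 hc) hzp.le
    linarith
  have key : ∀ s t, E.Adj s t → Blw P s t z → abv P k (P z).1 (hgt P s t (P z).1) → False := by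
    intro s t hst hblw habv
    obtain ⟨b1, b2, b3⟩ := hblw
    have hst' := b1.trans b2
    have b4 := (above_iff hst' _).1 b3
    have e1 : m * (P p).1 + ((P p).2 - m * (P p).1) ≤ (P p).2 := by linarith
    have e2 : m * (P q).1 + ((P p).2 - m * (P p).1) ≤ (P q).2 := by
      have := mul_nonneg (sub_nonneg.2 hmσ.le) hd.le
      linarith
    have e3 : hgt P s t (P z).1 < m * (P z).1 + ((P p).2 - m * (P p).1) := by linarith
    obtain ⟨e, f1, f2, f3, f4⟩ := el hP hD hE hp hq hst hst' z1 z2 b1.le b2.le habv e1 e2 e3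
    have hep : 0 < (P e).1 - (P p).1 := by linarith
    have f5 : (P e).2 < hgt P p q (P e).1 := by
      rw [hh]
      have := mul_pos (sub_pos.2 hmσ) hep
      linarith
    have f6 := hmin e ⟨f1, f2, f3, f5⟩
    rw [le_div_iff₀ hep] at f6
    linarith
  apply hcons z _ ⟨z1, z2⟩
  left
  rcases k with _ | ⟨u, v⟩
  · intro s t hst hblw
    exact key s t hst hblw (fun u v h => absurd h (by simp))
  · obtain ⟨a1, a2, a3, a4, -⟩ := inRow_facts hD hp
    obtain ⟨-, -, b3, b4, -⟩ := inRow_facts hD hq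
    refine ⟨a1, ⟨by linarith, by linarith, (above_iff a2 _).2 (z3 u v rfl)⟩, ?_⟩
    intro s t hst hblw
    by_contra hc
    push Not at hc
    apply key s t hst hblw
    intro u' v' h
    simp only [Option.some.injEq, Prod.mk.injEq] at h
    obtain ⟨rfl, rfl⟩ := h
    exact hc

/-- There is no edge between `k` and `p q`. -/
theorem no_e [Fintype V] (hP : GP P) (hD : DX P) {E : SimpleGraph V} (hE : Plane P E)
    {k : Option (V × V)} {p q s t : V} (hC : Cons P E k p q) (hst : E.Adj s t)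
    (hst' : (P s).1 < (P t).1) {x₀ : ℝ} (hx1 : (P p).1 < x₀) (hx2 : x₀ < (P q).1)
    (hx3 : (P s).1 ≤ x₀) (hx4 : x₀ ≤ (P t).1) (habv : abv P k x₀ (hgt P s t x₀)) :
    ¬ hgt P s t x₀ < hgt P p q x₀ := by
  intro h
  obtain ⟨m, c, hm⟩ := hgt_aff P p q
  have hpq := hC.2.2.1
  rw [hm] at h
  obtain ⟨e, f1, f2, f3, f4⟩ := el hP hD hE hC.1 hC.2.1 hst hst' hx1 hx2 hx3 hx4 habv
    (by rw [← hm, hgt_left]) (by rw [← hm, hgt_right hpq]) h
  rw [← hm] at f4
  exact no_w hP hD hE hC f1 f2 f3 f4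

/-- The crossing point. -/
theorem x_pt {p q s t : V} (h1 : (P p).1 < (P q).1) (h2 : (P s).1 < (P t).1) (hX : X P p q s t) :
    ∃ x₀ α : ℝ, α ≠ 0 ∧ (∀ x, hgt P s t x - hgt P p q x = α * (x - x₀)) ∧ (P p).1 < x₀ ∧ x₀ < (P q).1 ∧
      (P s).1 < x₀ ∧ x₀ < (P t).1 := by
  obtain ⟨m₁, c₁, hm₁⟩ := hgt_aff P p q
  obtain ⟨m₂, c₂, hm₂⟩ := hgt_aff P s t
  have ef : ∀ x, hgt P s t x - hgt P p q x = (m₂ - m₁) * x + (c₂ - c₁) := by
    intro x
    rw [hm₁, hm₂]; ring
  obtain ⟨w1, w2⟩ := hX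
  rw [orient_hgt h1, orient_hgt h1] at w1
  rw [orient_hgt h2, orient_hgt h2] at w2
  have d1 : 0 < (P q).1 - (P p).1 := by linarith
  have d2 : 0 < (P t).1 - (P s).1 := by linarith
  have w1' : (hgt P s t (P s).1 - hgt P p q (P s).1) * (hgt P s t (P t).1 - hgt P p q (P t).1) < 0 := by
    rw [hgt_left, hgt_right h2]
    have : ((P q).1 - (P p).1) * ((P s).2 - hgt P p q (P s).1) *
        (((P q).1 - (P p).1) * ((P t).2 - hgt P p q (P t).1)) =
        (((P q).1 - (P p).1) * ((P q).1 - (P p).1)) *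
          (((P s).2 - hgt P p q (P s).1) * ((P t).2 - hgt P p q (P t).1)) := by ring
    rw [this] at w1
    exact (pos_iff_neg_of_mul_neg w1).1 (mul_pos d1 d1)
  have w2' : (hgt P s t (P p).1 - hgt P p q (P p).1) * (hgt P s t (P q).1 - hgt P p q (P q).1) < 0 := by
    rw [hgt_left, hgt_right h1]
    have : ((P t).1 - (P s).1) * ((P p).2 - hgt P s t (P p).1) *
        (((P t).1 - (P s).1) * ((P q).2 - hgt P s t (P q).1)) =
        (((P t).1 - (P s).1) * ((P t).1 - (P s).1)) *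
          ((hgt P s t (P p).1 - (P p).2) * (hgt P s t (P q).1 - (P q).2)) := by ring
    rw [this] at w2
    exact (pos_iff_neg_of_mul_neg w2).1 (mul_pos d2 d2)
  have hα : m₂ - m₁ ≠ 0 := by
    intro h0
    rw [ef, ef, h0] at w1'
    nlinarith [mul_self_nonneg (c₂ - c₁)]
  obtain ⟨x₀, hx₀⟩ : ∃ x₀, x₀ = -(c₂ - c₁) / (m₂ - m₁) := ⟨_, rfl⟩
  have hx₀' : (m₂ - m₁) * x₀ = -(c₂ - c₁) := by rw [hx₀, mul_div_cancel₀ _ hα]
  have ef' : ∀ x, hgt P s t x - hgt P p q x = (m₂ - m₁) * (x - x₀) := by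
    intro x
    rw [ef]
    linarith
  have hsq : 0 < (m₂ - m₁) * (m₂ - m₁) := mul_self_pos.2 hα
  have aux : ∀ l r : ℝ, l < r → (hgt P s t l - hgt P p q l) * (hgt P s t r - hgt P p q r) < 0 →
      l < x₀ ∧ x₀ < r := by
    intro l r hlr h
    rw [ef', ef'] at h
    have e : (m₂ - m₁) * (l - x₀) * ((m₂ - m₁) * (r - x₀)) =
      ((m₂ - m₁) * (m₂ - m₁)) * ((l - x₀) * (r - x₀)) := by ring
    rw [e] at h
    have h' := (pos_iff_neg_of_mul_neg h).1 hsq
    rcases neg_cases h' with ⟨a, b⟩ | ⟨a, b⟩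
    · exact ⟨by linarith, by linarith⟩
    · linarith
  obtain ⟨g1, g2⟩ := aux _ _ h2 w1'
  obtain ⟨g3, g4⟩ := aux _ _ h1 w2'
  exact ⟨x₀, m₂ - m₁, hα, ef', g3, g4, g1, g2⟩

/-- The segment between points of a row is above `k`. -/
theorem row_above (hD : DX P) {E : SimpleGraph V} {k : Option (V × V)} {p q : V}
    (hp : InRow P E k p) (hq : InRow P E k q) (hpq : (P p).1 < (P q).1) (hn : ¬ E.Adj p q) {x₀ : ℝ}
    (hx1 : (P p).1 < x₀) (hx2 : x₀ < (P q).1) : abv P k x₀ (hgt P p q x₀) := by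
  intro u v hk
  subst hk
  obtain ⟨a1, a2, a3, a4, a5, a6⟩ := inRow_facts hD hp
  obtain ⟨-, -, b3, b4, b5, b6⟩ := inRow_facts hD hq
  obtain ⟨m₁, c₁, hm₁⟩ := hgt_aff P p q
  obtain ⟨m₂, c₂, hm₂⟩ := hgt_aff P u v
  have hpe : hgt P p q (P p).1 = (P p).2 := hgt_left P _ _
  have hqe : hgt P p q (P q).1 = (P q).2 := hgt_right hpq
  have e1 : 0 ≤ hgt P p q (P p).1 - hgt P u v (P p).1 := by rw [hpe]; linarith
  have e2 : 0 ≤ hgt P p q (P q).1 - hgt P u v (P q).1 := by rw [hqe]; linarith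
  have hstrict : 0 < hgt P p q (P p).1 - hgt P u v (P p).1 ∨
      0 < hgt P p q (P q).1 - hgt P u v (P q).1 := by
    rcases a6 with rfl | rfl | a6
    · rcases b6 with rfl | rfl | b6
      · linarith
      · exact absurd a1 hn
      · right; rw [hqe]; linarith [b6.2.2.1]
    · linarith
    · left; rw [hpe]; linarith [a6.2.2.1]
  have hid : ((P q).1 - (P p).1) * (hgt P p q x₀ - hgt P u v x₀) =
      ((P q).1 - x₀) * (hgt P p q (P p).1 - hgt P u v (P p).1) +
      (x₀ - (P p).1) * (hgt P p q (P q).1 - hgt P u v (P q).1) := by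
    rw [hm₁, hm₁, hm₁, hm₂, hm₂, hm₂]; ring
  have hpos : 0 < ((P q).1 - (P p).1) * (hgt P p q x₀ - hgt P u v x₀) := by
    rw [hid]
    rcases hstrict with h | h
    · have g1 := mul_pos (sub_pos.2 hx2) h
      have g2 := mul_nonneg (sub_nonneg.2 hx1.le) e2
      linarith
    · have g1 := mul_nonneg (sub_nonneg.2 hx2.le) e1
      have g2 := mul_pos (sub_pos.2 hx1) h
      linarith
  have := (pos_iff_pos_of_mul_pos hpos).1 (by linarith)
  linarith

/-- **(A)** A row does not cross an edge. -/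
theorem row_edge [Fintype V] (hP : GP P) (hD : DX P) {E : SimpleGraph V} (hE : Plane P E)
    {k : Option (V × V)} {p q s t : V} (hC : Cons P E k p q) (hst : E.Adj s t) : ¬ X P p q s t := by
  have main : ∀ s t : V, E.Adj s t → (P s).1 < (P t).1 → ¬ X P p q s t := by
    intro s t hst hst' hX
    have hpq := hC.2.2.1
    by_cases hn : E.Adj p q
    · exact hE p q s t hn hst hX
    obtain ⟨x₀, α, hα, hf, g1, g2, g3, g4⟩ := x_pt hpq hst' hX
    have heq : hgt P s t x₀ = hgt P p q x₀ := by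
      have := hf x₀
      rw [sub_self, mul_zero] at this
      linarith
    have habv : abv P k x₀ (hgt P s t x₀) := by
      rw [heq]
      exact row_above hD hC.1 hC.2.1 hpq hn g1 g2
    obtain ⟨m, c, hm⟩ := hgt_aff P p q
    rcases lt_or_gt_of_ne hα with h | h
    · obtain ⟨e, f1, f2, f3, f4⟩ := el_r hP hD hE (m := m) (c := c) hC.1 hC.2.1 hst hst' g1 g2 g3.le g4.le
        habv (by rw [← hm, hgt_right hpq]) (by
          intro x hx hx'
          have hlt : x₀ < x := by
            rcases hx' with rfl | rfl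
            · exact g4
            · exact g2
          have h1 := hf x
          have h2 := mul_pos (neg_pos.2 h) (sub_pos.2 hlt)
          rw [← hm]
          linarith)
      rw [← hm] at f4
      exact no_w hP hD hE hC f1 f2 f3 f4
    · obtain ⟨e, f1, f2, f3, f4⟩ := el_l hP hD hE (m := m) (c := c) hC.1 hC.2.1 hst hst' g1 g2 g3.le g4.le
        habv (by rw [← hm, hgt_left]) (by
          intro x hx hx'
          have hlt : x < x₀ := by
            rcases hx' with rfl | rfl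
            · exact g3
            · exact g1
          have h1 := hf x
          have h2 := mul_pos h (sub_pos.2 hlt)
          rw [← hm]
          linarith)
      rw [← hm] at f4
      exact no_w hP hD hE hC f1 f2 f3 f4
  intro hX
  rcases lt_or_gt_of_ne (hD s t hst.ne) with h | h
  · exact main s t hst h hX
  · exact main t s hst.symm h ((cr_swap2 _ _ _ _).1 hX)

/-- Two edges with the same height at an inner point are equal. -/
theorem same_edge (hP : GP P) {E : SimpleGraph V} (hE : Plane P E) {u v s t : V}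
    (huv : E.Adj u v) (hst : E.Adj s t) (h1 : (P u).1 < (P v).1) (h2 : (P s).1 < (P t).1) {x₀ : ℝ}
    (a1 : (P u).1 < x₀) (a2 : x₀ < (P v).1) (a3 : (P s).1 < x₀) (a4 : x₀ < (P t).1)
    (heq : hgt P u v x₀ = hgt P s t x₀) : u = s ∧ v = t := by
  -- the two lines coincide
  obtain ⟨m₁, c₁, hm₁⟩ := hgt_aff P u v
  obtain ⟨m₂, c₂, hm₂⟩ := hgt_aff P s t
  -- the order on the overlap is constant, in both directions
  have hm : m₁ = m₂ := by
    by_contra hne
    -- a point `x₁` of the overlap to the right of `x₀`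
    obtain ⟨x₁, hx₁⟩ : ∃ x₁, x₁ = min (P v).1 (P t).1 := ⟨_, rfl⟩
    have b1 : x₀ < x₁ := by rw [hx₁]; exact lt_min a2 a4
    have b2 : x₁ ≤ (P v).1 := by rw [hx₁]; exact min_le_left _ _
    have b3 : x₁ ≤ (P t).1 := by rw [hx₁]; exact min_le_right _ _
    rw [hm₁, hm₂] at heq
    rcases lt_or_gt_of_ne hne with h | h
    · have h3 : hgt P u v x₁ < hgt P s t x₁ := by
        rw [hm₁, hm₂]
        have := mul_pos (sub_pos.2 h) (sub_pos.2 b1)
        linarith
      refine nc hE huv hst h1 h2 (x₁ := x₁) (x₂ := x₀) (by linarith) b2 (by linarith) b3 a1.le a2.le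
        a3.le a4.le h3 ?_ (Or.inr ⟨a1, a2, a3, a4⟩)
      rw [hm₁, hm₂]; linarith
    · have h3 : hgt P s t x₁ < hgt P u v x₁ := by
        rw [hm₁, hm₂]
        have := mul_pos (sub_pos.2 h) (sub_pos.2 b1)
        linarith
      refine nc hE hst huv h2 h1 (x₁ := x₁) (x₂ := x₀) (by linarith) b3 (by linarith) b2 a3.le a4.le
        a1.le a2.le h3 ?_ (Or.inr ⟨a3, a4, a1, a2⟩)
      rw [hm₁, hm₂]; linarith
  have hc : c₁ = c₂ := by
    rw [hm₁, hm₂, hm] at heq
    linarith
  have hall : ∀ x, hgt P u v x = hgt P s t x := by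
    intro x
    rw [hm₁, hm₂, hm, hc]
  constructor
  · by_contra hne
    have hvs : v ≠ s := by rintro rfl; linarith
    apply hP.col u v s huv.ne hne hvs
    rw [orient_hgt h1, hall, hgt_left]
    ring
  · by_contra hne
    have hut : u ≠ t := by rintro rfl; linarith
    apply hP.col u v t huv.ne hut hne
    rw [orient_hgt h1, hall, hgt_right h2]
    ring

/-- **(B)** Two rows do not cross. -/
theorem row_row [Fintype V] (hP : GP P) (hD : DX P) {E : SimpleGraph V} (hE : Plane P E)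
    {k k' : Option (V × V)} {p q p' q' : V} (hC : Cons P E k p q) (hC' : Cons P E k' p' q') :
    ¬ X P p q p' q' := by
  intro hX
  by_cases hn : E.Adj p q
  · exact row_edge hP hD hE hC' hn ((cr_comm _ _ _ _).1 hX)
  by_cases hn' : E.Adj p' q'
  · exact row_edge hP hD hE hC hn' hX
  have hpq := hC.2.2.1
  have hpq' := hC'.2.2.1
  obtain ⟨x₀, α, hα, hf, g1, g2, g3, g4⟩ := x_pt hpq hpq' hX
  have heq : hgt P p' q' x₀ = hgt P p q x₀ := by
    have := hf x₀
    rw [sub_self, mul_zero] at this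
    linarith
  have ab := row_above hD hC.1 hC.2.1 hpq hn g1 g2
  have ab' := row_above hD hC'.1 hC'.2.1 hpq' hn' g3 g4
  -- the bottoms coincide
  have hkk : k = k' := by
    rcases k with _ | ⟨u, v⟩
    · rcases k' with _ | ⟨u', v'⟩
      · rfl
      · exfalso
        obtain ⟨a1, a2, a3, a4, -⟩ := inRow_facts hD hC'.1
        obtain ⟨-, -, b3, b4, -⟩ := inRow_facts hD hC'.2.1
        refine no_e hP hD hE hC a1 a2 g1 g2 (by linarith) (by linarith)
          (fun _ _ h => absurd h (by simp)) ?_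
        rw [← heq]
        exact ab' u' v' rfl
    · obtain ⟨a1, a2, a3, a4, -⟩ := inRow_facts hD hC.1
      obtain ⟨-, -, b3, b4, -⟩ := inRow_facts hD hC.2.1
      rcases k' with _ | ⟨u', v'⟩
      · exfalso
        refine no_e hP hD hE hC' a1 a2 g3 g4 (by linarith) (by linarith)
          (fun _ _ h => absurd h (by simp)) ?_
        rw [heq]
        exact ab u v rfl
      · obtain ⟨a1', a2', a3', a4', -⟩ := inRow_facts hD hC'.1
        obtain ⟨-, -, b3', b4', -⟩ := inRow_facts hD hC'.2.1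
        have hle1 : hgt P u' v' x₀ ≤ hgt P u v x₀ := by
          by_contra hc
          push Not at hc
          refine no_e hP hD hE hC a1' a2' g1 g2 (by linarith) (by linarith) ?_ ?_
          · intro u₁ v₁ h
            simp only [Option.some.injEq, Prod.mk.injEq] at h
            obtain ⟨rfl, rfl⟩ := h
            exact hc
          · rw [← heq]
            exact ab' u' v' rfl
        have hle2 : hgt P u v x₀ ≤ hgt P u' v' x₀ := by
          by_contra hc
          push Not at hc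
          refine no_e hP hD hE hC' a1 a2 g3 g4 (by linarith) (by linarith) ?_ ?_
          · intro u₁ v₁ h
            simp only [Option.some.injEq, Prod.mk.injEq] at h
            obtain ⟨rfl, rfl⟩ := h
            exact hc
          · rw [heq]
            exact ab u v rfl
        obtain ⟨e1, e2⟩ := same_edge hP hE a1 a1' a2 a2' (x₀ := x₀) (by linarith) (by linarith)
          (by linarith) (by linarith) (le_antisymm hle2 hle1)
        rw [e1, e2]
  subst hkk
  have h1 : (P p').1 ≤ (P p).1 := by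
    by_contra hc
    push Not at hc
    exact hC.2.2.2 p' hC'.1 ⟨hc, by linarith⟩
  have h2 : (P p).1 ≤ (P p').1 := by
    by_contra hc
    push Not at hc
    exact hC'.2.2.2 p hC.1 ⟨hc, by linarith⟩
  have hpp : p = p' := by
    by_contra hne
    exact hD p p' hne (le_antisymm h2 h1)
  subst hpp
  exact not_cr_left _ _ _ hX

/-- **ROWS**. -/
theorem rows : S_ROWS := by
  intro V _ P hP hD E hE i j k l hij hkl hX
  have conv : ∀ i j, (rowG P E).Adj i j → E.Adj i j ∨ RowAdj P E i j ∨ RowAdj P E j i := by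
    intro i j h
    unfold rowG at h
    rw [SimpleGraph.sup_adj, SimpleGraph.fromRel_adj] at h
    rcases h with h | h
    · exact Or.inl h
    · exact Or.inr h.2
  have eA : ∀ p q s t, RowAdj P E p q → E.Adj s t → ¬ X P p q s t := by
    rintro p q s t ⟨k, hk⟩ hst
    exact row_edge hP hD hE hk hst
  have eB : ∀ p q s t, RowAdj P E p q → RowAdj P E s t → ¬ X P p q s t := by
    rintro p q s t ⟨k, hk⟩ ⟨k', hk'⟩
    exact row_row hP hD hE hk hk'
  rcases conv i j hij with h | h | h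
  · rcases conv k l hkl with h' | h' | h'
    · exact hE i j k l h h' hX
    · exact eA k l i j h' h ((cr_comm _ _ _ _).1 hX)
    · exact eA l k i j h' h ((cr_comm _ _ _ _).1 ((cr_swap2 _ _ _ _).1 hX))
  · rcases conv k l hkl with h' | h' | h'
    · exact eA i j k l h h' hX
    · exact eB i j k l h h' hX
    · exact eB i j l k h h' ((cr_swap2 _ _ _ _).1 hX)
  · rcases conv k l hkl with h' | h' | h'
    · exact eA j i k l h h' ((cr_swap1 _ _ _ _).1 hX)
    · exact eB j i k l h h' ((cr_swap1 _ _ _ _).1 hX)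
    · exact eB j i l k h h' ((cr_swap2 _ _ _ _).1 ((cr_swap1 _ _ _ _).1 hX))

end

end Run7.h376.HT
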