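import Pool.Agent.Run7.h376.HT.FACE

/-!
# The pieces SEC and CONV
-/

set_option autoImplicit false

namespace Run7.h376.HT

open Run7.h397 Run7.h397.HT

/-- **SEC**. -/
theorem sec : S_SEC := by
  classical
  intro V _ P hP T hT a b hab hnadj
  -- points on both sides
  have hex : ∃ k l, T.Adj k l ∧ X P a b k l := by
    by_contra hcon
    push Not at hcon
    exact hnadj (hT.2 a b hab fun k l hkl hX => hcon k l hkl hX)
  have hsides : (∃ p, orient (P a) (P b) (P p) < 0) ∧ (∃ p, 0 < orient (P a) (P b) (P p)) := by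
    obtain ⟨k, l, -, hX⟩ := hex
    rcases lt_trichotomy (orient (P a) (P b) (P k)) 0 with h | h | h
    · refine ⟨⟨k, h⟩, ⟨l, ?_⟩⟩
      by_contra hcon
      push Not at hcon
      have := mul_nonneg_of_nonpos_of_nonpos h.le hcon
      linarith [hX.1]
    · have := hX.1
      rw [h, zero_mul] at this
      exact absurd this (lt_irrefl _)
    · refine ⟨⟨l, ?_⟩, ⟨k, h⟩⟩
      by_contra hcon
      push Not at hcon
      have := mul_nonneg h.le hcon
      linarith [hX.1]
  obtain ⟨⟨p, hp⟩, ⟨q, hq⟩⟩ := hsides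
  obtain ⟨u₀, hu₀, hu₀'⟩ := gap_right hP hT hp
  obtain ⟨v₀, hv₀, hv₀'⟩ := gap_left hP hT hq
  set N : Finset V := Finset.univ.filter fun x => T.Adj a x ∧ 0 < orient (P a) (P b) (P x) with hN
  obtain ⟨⟨v, hvN, hvmin⟩, -⟩ := first_last P a _ _ N ⟨v₀, by simp [hN, hv₀, hv₀']⟩ (fun x hx => by
    rw [← orient_fun]
    exact (Finset.mem_filter.1 hx).2.2)
  set M : Finset V := Finset.univ.filter fun x => T.Adj a x ∧ 0 < - orient (P a) (P b) (P x) with hM
  obtain ⟨-, ⟨u, huM, humax⟩⟩ := first_last P a _ _ M ⟨u₀, by simp [hM, hu₀, hu₀']⟩ (fun x hx => by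
    rw [← orient_fun']
    exact (Finset.mem_filter.1 hx).2.2)
  simp only [hN, hM, Finset.mem_filter, Finset.mem_univ, true_and] at hvN huM hvmin humax
  obtain ⟨hav, hv⟩ := hvN
  obtain ⟨hau, hu⟩ := huM
  have hub : 0 < orient (P a) (P u) (P b) := by rw [orient_swap']; exact hu
  obtain ⟨c, hc, -, hac, huc, hemp⟩ := face V P hP T hT a u b hau hub
  have hcb : c ≠ b := by rintro rfl; exact hnadj hac
  have hbc : 0 < orient (P a) (P b) (P c) := by
    have h0 := hP.col a b c hab hac.ne hcb.symm
    rcases lt_or_gt_of_ne h0 with h | h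
    · have := humax c ⟨hac, by linarith⟩
      linarith
    · exact h
  have hvc := hvmin c ⟨hac, hbc⟩
  have hcv : c = v := by
    by_contra hne
    have h0 := hP.col a v c hav.ne hac.ne (Ne.symm hne)
    have hvc' : 0 < orient (P a) (P v) (P c) := lt_of_le_of_ne hvc h0.symm
    have hid : orient (P a) (P b) (P c) * orient (P a) (P u) (P v) =
        orient (P a) (P v) (P c) * orient (P a) (P u) (P b) +
          orient (P a) (P b) (P v) * orient (P a) (P u) (P c) := by
      unfold orient; ring
    have huv : 0 < orient (P a) (P u) (P v) := by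
      have : 0 < orient (P a) (P b) (P c) * orient (P a) (P u) (P v) := by
        rw [hid]
        exact add_pos (mul_pos hvc' hub) (mul_pos hv hc)
      exact (pos_iff_pos_of_mul_pos this).1 hbc
    have huv' : u ≠ v := by rintro rfl; simp at huv
    have hucv : orient (P u) (P c) (P v) < 0 := by
      have h1 := hP.col u c v huc.ne huv' hne
      rcases lt_or_gt_of_ne h1 with h | h
      · exact h
      · exfalso
        apply hemp v
        rw [inTri_pos hc]
        refine ⟨huv, h, ?_⟩
        rw [orient_swap, orient_swap']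
        linarith
    apply hT.1 a v u c hav huc
    refine ⟨?_, ?_⟩
    · rw [orient_swap' (P a) (P v) (P u)] at *
      have : orient (P a) (P v) (P u) = - orient (P a) (P u) (P v) := orient_swap' _ _ _
      exact mul_neg_of_neg_of_pos (by linarith) hvc'
    · exact mul_neg_of_pos_of_neg (by rw [orient_cyc]; exact hc) hucv
  subst hcv
  have hub' : u ≠ b := by rintro rfl; simp at hub
  refine ⟨u, c, ⟨hau, hac, huc, hemp⟩, ⟨mul_neg_of_neg_of_pos (by linarith) hbc, ?_⟩, hub, hbc, hc⟩
  have hucb : orient (P u) (P c) (P b) < 0 := by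
    have h1 := hP.col u c b huc.ne hub' hcb
    rcases lt_or_gt_of_ne h1 with h | h
    · exact h
    · exfalso
      apply hemp b
      rw [inTri_pos hc]
      refine ⟨hub, h, ?_⟩
      rw [orient_swap, orient_swap']
      linarith
  exact mul_neg_of_pos_of_neg (by rw [orient_cyc]; exact hc) hucb

theorem mem_xs {V : Type} [Fintype V] {P : V → Pt} {T : SimpleGraph V} {i j : V} {e : V × V} :
    e ∈ xs P T i j ↔ T.Adj e.1 e.2 ∧ X P i j e.1 e.2 := by
  simp [xs]

theorem xs_swap {V : Type} [Fintype V] (P : V → Pt) (T : SimpleGraph V) (i j : V) :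
    xs P T i j = xs P T j i := by
  ext e
  rw [mem_xs, mem_xs, X, X, cr_swap1]

theorem xn_swap {V : Type} [Fintype V] (P : V → Pt) (T : SimpleGraph V) (i j : V) :
    xn P T i j = xn P T j i := by
  unfold xn
  rw [xs_swap]

theorem maxE_swap {V : Type} [Fintype V] {P : V → Pt} {T T' : SimpleGraph V} {a b : V}
    (h : MaxE P T T' a b) : MaxE P T T' b a := by
  obtain ⟨h1, h2, h3⟩ := h
  rw [xn_swap] at h2
  refine ⟨h1.symm, h2, fun i j hij => ?_⟩
  rw [xn_swap P T' b a]
  exact h3 i j hij

/-- A crossed edge is not an edge of `T'`. -/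
theorem not_adj_of_xn {V : Type} [Fintype V] {P : V → Pt} {T' : SimpleGraph V} (hT' : Plane P T')
    {a b : V} (h : 0 < xn P T' a b) : ¬ T'.Adj a b := by
  intro hadj
  obtain ⟨e, he⟩ := Finset.card_pos.1 h
  rw [mem_xs] at he
  exact hT' a b e.1 e.2 hadj he.1 he.2

theorem face_swap {V : Type} {P : V → Pt} {T : SimpleGraph V} {a b c : V} (h : Face P T a b c) :
    Face P T b a c :=
  ⟨h.1.symm, h.2.2.1, h.2.1, fun x hx => h.2.2.2 x (inTri_swap hx)⟩

/-- The angle at `a`. -/
theorem conv_angle (hI : S_ISEC) {V : Type} [Fintype V] {P : V → Pt} (hP : GP P) {T T' : SimpleGraph V}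
    (hT : IsTri P T) (hT' : IsTri P T') {a b c d : V} (hM : MaxE P T T' a b) (hc : Face P T a b c)
    (hd : Face P T a b d) (hc' : 0 < orient (P a) (P b) (P c)) (hd' : orient (P a) (P b) (P d) < 0) :
    0 < orient (P a) (P d) (P c) := by
  have hac : a ≠ c := hc.2.1.ne
  have had : a ≠ d := hd.2.1.ne
  have hcd : d ≠ c := by rintro rfl; linarith
  by_contra hcon
  push Not at hcon
  have hneg : orient (P a) (P d) (P c) < 0 := lt_of_le_of_ne hcon (hP.col a d c had hac hcd)
  have hdb : 0 < orient (P a) (P d) (P b) := by rw [orient_swap']; linarith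
  obtain ⟨r, har, hdr⟩ := gap_left hP hT' hdb
  have hnab := not_adj_of_xn hT'.1 hM.2.1
  have hrb : r ≠ b := by rintro rfl; exact hnab har
  have h0 := hP.col a b r hM.1.ne har.ne hrb.symm
  rcases lt_or_gt_of_ne h0 with h | h
  · refine hI V P hP T T' hT hT' a b d r hM hd har (mul_pos_of_neg_of_neg h hd') ?_
    refine mul_pos_of_neg_of_neg ?_ hd'
    rw [orient_swap']; linarith
  · have hid : orient (P a) (P d) (P b) * orient (P a) (P r) (P c) =
        orient (P a) (P d) (P r) * orient (P a) (P b) (P c) -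
          orient (P a) (P d) (P c) * orient (P a) (P b) (P r) := by
      unfold orient; ring
    have : 0 < orient (P a) (P d) (P b) * orient (P a) (P r) (P c) := by
      rw [hid]
      have e1 := mul_pos hdr hc'
      have e2 := mul_pos (neg_pos.2 hneg) h
      linarith
    have hrc := (pos_iff_pos_of_mul_pos this).1 hdb
    exact hI V P hP T T' hT hT' a b c r hM hc har (mul_pos h hc') (mul_pos hrc hc')

/-- **CONV**. -/
theorem conv (hI : S_ISEC) : S_CONV := by
  intro V _ P hP T T' hT hT' a b c d hM hc hd hc' hd'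
  have h1 := conv_angle hI hP hT hT' hM hc hd hc' hd'
  have h2 := conv_angle hI hP hT hT' (maxE_swap hM) (face_swap hd) (face_swap hc) (by rw [orient_swap]; linarith)
    (by rw [orient_swap]; linarith)
  refine ⟨mul_neg_of_pos_of_neg hc' hd', mul_neg_of_neg_of_pos ?_ ?_⟩
  · rw [orient_cyc, orient_swap']; linarith
  · rw [orient_cyc]; exact h2

end Run7.h376.HT
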