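import Pool.Agent.Run7.h376.HT.ROWS

/-!
# The piece WALK
-/

set_option autoImplicit false

namespace Run7.h376.HT

open Run7.h397 Run7.h397.HT

/-- A path through a finite set of points in the order of their abscissae. -/
theorem chain {V : Type} [DecidableEq V] {P : V → Pt} (hD : DX P) {T : SimpleGraph V} :
    ∀ (n : ℕ) (R : Finset V), R.card = n →
      (∀ p ∈ R, ∀ q ∈ R, (P p).1 < (P q).1 → (∀ r ∈ R, ¬ ((P p).1 < (P r).1 ∧ (P r).1 < (P q).1)) → T.Adj p q) →
      ∀ a ∈ R, ∀ b ∈ R, (∀ r ∈ R, (P a).1 ≤ (P r).1) → (∀ r ∈ R, (P r).1 ≤ (P b).1) →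
      ∃ w : T.Walk a b, (∀ x ∈ R, x ∈ w.support) ∧ w.length + 1 = n := by
  intro n
  induction n with
  | zero =>
    intro R hR _ a ha
    rw [Finset.card_eq_zero] at hR
    subst hR
    simp at ha
  | succ n ih =>
    intro R hR hadj a ha b hb hl hr
    by_cases hR' : (R.erase a).Nonempty
    · obtain ⟨a', ha', hmin⟩ := (R.erase a).exists_min_image (fun x => (P x).1) hR'
      have ha'R := Finset.mem_of_mem_erase ha'
      have hne := Finset.ne_of_mem_erase ha'
      have hlt : (P a).1 < (P a').1 := lt_of_le_of_ne (hl a' ha'R) (fun h => hD a a' (Ne.symm hne) h)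
      have hba : b ≠ a := by
        rintro rfl
        have := hr a' ha'R
        linarith
      have h1 : T.Adj a a' := by
        apply hadj a ha a' ha'R hlt
        rintro r hrR ⟨h1, h2⟩
        have hra : r ≠ a := by rintro rfl; exact lt_irrefl _ h1
        have := hmin r (Finset.mem_erase.2 ⟨hra, hrR⟩)
        linarith
      obtain ⟨w, hw1, hw2⟩ := ih (R.erase a) (by rw [Finset.card_erase_of_mem ha, hR]; rfl) (by
          intro p hp q hq hpq hcons
          apply hadj p (Finset.mem_of_mem_erase hp) q (Finset.mem_of_mem_erase hq) hpq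
          intro r hrR h
          by_cases hra : r = a
          · subst hra
            have := hl p (Finset.mem_of_mem_erase hp)
            linarith [h.1]
          · exact hcons r (Finset.mem_erase.2 ⟨hra, hrR⟩) h)
        a' ha' b (Finset.mem_erase.2 ⟨hba, hb⟩) hmin (fun r hrR => hr r (Finset.mem_of_mem_erase hrR))
      refine ⟨SimpleGraph.Walk.cons h1 w, ?_, ?_⟩
      · intro x hx
        rw [SimpleGraph.Walk.support_cons, List.mem_cons]
        by_cases hxa : x = a
        · exact Or.inl hxa
        · exact Or.inr (hw1 x (Finset.mem_erase.2 ⟨hxa, hx⟩))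
      · rw [SimpleGraph.Walk.length_cons]
        omega
    · rw [Finset.not_nonempty_iff_eq_empty] at hR'
      have hRa : R = {a} := by
        rw [← Finset.insert_erase ha, hR']
        rfl
      subst hRa
      rw [Finset.mem_singleton] at hb
      subst hb
      refine ⟨SimpleGraph.Walk.nil, ?_, ?_⟩
      · intro x hx
        rw [Finset.mem_singleton] at hx
        simp [hx]
      · rw [Finset.card_singleton] at hR
        simp only [SimpleGraph.Walk.length_nil]
        omega

section

variable {V : Type} {P : V → Pt}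

/-- Every point has a bottom. -/
theorem ex_bot [Fintype V] (P : V → Pt) (E : SimpleGraph V) (p : V) : ∃ k, IsBot P E p k := by
  classical
  by_cases h : ∃ e : V × V, E.Adj e.1 e.2 ∧ Blw P e.1 e.2 p
  · obtain ⟨e₀, he₀⟩ := h
    obtain ⟨e, he, hmax⟩ := (Finset.univ.filter fun e : V × V => E.Adj e.1 e.2 ∧ Blw P e.1 e.2 p).exists_max_image
      (fun e => hgt P e.1 e.2 (P p).1) ⟨e₀, by simp [he₀.1, he₀.2]⟩
    simp only [Finset.mem_filter, Finset.mem_univ, true_and] at he hmax
    exact ⟨some e, he.1, he.2, fun u' v' h1 h2 => hmax (u', v') ⟨h1, h2⟩⟩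
  · push Not at h
    exact ⟨none, fun u v h1 h2 => h (u, v) h1 h2⟩

/-- The bottom is unique. -/
theorem bot_unique (hP : GP P) {E : SimpleGraph V} (hE : Plane P E) {p : V} {k k' : Option (V × V)}
    (h : IsBot P E p k) (h' : IsBot P E p k') : k = k' := by
  rcases k with _ | ⟨u, v⟩
  · rcases k' with _ | ⟨u', v'⟩
    · rfl
    · exact absurd h'.2.1 (h u' v' h'.1)
  · rcases k' with _ | ⟨u', v'⟩
    · exact absurd h.2.1 (h' u v h.1)
    · obtain ⟨a1, a2, a3⟩ := h
      obtain ⟨b1, b2, b3⟩ := h'
      have e1 := a3 u' v' b1 b2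
      have e2 := b3 u v a1 a2
      obtain ⟨c1, c2, c3⟩ := a2
      obtain ⟨d1, d2, d3⟩ := b2
      obtain ⟨f1, f2⟩ := same_edge hP hE a1 b1 (c1.trans c2) (d1.trans d2) (x₀ := (P p).1) c1 c2 d1 d2
        (le_antisymm e2 e1)
      rw [f1, f2]

end

/-- Concatenation of closed walks. -/
theorem concat {V I : Type} [DecidableEq I] {T : SimpleGraph V} (ρ : V) (B : I → V → Prop) (L : I → ℕ)
    (K : Finset I) (h : ∀ k ∈ K, ∃ w : T.Walk ρ ρ, (∀ x, B k x → x ∈ w.support) ∧ w.length ≤ L k) :
    ∃ w : T.Walk ρ ρ, (∀ k ∈ K, ∀ x, B k x → x ∈ w.support) ∧ w.length ≤ ∑ k ∈ K, L k := by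
  induction K using Finset.induction_on with
  | empty => exact ⟨SimpleGraph.Walk.nil, by simp, by simp⟩
  | insert k K hk ih =>
    obtain ⟨w, hw1, hw2⟩ := ih (fun k' hk' => h k' (Finset.mem_insert_of_mem hk'))
    obtain ⟨w', hw1', hw2'⟩ := h k (Finset.mem_insert_self _ _)
    refine ⟨w'.append w, ?_, ?_⟩
    · intro k' hk' x hx
      rw [SimpleGraph.Walk.mem_support_append_iff]
      rcases Finset.mem_insert.1 hk' with rfl | hk'
      · exact Or.inl (hw1' x hx)
      · exact Or.inr (hw1 k' hk' x hx)
    · rw [SimpleGraph.Walk.length_append, Finset.sum_insert hk]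
      omega

/-- **WALK**. -/
theorem walk : S_WALK := by
  classical
  intro V _ P hP hD E T hE hT ρ lam N hρ hlam hρl hconn
  have hET : E ≤ T := le_trans (by unfold rowG; exact le_sup_left) hT
  have hrow : ∀ p q, RowAdj P E p q → T.Adj p q := by
    intro p q h
    apply hT
    unfold rowG
    rw [SimpleGraph.sup_adj, SimpleGraph.fromRel_adj]
    right
    refine ⟨?_, Or.inl h⟩
    rintro rfl
    obtain ⟨k, -, -, h3, -⟩ := h
    exact lt_irrefl _ h3
  choose bot hbot using ex_bot P E
  have hiff : ∀ p k, IsBot P E p k ↔ bot p = k := fun p k =>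
    ⟨fun h => bot_unique hP hE (hbot p) h, fun h => h ▸ hbot p⟩
  set B : Option (V × V) → Finset V := fun k => Finset.univ.filter fun p => bot p = k with hB
  have hmemB : ∀ p k, p ∈ B k ↔ IsBot P E p k := by
    intro p k
    rw [hiff]
    simp [hB]
  set K : Finset (V × V) := Finset.univ.filter fun e => E.Adj e.1 e.2 ∧ (P e.1).1 < (P e.2).1 with hK
  have hKcard : K.card ≤ (es E).card := by
    apply Finset.card_le_card
    intro e he
    simp only [hK, es, Finset.mem_filter, Finset.mem_univ, true_and] at he ⊢
    exact he.1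
  -- the rows of the edges
  have hw1 : ∀ k ∈ K, ∃ w : T.Walk ρ ρ, (∀ x, IsBot P E x (some k) → x ∈ w.support) ∧
      w.length ≤ 2 * N + 2 + (B (some k)).card := by
    rintro ⟨u, v⟩ hk
    simp only [hK, Finset.mem_filter, Finset.mem_univ, true_and] at hk
    obtain ⟨huv, hlt⟩ := hk
    have hin : ∀ r, r ∈ insert u (insert v (B (some (u, v)))) ↔ InRow P E (some (u, v)) r := by
      intro r
      rw [Finset.mem_insert, Finset.mem_insert, hmemB]
      constructor
      · rintro (rfl | rfl | h)
        · exact Or.inr ⟨_, _, rfl, huv, hlt, Or.inl rfl⟩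
        · exact Or.inr ⟨_, _, rfl, huv, hlt, Or.inr rfl⟩
        · exact Or.inl h
      · rintro (h | ⟨u', v', h, -, -, h2⟩)
        · exact Or.inr (Or.inr h)
        · simp only [Option.some.injEq, Prod.mk.injEq] at h
          obtain ⟨rfl, rfl⟩ := h
          rcases h2 with h2 | h2
          · exact Or.inl h2
          · exact Or.inr (Or.inl h2)
    obtain ⟨w, hws, hwl⟩ := chain hD (T := T) _ (insert u (insert v (B (some (u, v))))) rfl (by
        intro p hp q hq hpq hcons
        exact hrow p q ⟨some (u, v), (hin p).1 hp, (hin q).1 hq, hpq, fun r hr => hcons r ((hin r).2 hr)⟩)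
      u (Finset.mem_insert_self _ _) v (Finset.mem_insert_of_mem (Finset.mem_insert_self _ _))
      (fun r hr => (inRow_facts hD ((hin r).1 hr)).2.2.1)
      (fun r hr => (inRow_facts hD ((hin r).1 hr)).2.2.2.1)
    obtain ⟨w₀, hw₀⟩ := hconn u v huv
    let w₁ : T.Walk ρ u := w₀.mapLe hET
    have hw₁ : w₁.length ≤ N := by
      rw [SimpleGraph.Walk.length_map]
      exact hw₀
    refine ⟨(w₁.append w).append (SimpleGraph.Walk.cons (hET huv.symm) w₁.reverse), ?_, ?_⟩
    · intro x hx
      rw [SimpleGraph.Walk.mem_support_append_iff, SimpleGraph.Walk.mem_support_append_iff]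
      exact Or.inl (Or.inr (hws x (Finset.mem_insert_of_mem (Finset.mem_insert_of_mem ((hmemB x _).2 hx)))))
    · rw [SimpleGraph.Walk.length_append, SimpleGraph.Walk.length_append, SimpleGraph.Walk.length_cons,
        SimpleGraph.Walk.length_reverse]
      have h1 := Finset.card_insert_le u (insert v (B (some (u, v))))
      have h2 := Finset.card_insert_le v (B (some (u, v)))
      omega
  -- the row without an edge
  have hw2 : ∃ w : T.Walk ρ ρ, (∀ x, IsBot P E x none → x ∈ w.support) ∧ w.length ≤ N + (B none).card := by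
    have hlamB : lam ∈ B none := by
      rw [hmemB]
      intro u v huv hb
      by_cases h : u = lam
      · subst h
        exact lt_irrefl _ hb.1
      · have := hlam u h
        linarith [hb.1]
    have hρB : ρ ∈ B none := by
      rw [hmemB]
      intro u v huv hb
      by_cases h : v = ρ
      · subst h
        exact lt_irrefl _ hb.2.1
      · have := hρ v h
        linarith [hb.2.1]
    have hin : ∀ r, r ∈ B none ↔ InRow P E none r := by
      intro r
      rw [hmemB]
      constructor
      · exact Or.inl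
      · rintro (h | ⟨u', v', h, -⟩)
        · exact h
        · exact absurd h (by simp)
    obtain ⟨w, hws, hwl⟩ := chain hD (T := T) _ (B none) rfl (by
        intro p hp q hq hpq hcons
        exact hrow p q ⟨none, (hin p).1 hp, (hin q).1 hq, hpq, fun r hr => hcons r ((hin r).2 hr)⟩)
      lam hlamB ρ hρB
      (fun r _ => by
        by_cases h : r = lam
        · rw [h]
        · exact (hlam r h).le)
      (fun r _ => by
        by_cases h : r = ρ
        · rw [h]
        · exact (hρ r h).le)
    obtain ⟨w₀, hw₀⟩ := hρl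
    refine ⟨(w₀.mapLe hET).append w, ?_, ?_⟩
    · intro x hx
      rw [SimpleGraph.Walk.mem_support_append_iff]
      exact Or.inr (hws x ((hmemB x _).2 hx))
    · rw [SimpleGraph.Walk.length_append]
      have : (w₀.mapLe hET).length ≤ N := by
        rw [SimpleGraph.Walk.length_map]
        exact hw₀
      omega
  obtain ⟨w1, h11, h12⟩ := concat ρ (fun k x => IsBot P E x (some k)) (fun k => 2 * N + 2 + (B (some k)).card) K hw1
  obtain ⟨w2, h21, h22⟩ := hw2
  refine ⟨w1.append w2, ?_, ?_⟩
  · intro x
    rw [SimpleGraph.Walk.mem_support_append_iff]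
    rcases hk : bot x with _ | ⟨u, v⟩
    · exact Or.inr (h21 x ((hiff x none).2 hk))
    · have hb := (hiff x (some (u, v))).2 hk
      left
      apply h11 (u, v) _ x hb
      simp only [hK, Finset.mem_filter, Finset.mem_univ, true_and]
      exact ⟨hb.1, hb.2.1.1.trans hb.2.1.2.1⟩
  · rw [SimpleGraph.Walk.length_append]
    have hsum : (Finset.univ : Finset V).card = ∑ k ∈ insert none (K.image some), (B k).card := by
      rw [Finset.card_eq_sum_card_fiberwise (f := bot) (t := insert none (K.image some))]
      intro x _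
      rw [Finset.coe_insert, Set.mem_insert_iff, Finset.mem_coe, Finset.mem_image]
      rcases hk : bot x with _ | ⟨u, v⟩
      · exact Or.inl rfl
      · right
        have hb := (hiff x (some (u, v))).2 hk
        refine ⟨(u, v), ?_, rfl⟩
        simp only [hK, Finset.mem_filter, Finset.mem_univ, true_and]
        exact ⟨hb.1, hb.2.1.1.trans hb.2.1.2.1⟩
    rw [Finset.sum_insert (by simp), Finset.sum_image (by
      intro a _ b _ h
      exact Option.some_injective _ h), Finset.card_univ] at hsum
    rw [Finset.sum_add_distrib, Finset.sum_const, smul_eq_mul] at h12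
    have hmul : K.card * (2 * N + 2) ≤ (2 * N + 2) * (es E).card := by
      rw [mul_comm]
      exact Nat.mul_le_mul_left _ hKcard
    omega

end Run7.h376.HT
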